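import Pool.Agent.Run7.h543.DEP.Low1

/-!
# The lower bound for every wave function
-/

set_option autoImplicit false
set_option linter.unusedSectionVars false

noncomputable section

namespace Run7.h543.DEP

open Finset Matrix Run7.h259.BEC

variable {V : Type} [Fintype V] [DecidableEq V]

lemma lap_row (t : V → V → ℝ) (x : V) : ∑ y, lap t x y = 0 := by
  unfold lap
  rw [sum_sub_distrib, sum_ite_eq, if_pos (mem_univ _), sub_self]

lemma lap_symm {t : V → V → ℝ} (ht : ∀ x y, t x y = t y x) (x y : V) : lap t x y = lap t y x := by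
  unfold lap
  by_cases h : x = y
  · subst h; rfl
  · rw [if_neg h, if_neg (Ne.symm h), ht x y]

lemma lap_form {t : V → V → ℝ} (ht : ∀ x y, t x y = t y x) (f : V → ℝ) :
    ∑ x, ∑ y, lap t x y * f x * f y = ∑ x, ∑ y, t x y * (f y - f x) ^ 2 / 2 := by
  have h1 : ∑ x, ∑ y, lap t x y * f x * f y =
      ∑ x, ∑ y, t x y * f x ^ 2 - ∑ x, ∑ y, t x y * f x * f y := by
    rw [← sum_sub_distrib]
    refine sum_congr rfl fun x _ => ?_
    have : ∀ y, lap t x y * f x * f y =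
        (if x = y then (∑ z, t x z) * f x * f y else 0) - t x y * f x * f y := by
      intro y; unfold lap; split_ifs <;> ring
    simp_rw [this]
    rw [sum_sub_distrib, sum_ite_eq, if_pos (mem_univ _), ← sum_mul]
    ring
  have h2 : ∑ x, ∑ y, t x y * (f y - f x) ^ 2 / 2 =
      (∑ x, ∑ y, t x y * f y ^ 2) / 2 + (∑ x, ∑ y, t x y * f x ^ 2) / 2 -
        ∑ x, ∑ y, t x y * f x * f y := by
    simp_rw [sum_div]
    rw [← sum_add_distrib, ← sum_sub_distrib]
    refine sum_congr rfl fun x _ => ?_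
    rw [← sum_add_distrib, ← sum_sub_distrib]
    refine sum_congr rfl fun y _ => ?_
    ring
  have h3 : ∑ x, ∑ y, t x y * f y ^ 2 = ∑ x, ∑ y, t x y * f x ^ 2 := by
    rw [sum_comm]
    refine sum_congr rfl fun x _ => sum_congr rfl fun y _ => ?_
    rw [ht]
  rw [h1, h2, h3]; ring

/-- the quadratic form of `L + lam` above the constants is nonnegative -/
lemma form_nonneg [Nonempty V] {t : V → V → ℝ} {g lam : ℝ} (ht : ∀ x y, t x y = t y x)
    (hg : HasGapT t g) (hl : -g ≤ lam) (f : V → ℝ) :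
    0 ≤ ∑ x, ∑ y, lap t x y * f x * f y +
      lam * (∑ x, f x ^ 2 - (∑ x, f x) ^ 2 / Fintype.card V) := by
  have hn : (Fintype.card V : ℝ) ≠ 0 := by exact_mod_cast Fintype.card_ne_zero
  set μ : ℝ := (∑ x, f x) / Fintype.card V with hμ
  have h0 : ∑ x, (f x - μ) = 0 := by
    rw [sum_sub_distrib, sum_const, card_univ, nsmul_eq_mul, hμ]; field_simp; ring
  have h1 := hg (fun x => f x - μ) h0
  have h2 : ∑ x, (f x - μ) ^ 2 = ∑ x, f x ^ 2 - (∑ x, f x) ^ 2 / Fintype.card V := by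
    have : ∀ x, (f x - μ) ^ 2 = f x ^ 2 - 2 * μ * f x + μ ^ 2 := by intro x; ring
    simp_rw [this]
    rw [sum_add_distrib, sum_sub_distrib, ← mul_sum, sum_const, card_univ, nsmul_eq_mul, hμ]
    field_simp
    ring
  have h3 : ∑ x, ∑ y, t x y * ((f y - μ) - (f x - μ)) ^ 2 / 2 =
      ∑ x, ∑ y, lap t x y * f x * f y := by
    rw [lap_form ht]
    refine sum_congr rfl fun x _ => sum_congr rfl fun y _ => ?_
    ring
  rw [h3, h2] at h1
  have h4 : 0 ≤ ∑ x, f x ^ 2 - (∑ x, f x) ^ 2 / Fintype.card V := by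
    rw [← h2]; exact sum_nonneg fun x _ => sq_nonneg _
  have h5 := mul_le_mul_of_nonneg_right hl h4
  linarith

/-- the off-diagonal part of a double sum over a finite set -/
lemma sum_split (S : Finset V) (K : V → V → ℝ) :
    ∑ z ∈ S, ∑ w ∈ S, K z w = ∑ z ∈ S, K z z + ∑ z ∈ S, ∑ w ∈ S, if z ≠ w then K z w else 0 := by
  rw [← sum_add_distrib]
  refine sum_congr rfl fun z hz => ?_
  have h1 : ∀ w, K z w = (if z = w then K z w else 0) + (if z ≠ w then K z w else 0) := by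
    intro w; by_cases h : z = w <;> simp [h]
  rw [sum_congr rfl fun w _ => h1 w, sum_add_distrib, sum_ite_eq, if_pos hz]

/-- the arithmetic of the configuration inequality -/
lemma cfg_arith {q c s τ m hh k Phe R Uk Ek Su n lam B : ℝ} (hτ : 0 < τ) (hn : 0 < n)
    (h0 : 0 ≤ q + 2 * m * (-(c * m * k) - Phe) + m ^ 2 * (c * (k + Uk)) +
      |lam| * (m ^ 2 * Su ^ 2 / n))
    (h1 : 0 ≤ τ ^ 2 * hh + 2 * (τ * m) * Phe + m ^ 2 * R) (hR : R ≤ s * k + Ek)
    (hSu0 : 0 ≤ Su) (hSu : Su ≤ B * k) :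
    (c - s / τ) * (m ^ 2 * k) ≤ q + τ * hh + m ^ 2 * (c * Uk + Ek / τ) +
      |lam| * B ^ 2 * (m ^ 2 * k ^ 2) / n := by
  have e1 : -(2 * m * Phe) ≤ τ * hh + m ^ 2 * R / τ := by
    have h2 : -(2 * m * Phe) * τ ≤ (τ * hh + m ^ 2 * R / τ) * τ := by
      have : (τ * hh + m ^ 2 * R / τ) * τ = τ ^ 2 * hh + m ^ 2 * R := by field_simp
      rw [this]; linarith
    exact le_of_mul_le_mul_right h2 hτ
  have e2 : m ^ 2 * R / τ ≤ m ^ 2 * (s * k + Ek) / τ :=
    div_le_div_of_nonneg_right (mul_le_mul_of_nonneg_left hR (sq_nonneg m)) hτ.le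
  have e3 : m ^ 2 * (s * k + Ek) / τ = s / τ * (m ^ 2 * k) + m ^ 2 * (Ek / τ) := by
    field_simp
  have e4 : Su ^ 2 ≤ (B * k) ^ 2 := pow_le_pow_left₀ hSu0 hSu 2
  have e5 : |lam| * (m ^ 2 * Su ^ 2 / n) ≤ |lam| * B ^ 2 * (m ^ 2 * k ^ 2) / n := by
    have : |lam| * B ^ 2 * (m ^ 2 * k ^ 2) / n = |lam| * (m ^ 2 * (B * k) ^ 2 / n) := by ring
    rw [this]
    refine mul_le_mul_of_nonneg_left ?_ (abs_nonneg _)
    exact div_le_div_of_nonneg_right (mul_le_mul_of_nonneg_left e4 (sq_nonneg m)) hn.le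
  have e6 : q + 2 * m * (-(c * m * k) - Phe) + m ^ 2 * (c * (k + Uk)) =
      q - c * (m ^ 2 * k) - 2 * m * Phe + m ^ 2 * (c * Uk) := by ring
  rw [e6] at h0
  have e7 : m ^ 2 * (c * Uk + Ek / τ) = m ^ 2 * (c * Uk) + m ^ 2 * (Ek / τ) := by ring
  rw [e7, sub_mul]
  linarith

/-- **The inequality for one configuration.** -/
theorem cfg [Nonempty V] {t : V → V → ℝ} {g lam c s B : ℝ} {U E : Matrix V V ℝ}
    (ht : ∀ x y, t x y = t y x) (hg : HasGapT t g) (hl : -g ≤ lam)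
    (hP : Profile t lam c s B U E) (S : Finset V) (h : V → ℝ) (m : ℝ) (h0 : ∑ x, h x = 0)
    (hS : ∀ z ∈ S, h z = -m) (τ : ℝ) (hτ : 0 < τ) :
    (c - s / τ) * (m ^ 2 * S.card) ≤
      (∑ x, ∑ y, lap t x y * h x * h y + lam * ∑ x, h x ^ 2) + τ * ∑ x, h x ^ 2 +
      m ^ 2 * (c * (∑ z ∈ S, ∑ w ∈ S, if z ≠ w then U z w else 0) +
        (∑ z ∈ S, ∑ w ∈ S, if z ≠ w then (∑ x, E x z * E x w) else 0) / τ) +
      |lam| * B ^ 2 * (m ^ 2 * (S.card : ℝ) ^ 2) / Fintype.card V := by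
  have hn : (0 : ℝ) < Fintype.card V := by exact_mod_cast Fintype.card_pos
  set u : V → ℝ := fun x => ∑ z ∈ S, U x z with hu
  set e : V → ℝ := fun x => ∑ z ∈ S, E x z with he
  have hLu : ∀ x, ∑ y, lap t x y * u y = (if x ∈ S then c else 0) - e x - lam * u x := by
    intro x
    have e1 : ∑ y, lap t x y * u y = ∑ z ∈ S, (lap t * U) x z := by
      simp only [hu, Matrix.mul_apply, mul_sum]
      rw [sum_comm]
    have e2 : ∀ z ∈ S, (lap t * U) x z = (if x = z then c else 0) - E x z - lam * U x z := by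
      intro z _
      have := hP.eq x z
      linarith
    rw [e1, sum_congr rfl e2, sum_sub_distrib, sum_sub_distrib, sum_ite_eq, ← mul_sum]
  have hv := form_nonneg ht hg hl (fun x => h x + m * u x)
  -- expansion of the form
  have hcross : ∑ x, ∑ y, lap t x y * u x * h y = ∑ x, ∑ y, lap t x y * h x * u y := by
    rw [sum_comm]
    refine sum_congr rfl fun x _ => sum_congr rfl fun y _ => ?_
    rw [lap_symm ht y x]; ring
  have hpull : ∀ f : V → ℝ, ∑ x, ∑ y, lap t x y * f x * u y =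
      ∑ x, f x * ((if x ∈ S then c else 0) - e x - lam * u x) := by
    intro f
    refine sum_congr rfl fun x _ => ?_
    rw [← hLu x, mul_sum]
    exact sum_congr rfl fun y _ => by ring
  have hform : ∑ x, ∑ y, lap t x y * (h x + m * u x) * (h y + m * u y) =
      ∑ x, ∑ y, lap t x y * h x * h y +
      2 * m * (∑ x, h x * ((if x ∈ S then c else 0) - e x - lam * u x)) +
      m ^ 2 * ∑ x, u x * ((if x ∈ S then c else 0) - e x - lam * u x) := by
    rw [← hpull h, ← hpull u]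
    have e1 : ∑ x, ∑ y, lap t x y * (h x + m * u x) * (h y + m * u y) =
        ∑ x, ∑ y, lap t x y * h x * h y + m * (∑ x, ∑ y, lap t x y * h x * u y) +
        m * (∑ x, ∑ y, lap t x y * u x * h y) + m ^ 2 * ∑ x, ∑ y, lap t x y * u x * u y := by
      simp only [mul_sum, ← sum_add_distrib]
      refine sum_congr rfl fun x _ => sum_congr rfl fun y _ => ?_
      ring
    rw [e1, hcross]; ring
  have hsq : ∑ x, (h x + m * u x) ^ 2 = ∑ x, h x ^ 2 + 2 * m * (∑ x, h x * u x) +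
      m ^ 2 * ∑ x, u x * u x := by
    simp only [mul_sum, ← sum_add_distrib]
    refine sum_congr rfl fun x _ => ?_
    ring
  have hsum : ∑ x, (h x + m * u x) = m * ∑ x, u x := by
    rw [sum_add_distrib, h0, ← mul_sum, zero_add]
  have hsplit : ∀ f : V → ℝ, ∑ x, f x * ((if x ∈ S then c else 0) - e x - lam * u x) =
      c * (∑ x ∈ S, f x) - ∑ x, f x * e x - lam * ∑ x, f x * u x := by
    intro f
    have e1 : ∀ x, f x * ((if x ∈ S then c else 0) - e x - lam * u x) =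
        (if x ∈ S then c * f x else 0) - f x * e x - lam * (f x * u x) := by
      intro x; split_ifs <;> ring
    simp_rw [e1]
    rw [sum_sub_distrib, sum_sub_distrib, ← mul_sum, sum_ite_mem, univ_inter, ← mul_sum]
  rw [hform, hsq, hsum, hsplit h, hsplit u] at hv
  have hhS : ∑ x ∈ S, h x = -(m * S.card) := by
    rw [sum_congr rfl hS, sum_const, nsmul_eq_mul]; ring
  rw [hhS] at hv
  have huS : ∑ x ∈ S, u x = S.card + ∑ z ∈ S, ∑ w ∈ S, if z ≠ w then U z w else 0 := by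
    rw [hu]
    rw [sum_split S (fun z w => U z w)]
    congr 1
    rw [sum_congr rfl fun z _ => hP.one z, sum_const, nsmul_eq_mul, mul_one]
  have hue : 0 ≤ ∑ x, u x * e x := sum_nonneg fun x _ =>
    mul_nonneg (sum_nonneg fun z _ => hP.nonneg x z) (sum_nonneg fun z _ => hP.Enonneg x z)
  have hee : ∑ x, e x * e x ≤ s * S.card +
      ∑ z ∈ S, ∑ w ∈ S, if z ≠ w then (∑ x, E x z * E x w) else 0 := by
    have e1 : ∑ x, e x * e x = ∑ z ∈ S, ∑ w ∈ S, ∑ x, E x z * E x w := by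
      simp only [he, sum_mul_sum]
      rw [sum_comm]
      refine sum_congr rfl fun z _ => ?_
      rw [sum_comm]
    rw [e1, sum_split S (fun z w => ∑ x, E x z * E x w)]
    have e2 : ∑ z ∈ S, ∑ x, E x z * E x z ≤ s * S.card := by
      have e3 : ∀ z ∈ S, ∑ x, E x z * E x z ≤ s := by
        intro z _
        refine le_trans (le_of_eq ?_) (hP.sq z)
        refine sum_congr rfl fun x _ => ?_
        rw [hP.Esymm x z]; ring
      refine (sum_le_sum e3).trans (le_of_eq ?_)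
      rw [sum_const, nsmul_eq_mul]; ring
    linarith
  have hSu0 : 0 ≤ ∑ x, u x := sum_nonneg fun x _ => sum_nonneg fun z _ => hP.nonneg x z
  have hSu : ∑ x, u x ≤ B * S.card := by
    have e0 : ∑ x, u x = ∑ z ∈ S, ∑ x, U x z := by
      simp only [hu]
      exact sum_comm
    rw [e0]
    have e3 : ∀ z ∈ S, ∑ x, U x z ≤ B := by
      intro z _
      refine le_trans (le_of_eq ?_) (hP.row z)
      exact sum_congr rfl fun x _ => hP.symm x z
    refine (sum_le_sum e3).trans (le_of_eq ?_)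
    rw [sum_const, nsmul_eq_mul]; ring
  have hsq2 : 0 ≤ τ ^ 2 * ∑ x, h x ^ 2 + 2 * (τ * m) * (∑ x, h x * e x) +
      m ^ 2 * ∑ x, e x * e x := by
    have e1 : 0 ≤ ∑ x, (τ * h x + m * e x) ^ 2 := sum_nonneg fun x _ => sq_nonneg _
    refine e1.trans (le_of_eq ?_)
    simp only [mul_sum, ← sum_add_distrib]
    refine sum_congr rfl fun x _ => ?_
    ring
  refine cfg_arith (Phe := ∑ x, h x * e x) (R := ∑ x, e x * e x) (Su := ∑ x, u x) hτ hn ?_
    hsq2 hee hSu0 hSu
  rw [← huS]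
  have h7 : -(lam * (m ^ 2 * (∑ x, u x) ^ 2 / Fintype.card V)) ≤
      |lam| * (m ^ 2 * (∑ x, u x) ^ 2 / Fintype.card V) := by
    rw [← neg_mul]
    exact mul_le_mul_of_nonneg_right (neg_le_abs lam) (by positivity)
  have h8 : 0 ≤ m ^ 2 * ∑ x, u x * e x := mul_nonneg (sq_nonneg m) hue
  have h9 : lam * (∑ x, h x ^ 2 + 2 * m * (∑ x, h x * u x) + m ^ 2 * ∑ x, u x * u x -
      (m * ∑ x, u x) ^ 2 / Fintype.card V) = lam * ∑ x, h x ^ 2 +
      2 * m * (lam * ∑ x, h x * u x) + m ^ 2 * (lam * ∑ x, u x * u x) -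
      lam * (m ^ 2 * (∑ x, u x) ^ 2 / Fintype.card V) := by ring
  rw [h9] at hv
  have h10 : 2 * m * (c * -(m * (S.card : ℝ)) - ∑ x, h x * e x - lam * ∑ x, h x * u x) =
      2 * m * (-(c * m * (S.card : ℝ)) - ∑ x, h x * e x) - 2 * m * (lam * ∑ x, h x * u x) := by
    ring
  have h11 : m ^ 2 * (c * (∑ x ∈ S, u x) - ∑ x, u x * e x - lam * ∑ x, u x * u x) =
      m ^ 2 * (c * (∑ x ∈ S, u x)) - m ^ 2 * (∑ x, u x * e x) -
        m ^ 2 * (lam * ∑ x, u x * u x) := by ring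
  rw [h10, h11] at hv
  linarith

end Run7.h543.DEP
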