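import Mathlib

/-!
# Real-variable lemmas of the final step
-/

set_option autoImplicit false

noncomputable section

namespace Run7.h543.DEP

/-- the constant of the derivative estimate -/
def C1 (D g : ℝ) : ℝ :=
  24 * D ^ 3 * (1 / g ^ 2 + 2 / g ^ 3 + 1) / g ^ 2 + 32 * D ^ 3 / g ^ 2 + 12 * D ^ 2 / g ^ 3 +
    12 * D ^ 2

lemma C1_pos {D g : ℝ} (hD : 0 < D) (hg : 0 < g) : 0 < C1 D g := by
  unfold C1; positivity

/-- `c` is close to `1 / a` -/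
lemma near_inv {a c M β : ℝ} (ha : 0 < a) (hc : 0 < c) (hcM : c / a ≤ M) (hβ : |1 / c - a| ≤ β) :
    |c - 1 / a| ≤ M * β := by
  have h1 : c - 1 / a = -(c / a) * (1 / c - a) := by field_simp; ring
  rw [h1, abs_mul, abs_neg, abs_of_pos (div_pos hc ha)]
  have h2 : 0 ≤ |1 / c - a| := abs_nonneg _
  calc c / a * |1 / c - a| ≤ M * |1 / c - a| := mul_le_mul_of_nonneg_right hcM h2
    _ ≤ M * β := mul_le_mul_of_nonneg_left hβ ((div_pos hc ha).le.trans hcM)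

lemma a_ge {D a c₀ s : ℝ} (hD : 0 < D) (hc₀ : 0 < c₀) (hc₀D : c₀ ≤ 2 * D)
    (hs4 : s ≤ 1 / (4 * D)) (h0 : |1 / c₀ - a| ≤ s) : 1 / (4 * D) ≤ a := by
  have h1 : 1 / (2 * D) ≤ 1 / c₀ := one_div_le_one_div_of_le hc₀ hc₀D
  have h2 := (abs_le.1 h0).2
  have h3 : 1 / (2 * D) = 1 / (4 * D) + 1 / (4 * D) := by field_simp; ring
  linarith

/-- **The derivative estimate.** -/
theorem deriv_est {D g a b c₀ c lam l s : ℝ} (hD : 0 < D) (hg : 0 < g) (hc₀ : 0 < c₀)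
    (hc : 0 < c) (hc₀D : c₀ ≤ 2 * D) (hcD : c ≤ 3 * D) (hb0 : 0 ≤ b) (hb : b ≤ 1 / g ^ 2)
    (hl : 0 < l) (hl1 : l ≤ 1) (hlam : |lam| = l) (hs0 : 0 ≤ s) (hs : s ≤ l ^ 2)
    (hs4 : s ≤ 1 / (4 * D)) (h0 : |1 / c₀ - a| ≤ s)
    (h1 : |1 / c - (a - lam * b)| ≤ 2 * lam ^ 2 / g ^ 3 + s) :
    |(c - c₀) - lam * (b / a ^ 2)| ≤ C1 D g * l ^ 2 := by
  have ha4 := a_ge hD hc₀ hc₀D hs4 h0
  have ha : 0 < a := lt_of_lt_of_le (by positivity) ha4
  have hinva : 1 / a ≤ 4 * D := by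
    rw [div_le_iff₀ ha]
    have := mul_le_mul_of_nonneg_left ha4 (by positivity : (0 : ℝ) ≤ 4 * D)
    rw [mul_one_div, div_self (by positivity)] at this
    exact this
  have hlam2 : lam ^ 2 = l ^ 2 := by rw [← hlam, sq_abs]
  rw [hlam2] at h1
  -- c₀ near 1 / a
  have hA : |c₀ - 1 / a| ≤ (2 * D * (4 * D)) * s := by
    refine near_inv ha hc₀ ?_ h0
    rw [div_eq_mul_one_div]
    exact mul_le_mul hc₀D hinva (by positivity) (by positivity)
  -- c near 1 / a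
  set β : ℝ := l * (1 / g ^ 2 + 2 / g ^ 3 + 1) with hβ
  have hll : l ^ 2 ≤ l := by
    rw [sq]; exact mul_le_of_le_one_left hl.le hl1
  have hB0 : |1 / c - a| ≤ β := by
    have e1 : 1 / c - a = (1 / c - (a - lam * b)) + -(lam * b) := by ring
    rw [e1]
    refine (abs_add_le _ _).trans ?_
    have e2 : |-(lam * b)| ≤ l * (1 / g ^ 2) := by
      rw [abs_neg, abs_mul, hlam, abs_of_nonneg hb0]
      exact mul_le_mul_of_nonneg_left hb hl.le
    have e3 : 2 * l ^ 2 / g ^ 3 ≤ l * (2 / g ^ 3) := by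
      have : 2 * l ^ 2 / g ^ 3 = l ^ 2 * (2 / g ^ 3) := by ring
      rw [this]
      exact mul_le_mul_of_nonneg_right hll (by positivity)
    rw [hβ]
    linarith
  have hB : |c - 1 / a| ≤ (3 * D * (4 * D)) * β := by
    refine near_inv ha hc ?_ hB0
    rw [div_eq_mul_one_div]
    exact mul_le_mul hcD hinva (by positivity) (by positivity)
  have hβ0 : 0 ≤ β := by positivity
  -- the product
  have hC : |c * c₀ - 1 / a ^ 2| ≤ 24 * D ^ 3 * β + 32 * D ^ 3 * s := by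
    have e1 : c * c₀ - 1 / a ^ 2 = (c - 1 / a) * c₀ + (c₀ - 1 / a) * (1 / a) := by
      field_simp; ring
    rw [e1]
    refine (abs_add_le _ _).trans ?_
    rw [abs_mul, abs_mul, abs_of_pos hc₀, abs_of_pos (by positivity : (0 : ℝ) < 1 / a)]
    have e2 : |c - 1 / a| * c₀ ≤ (3 * D * (4 * D)) * β * (2 * D) :=
      mul_le_mul hB hc₀D hc₀.le (by positivity)
    have e3 : |c₀ - 1 / a| * (1 / a) ≤ (2 * D * (4 * D)) * s * (4 * D) :=
      mul_le_mul hA hinva (by positivity) (by positivity)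
    have e4 : (3 * D * (4 * D)) * β * (2 * D) + (2 * D * (4 * D)) * s * (4 * D) =
        24 * D ^ 3 * β + 32 * D ^ 3 * s := by ring
    linarith
  set θ : ℝ := (1 / c₀ - 1 / c) - lam * b with hθ
  have hθ1 : |θ| ≤ 2 * l ^ 2 / g ^ 3 + 2 * s := by
    have e1 : θ = (1 / c₀ - a) + -(1 / c - (a - lam * b)) := by rw [hθ]; ring
    rw [e1]
    refine (abs_add_le _ _).trans ?_
    rw [abs_neg]
    linarith
  have e0 : (c - c₀) - lam * (b / a ^ 2) = (c * c₀ - 1 / a ^ 2) * (lam * b) + c * c₀ * θ := by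
    rw [hθ]; field_simp; ring
  rw [e0]
  refine (abs_add_le _ _).trans ?_
  rw [abs_mul (c * c₀ - 1 / a ^ 2), abs_mul lam b, hlam, abs_of_nonneg hb0, abs_mul (c * c₀),
    abs_of_pos (mul_pos hc hc₀)]
  have f1 : |c * c₀ - 1 / a ^ 2| * (l * b) ≤
      (24 * D ^ 3 * β + 32 * D ^ 3 * s) * (l * (1 / g ^ 2)) :=
    mul_le_mul hC (mul_le_mul_of_nonneg_left hb hl.le) (by positivity) (by positivity)
  have f2 : c * c₀ * |θ| ≤ (3 * D * (2 * D)) * (2 * l ^ 2 / g ^ 3 + 2 * s) :=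
    mul_le_mul (mul_le_mul hcD hc₀D hc₀.le (by positivity)) hθ1 (abs_nonneg _) (by positivity)
  have hsl : s ≤ l := hs.trans hll
  have f3 : 32 * D ^ 3 * s * (l * (1 / g ^ 2)) ≤ 32 * D ^ 3 * l * (l * (1 / g ^ 2)) := by
    refine mul_le_mul_of_nonneg_right (mul_le_mul_of_nonneg_left hsl (by positivity))
      (by positivity)
  have f4 : (3 * D * (2 * D)) * (2 * s) ≤ (3 * D * (2 * D)) * (2 * l ^ 2) :=
    mul_le_mul_of_nonneg_left (by linarith) (by positivity)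
  have f5 : C1 D g * l ^ 2 = 24 * D ^ 3 * β * (l * (1 / g ^ 2)) +
      32 * D ^ 3 * l * (l * (1 / g ^ 2)) + (3 * D * (2 * D)) * (2 * l ^ 2 / g ^ 3) +
      (3 * D * (2 * D)) * (2 * l ^ 2) := by
    rw [hβ]; unfold C1; ring
  rw [f5]
  have f6 : (24 * D ^ 3 * β + 32 * D ^ 3 * s) * (l * (1 / g ^ 2)) =
      24 * D ^ 3 * β * (l * (1 / g ^ 2)) + 32 * D ^ 3 * s * (l * (1 / g ^ 2)) := by ring
  have f7 : (3 * D * (2 * D)) * (2 * l ^ 2 / g ^ 3 + 2 * s) =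
      (3 * D * (2 * D)) * (2 * l ^ 2 / g ^ 3) + (3 * D * (2 * D)) * (2 * s) := by ring
  linarith

/-- the lower bound of the energy in terms of the leading term.  `M = N (N - 1) / n`,
`r = N ^ 2 / n`, `np` the particles outside of the condensate -/
lemma mean_low {c s τ k N ρ cnd np X lam Q M r A₁ A₂ : ℝ} (hc : 0 ≤ c)
    (hkρ : k ≤ ρ) (hM : M = k * N) (hr : r = ρ * N) (hcnd : cnd = N - np)
    (hcN : cnd ≤ N) (hc0 : 0 ≤ cnd) (hnp0 : 0 ≤ np) (hnp : np ≤ Q * r) (hs : 0 ≤ s) (hτ : 0 < τ)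
    (hA₂ : 0 ≤ A₂) (hρ : 0 ≤ ρ)
    (hlow : (c - s / τ) * k * cnd - A₁ * ρ ^ 2 * N * 1 - (τ + A₂ * ρ) * np ≤ X + lam * np) :
    c * M - (s / τ + A₁ * ρ + (c * ρ + τ + A₂ * ρ) * Q) * r ≤ X + lam * np := by
  have e1 : (c - s / τ) * k * cnd = c * M - c * (k * np) - s / τ * (k * cnd) := by
    rw [hM, hcnd]; ring
  have e2 : c * (k * np) ≤ c * ρ * np := by
    rw [mul_assoc]
    exact mul_le_mul_of_nonneg_left (mul_le_mul_of_nonneg_right hkρ hnp0) hc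
  have e3 : s / τ * (k * cnd) ≤ s / τ * r := by
    rw [hr]
    refine mul_le_mul_of_nonneg_left ?_ (by positivity)
    exact mul_le_mul hkρ hcN hc0 hρ
  have e4 : A₁ * ρ ^ 2 * N * 1 = A₁ * ρ * r := by rw [hr]; ring
  have e5 : (c * ρ + τ + A₂ * ρ) * np ≤ (c * ρ + τ + A₂ * ρ) * (Q * r) :=
    mul_le_mul_of_nonneg_left hnp (by positivity)
  rw [e1, e4] at hlow
  have e6 : (s / τ + A₁ * ρ + (c * ρ + τ + A₂ * ρ) * Q) * r =
      s / τ * r + A₁ * ρ * r + (c * ρ + τ + A₂ * ρ) * (Q * r) := by ring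
  have e7 : (c * ρ + τ + A₂ * ρ) * np = c * ρ * np + (τ + A₂ * ρ) * np := by ring
  rw [e6]
  linarith

/-- the conclusion from the two signs of `lam` -/
lemma two_signs {l κ M r np e C ε X c₀ cp cm e₁ : ℝ} (hl : 0 < l) (hM : 0 ≤ M) (hMr : M ≤ r)
    (hr : 0 ≤ r) (hX : X ≤ c₀ * M + e₁ * r)
    (hp : cp * M - e * r ≤ X + l * np) (hm : cm * M - e * r ≤ X + -l * np)
    (hdp : |(cp - c₀) - l * κ| ≤ C * l ^ 2) (hdm : |(cm - c₀) - -l * κ| ≤ C * l ^ 2)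
    (hC : C * l ≤ ε / 2) (he : e + e₁ ≤ ε / 2 * l) :
    |np - κ * M| ≤ ε * r := by
  have hC0 : 0 ≤ C * l ^ 2 := (abs_nonneg _).trans hdp
  have h1 := (abs_le.1 hdp).1
  have h2 := (abs_le.1 hdm).1
  have h3 := mul_le_mul_of_nonneg_right h1 hM
  have h4 := mul_le_mul_of_nonneg_right h2 hM
  have h5 : C * l ^ 2 * M ≤ C * l ^ 2 * r := mul_le_mul_of_nonneg_left hMr hC0
  have h6 : C * l ^ 2 * r ≤ ε / 2 * l * r := by
    have : C * l ^ 2 = C * l * l := by ring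
    rw [this]
    exact mul_le_mul_of_nonneg_right (mul_le_mul_of_nonneg_right hC hl.le) hr
  have h7 : (e + e₁) * r ≤ ε / 2 * l * r := mul_le_mul_of_nonneg_right he hr
  rw [abs_le]
  constructor
  · have : l * (-(ε * r)) ≤ l * (np - κ * M) := by linarith
    exact le_of_mul_le_mul_left this hl
  · have : l * (np - κ * M) ≤ l * (ε * r) := by linarith
    exact le_of_mul_le_mul_left this hl

end Run7.h543.DEP
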