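import Pool.Agent.Run7.h543.DEP.Low3
import Pool.Agent.Run7.h543.DEP.Fin1

/-!
# States and Gibbs states: the inequalities which are used
-/

set_option autoImplicit false
set_option linter.unusedSectionVars false

noncomputable section

namespace Run7.h543.DEP

open Finset Matrix Run7.h259.BEC

variable {V : Type} [Fintype V] [DecidableEq V]

/-- the energy `∑ L(x, y) ⟨a_x ψ, a_y ψ⟩` of a wave function -/
def energyT (t : V → V → ℝ) (ψ : Finset V → ℂ) : ℝ :=
  ∑ x, ∑ y, lap t x y * (gamma ψ x y).re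

lemma energyT_eq (t : V → V → ℝ) (ψ : Finset V → ℂ) :
    energyT t ψ = kin t (rp ψ) + kin t (ip ψ) := by
  unfold energyT kin
  rw [← sum_add_distrib]
  refine sum_congr rfl fun x _ => ?_
  rw [← sum_add_distrib]
  refine sum_congr rfl fun y _ => ?_
  rw [gamma_re]; ring

/-- the gap bounds the number of particles outside of the condensate -/
lemma gap_kin [Nonempty V] {t : V → V → ℝ} {g : ℝ} (ht : ∀ x y, t x y = t y x)
    (hg : HasGapT t g) {N : ℕ} {ψ : Finset V → ℝ} (hψ : Part N ψ) :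
    g * (N * (ψ ⬝ᵥ ψ) - Run7.h259.BEC.cond ψ) ≤ kin t ψ := by
  have hn : (Fintype.card V : ℝ) ≠ 0 := by exact_mod_cast Fintype.card_ne_zero
  have h1 : ∀ S : Finset V, 0 ≤ ∑ x, ∑ y, lap t x y * a x ψ S * a y ψ S +
      -g * (∑ x, a x ψ S ^ 2 - (∑ x, a x ψ S) ^ 2 / Fintype.card V) := fun S =>
    form_nonneg ht hg le_rfl (fun x => a x ψ S)
  have h2 := sum_nonneg fun S (_ : S ∈ (univ : Finset (Finset V))) => h1 S
  rw [sum_add_distrib, ← mul_sum, sum_sub_distrib] at h2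
  have h3 : ∑ S : Finset V, ∑ x, a x ψ S ^ 2 = N * (ψ ⬝ᵥ ψ) := by
    rw [← sum_G N ψ hψ, sum_comm]
    refine sum_congr rfl fun x _ => ?_
    unfold G dotProduct
    exact sum_congr rfl fun S _ => sq _
  have h4 : ∑ S : Finset V, (∑ x, a x ψ S) ^ 2 / Fintype.card V = Run7.h259.BEC.cond ψ := by
    rw [cond_eq]
    unfold dotProduct
    rw [mul_sum]
    refine sum_congr rfl fun S _ => ?_
    rw [bop_apply]
    field_simp
  have h5 : ∑ S : Finset V, ∑ x, ∑ y, lap t x y * a x ψ S * a y ψ S = kin t ψ := by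
    unfold kin G dotProduct
    rw [sum_comm]
    refine sum_congr rfl fun x _ => ?_
    rw [sum_comm]
    refine sum_congr rfl fun y _ => ?_
    rw [mul_sum]
    exact sum_congr rfl fun S _ => by ring
  rw [h3, h4, h5] at h2
  linarith

/-- the inequalities satisfied by the energy `X` and the number `cnd` of particles in the
condensate, in every state of `N` particles -/
structure Adm (t : V → V → ℝ) (g : ℝ) (N : ℕ) (X cnd : ℝ) : Prop where
  gap : g * (N - cnd) ≤ X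
  nonneg : 0 ≤ cnd
  le : cnd ≤ N
  low : ∀ (lam c s B τ : ℝ) (U E : Matrix V V ℝ), -g ≤ lam → 0 < B → 0 < τ →
    Profile t lam c s B U E →
    (c - s / τ) * ((N - 1) / Fintype.card V) * cnd -
      (2 * c * B + |lam| * B ^ 2 + 2 * B ^ 2 / τ) * (N / Fintype.card V) ^ 2 * N * 1 -
      (τ + (2 * c * B + 2 * B ^ 2 / τ) * (N / Fintype.card V)) * (N - cnd) ≤
      X + lam * (N - cnd)

theorem adm_state {t : V → V → ℝ} {D g : ℝ} (hD : 0 < D) (hg : 0 < g) (ht : IsHopping t D)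
    (hgap : HasGapT t g) {N : ℕ} (hN1 : 1 ≤ N) (hN : N ≤ Fintype.card V) {ψ : Finset V → ℂ}
    (hψ : IsState N ψ) : Adm t g N (energyT t ψ) (condensate ψ) := by
  have hV : Nonempty V := Fintype.card_pos_iff.1 (by omega)
  have hr := part_rp hψ.1
  have hi := part_ip hψ.1
  have hW : rp ψ ⬝ᵥ rp ψ + ip ψ ⬝ᵥ ip ψ = 1 := by rw [← norm_sq_sum]; exact hψ.2
  refine ⟨?_, ?_, ?_, ?_⟩
  · have h1 := gap_kin ht.symm hgap hr
    have h2 := gap_kin ht.symm hgap hi
    rw [energyT_eq, condensate_eq]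
    have h3 : g * ((N : ℝ) - (Run7.h259.BEC.cond (rp ψ) + Run7.h259.BEC.cond (ip ψ))) =
        g * (N * (rp ψ ⬝ᵥ rp ψ) - Run7.h259.BEC.cond (rp ψ)) +
        g * (N * (ip ψ ⬝ᵥ ip ψ) - Run7.h259.BEC.cond (ip ψ)) := by
      linear_combination (-(g * N)) * hW
    rw [h3]
    linarith
  · rw [condensate_eq]
    exact add_nonneg (cond_nonneg _) (cond_nonneg _)
  · rw [condensate_eq]
    have h1 := cond_le hr
    have h2 := cond_le hi
    have h3 : (N : ℝ) = N * (rp ψ ⬝ᵥ rp ψ) + N * (ip ψ ⬝ᵥ ip ψ) := by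
      linear_combination (-(N : ℝ)) * hW
    linarith
  · intro lam c s B τ U E hl hB hτ hP
    have h1 := t_LOW V t D g lam c s B U E hD hg hB hl ht hgap hP N hN1 hN (rp ψ) hr τ hτ
    have h2 := t_LOW V t D g lam c s B U E hD hg hB hl ht hgap hP N hN1 hN (ip ψ) hi τ hτ
    rw [energyT_eq, condensate_eq]
    set p := rp ψ ⬝ᵥ rp ψ
    set q := ip ψ ⬝ᵥ ip ψ
    set u := Run7.h259.BEC.cond (rp ψ)
    set v := Run7.h259.BEC.cond (ip ψ)
    set n : ℝ := (Fintype.card V : ℝ)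
    have h3 : (c - s / τ) * ((N - 1) / n) * (u + v) -
        (2 * c * B + |lam| * B ^ 2 + 2 * B ^ 2 / τ) * (N / n) ^ 2 * N * 1 -
        (τ + (2 * c * B + 2 * B ^ 2 / τ) * (N / n)) * (N - (u + v)) =
        ((c - s / τ) * ((N - 1) / n) * u -
        (2 * c * B + |lam| * B ^ 2 + 2 * B ^ 2 / τ) * (N / n) ^ 2 * N * p -
        (τ + (2 * c * B + 2 * B ^ 2 / τ) * (N / n)) * (N * p - u)) +
        ((c - s / τ) * ((N - 1) / n) * v -
        (2 * c * B + |lam| * B ^ 2 + 2 * B ^ 2 / τ) * (N / n) ^ 2 * N * q -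
        (τ + (2 * c * B + 2 * B ^ 2 / τ) * (N / n)) * (N * q - v)) := by
      have h4 : q = 1 - p := by linarith
      rw [h4]; ring
    have h5 : lam * ((N : ℝ) - (u + v)) = lam * (N * p - u) + lam * (N * q - v) := by
      have h4 : q = 1 - p := by linarith
      rw [h4]; ring
    rw [h3, h5]
    linarith

/-- mean values -/
theorem adm_mean {t : V → V → ℝ} {g : ℝ} {N m : ℕ} (p X cnd : Fin m → ℝ)
    (hp : ∀ i, 0 ≤ p i) (hp1 : ∑ i, p i = 1) (h : ∀ i, Adm t g N (X i) (cnd i)) :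
    Adm t g N (∑ i, p i * X i) (∑ i, p i * cnd i) := by
  have hm : ∀ f : Fin m → ℝ, ∀ u v : ℝ, (∀ i, u + v * cnd i ≤ f i) →
      u + v * (∑ i, p i * cnd i) ≤ ∑ i, p i * f i := by
    intro f u v hf
    have h1 : ∑ i, p i * (u + v * cnd i) ≤ ∑ i, p i * f i :=
      sum_le_sum fun i _ => mul_le_mul_of_nonneg_left (hf i) (hp i)
    refine le_trans (le_of_eq ?_) h1
    have h2 : ∀ i, p i * (u + v * cnd i) = u * p i + v * (p i * cnd i) := by intro i; ring
    simp_rw [h2]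
    rw [sum_add_distrib, ← mul_sum, ← mul_sum, hp1, mul_one]
  refine ⟨?_, ?_, ?_, ?_⟩
  · have h1 := hm X (g * N) (-g) (fun i => by have := (h i).gap; linarith)
    linarith
  · exact sum_nonneg fun i _ => mul_nonneg (hp i) (h i).nonneg
  · have h1 : ∑ i, p i * cnd i ≤ ∑ i, p i * (N : ℝ) :=
      sum_le_sum fun i _ => mul_le_mul_of_nonneg_left (h i).le (hp i)
    rw [← sum_mul, hp1, one_mul] at h1
    exact h1
  · intro lam c s B τ U E hl hB hτ hP
    set n : ℝ := (Fintype.card V : ℝ)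
    set α : ℝ := (c - s / τ) * ((N - 1) / n)
    set β : ℝ := (2 * c * B + |lam| * B ^ 2 + 2 * B ^ 2 / τ) * (N / n) ^ 2 * N * 1
    set γ : ℝ := (τ + (2 * c * B + 2 * B ^ 2 / τ) * (N / n))
    have h1 := hm X (-β - γ * N - lam * N) (α + γ + lam) (fun i => by
      have h2 := (h i).low lam c s B τ U E hl hB hτ hP
      have h3 : α * cnd i - β - γ * (N - cnd i) ≤ X i + lam * (N - cnd i) := h2
      linarith)
    have h4 : α * (∑ i, p i * cnd i) - β - γ * (N - ∑ i, p i * cnd i) ≤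
        ∑ i, p i * X i + lam * (N - ∑ i, p i * cnd i) := by linarith
    exact h4

/-- Gibbs states -/
theorem adm_gibbs {t : V → V → ℝ} {g : ℝ} {N m : ℕ} (hm : 0 < m) (e X cnd : Fin m → ℝ) (T : ℝ)
    (h : ∀ i, Adm t g N (X i) (cnd i)) : Adm t g N (gibbs e T X) (gibbs e T cnd) := by
  set Z : ℝ := ∑ i, Real.exp (-e i / T) with hZ
  have hZ0 : 0 < Z := by
    have : Nonempty (Fin m) := ⟨⟨0, hm⟩⟩
    exact sum_pos (fun i _ => Real.exp_pos _) univ_nonempty
  have h1 := adm_mean (fun i => Real.exp (-e i / T) / Z) X cnd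
    (fun i => div_nonneg (Real.exp_pos _).le hZ0.le)
    (by rw [← sum_div, ← hZ, div_self hZ0.ne']) h
  have h2 : ∀ q : Fin m → ℝ, gibbs e T q = ∑ i, Real.exp (-e i / T) / Z * q i := by
    intro q
    unfold gibbs
    rw [← hZ, sum_div]
    exact sum_congr rfl fun i _ => by ring
  rw [h2, h2]
  exact h1

/-- a real wave function as a state -/
lemma state_of_real {N : ℕ} {ψ : Finset V → ℝ} (h : Part N ψ) (h1 : ψ ⬝ᵥ ψ = 1) :
    IsState N (fun S => (ψ S : ℂ)) := by
  refine ⟨fun S hS => by simp only [h S hS]; simp, ?_⟩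
  rw [← h1]
  unfold dotProduct
  refine sum_congr rfl fun S _ => ?_
  rw [Complex.norm_real, Real.norm_eq_abs, sq_abs, sq]

lemma energy_of_real (t : V → V → ℝ) (ψ : Finset V → ℝ) :
    energyT t (fun S => (ψ S : ℂ)) = kin t ψ := by
  have h1 : rp (fun S => (ψ S : ℂ)) = ψ := by ext S; simp [rp]
  have h2 : ip (fun S => (ψ S : ℂ)) = 0 := by ext S; simp [ip]
  rw [energyT_eq, h1, h2]
  unfold kin
  simp [G_zero]

end Run7.h543.DEP
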