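import Pool.Agent.Run7.h543.DEP.Fin2

/-!
# The choice of the parameters
-/

set_option autoImplicit false
set_option linter.unusedSectionVars false

noncomputable section

namespace Run7.h543.DEP

open Finset Matrix Run7.h259.BEC

section
variable {V : Type} [Fintype V] [DecidableEq V]

lemma Profile.mono {t : V → V → ℝ} {lam c s B B' : ℝ} {U E : Matrix V V ℝ}
    (h : Profile t lam c s B U E) (hB : B ≤ B') : Profile t lam c s B' U E :=
  ⟨h.one, h.nonneg, h.le_one, h.symm, h.Esymm, h.Enonneg, fun x => (h.row x).trans hB,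
    fun x => (h.Erow x).trans hB, h.eq, h.sq, h.c0⟩

end

/-- the error of the lower bound -/
def e2 (D s τ B ρ Q : ℝ) : ℝ :=
  s / τ + (6 * D * B + B ^ 2 + 2 * B ^ 2 / τ) * ρ + (3 * D * ρ + τ + (6 * D * B + 2 * B ^ 2 / τ) * ρ) * Q

/-- the error of the upper bound -/
def e1 (D B ρ : ℝ) : ℝ := (8 * D * B + 16 * D * B ^ 2) * ρ

/-- the lower bound in every admissible pair -/
lemma adm_low {V : Type} [Fintype V] [DecidableEq V] {t : V → V → ℝ} {D g : ℝ} (hD : 0 < D)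
    {N : ℕ} (hN1 : 1 ≤ N) (hN : N ≤ Fintype.card V) {X cnd : ℝ} (hA : Adm t g N X cnd)
    (hg : 0 < g) {lam c s B τ Q ρ : ℝ}
    {U E : Matrix V V ℝ} (hl : -g ≤ lam) (hl1 : |lam| ≤ 1) (hB : 0 < B) (hτ : 0 < τ) (hs : 0 ≤ s)
    (hc : 0 < c) (hcD : c ≤ 3 * D) (hP : Profile t lam c s B U E)
    (hρ : ρ = N / Fintype.card V) (hQ : 0 ≤ Q) (hnp : N - cnd ≤ Q * (ρ * N)) :
    c * ((N - 1) / Fintype.card V * N) - e2 D s τ B ρ Q * (ρ * N) ≤ X + lam * (N - cnd) := by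
  have hV : Nonempty V := Fintype.card_pos_iff.1 (by omega)
  have hn : (0 : ℝ) < Fintype.card V := by exact_mod_cast Fintype.card_pos
  have hN1' : (1 : ℝ) ≤ N := by exact_mod_cast hN1
  have hρ0 : 0 ≤ ρ := by rw [hρ]; positivity
  have h1 := hA.low lam c s B τ U E hl hB hτ hP
  have hnp0 : 0 ≤ N - cnd := by linarith [hA.le]
  rw [← hρ] at h1
  have h2 := mean_low (c := c) (s := s) (τ := τ) (k := ((N : ℝ) - 1) / Fintype.card V)
    (N := N) (ρ := ρ) (cnd := cnd) (np := N - cnd) (X := X) (lam := lam) (Q := Q)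
    (M := (N - 1) / Fintype.card V * N) (r := ρ * N)
    (A₁ := 2 * c * B + |lam| * B ^ 2 + 2 * B ^ 2 / τ) (A₂ := 2 * c * B + 2 * B ^ 2 / τ)
    hc.le (by rw [hρ]; exact div_le_div_of_nonneg_right (by linarith) hn.le) rfl rfl (by ring)
    hA.le hA.nonneg hnp0 hnp hs hτ (by positivity) hρ0 h1
  refine le_trans ?_ h2
  have hr : 0 ≤ ρ * N := by positivity
  have h3 : 2 * c * B ≤ 6 * D * B := by
    have := mul_le_mul_of_nonneg_right hcD hB.le
    linarith
  have h4 : |lam| * B ^ 2 ≤ B ^ 2 := mul_le_of_le_one_left (sq_nonneg B) hl1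
  have h5 : s / τ + (2 * c * B + |lam| * B ^ 2 + 2 * B ^ 2 / τ) * ρ +
      (c * ρ + τ + (2 * c * B + 2 * B ^ 2 / τ) * ρ) * Q ≤ e2 D s τ B ρ Q := by
    unfold e2
    have f1 : (2 * c * B + |lam| * B ^ 2 + 2 * B ^ 2 / τ) * ρ ≤
        (6 * D * B + B ^ 2 + 2 * B ^ 2 / τ) * ρ :=
      mul_le_mul_of_nonneg_right (by linarith) hρ0
    have f2 : c * ρ ≤ 3 * D * ρ := mul_le_mul_of_nonneg_right hcD hρ0
    have f3 : (2 * c * B + 2 * B ^ 2 / τ) * ρ ≤ (6 * D * B + 2 * B ^ 2 / τ) * ρ :=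
      mul_le_mul_of_nonneg_right (by linarith) hρ0
    have f4 : (c * ρ + τ + (2 * c * B + 2 * B ^ 2 / τ) * ρ) * Q ≤
        (3 * D * ρ + τ + (6 * D * B + 2 * B ^ 2 / τ) * ρ) * Q :=
      mul_le_mul_of_nonneg_right (by linarith) hQ
    linarith
  have h6 := mul_le_mul_of_nonneg_right h5 hr
  linarith

/-- **The first-order law, for all admissible pairs.** -/
theorem core (hPRO : S_PRO) (hUPP : S_UPP) (hGRE : S_GRE) (D g ε : ℝ) (hD : 0 < D) (hg : 0 < g)
    (hε : 0 < ε) :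
    ∃ (K : ℕ) (ρ₀ δ : ℝ), 0 < ρ₀ ∧ 0 < δ ∧ ρ₀ ≤ 1 / 2 ∧
      ∀ (V : Type) [Fintype V] [DecidableEq V] (t : V → V → ℝ), IsHopping t D → HasGapT t g →
        Loc t K → ∀ N : ℕ, 1 ≤ N → (N : ℝ) ≤ ρ₀ * Fintype.card V →
        (∀ X cnd : ℝ, Adm t g N X cnd →
          1 / aa t * ((N - 1) / Fintype.card V * N) - ε * (N / Fintype.card V * N) ≤ X) ∧
        (∃ ψ : Finset V → ℝ, Part N ψ ∧ ψ ⬝ᵥ ψ = 1 ∧
          kin t ψ ≤ 1 / aa t * ((N - 1) / Fintype.card V * N) + ε * (N / Fintype.card V * N) ∧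
          ∀ X cnd : ℝ, Adm t g N X cnd → X ≤ kin t ψ + δ * (N / Fintype.card V * N) →
            |(N - cnd) - bb t / aa t ^ 2 * ((N - 1) / Fintype.card V * N)| ≤
              ε * (N / Fintype.card V * N)) := by
  -- the parameters
  have hC := C1_pos hD hg
  set Q : ℝ := (2 * D + 1) / g with hQ
  have hQ0 : 0 < Q := by positivity
  obtain ⟨l, hl0, hl1, hlg, hlD, hlC⟩ : ∃ l : ℝ, 0 < l ∧ l ≤ 1 ∧ l ≤ g / 2 ∧ l ≤ D ∧
      C1 D g * l ≤ ε / 2 := by
    refine ⟨min (min 1 (g / 2)) (min D (ε / 2 / C1 D g)), ?_, ?_, ?_, ?_, ?_⟩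
    · positivity
    · exact (min_le_left _ _).trans (min_le_left _ _)
    · exact (min_le_left _ _).trans (min_le_right _ _)
    · exact (min_le_right _ _).trans (min_le_left _ _)
    · have h1 : min (min 1 (g / 2)) (min D (ε / 2 / C1 D g)) ≤ ε / 2 / C1 D g :=
        (min_le_right _ _).trans (min_le_right _ _)
      rw [le_div_iff₀ hC] at h1
      linarith
  obtain ⟨τ, hτ0, hτ⟩ : ∃ τ : ℝ, 0 < τ ∧ τ * Q ≤ ε * l / 8 := by
    refine ⟨ε * l / 8 / Q, by positivity, ?_⟩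
    rw [div_mul_cancel₀ _ hQ0.ne']
  obtain ⟨s, hs0, hsl, hs4, hsτ, hsε⟩ : ∃ s : ℝ, 0 < s ∧ s ≤ l ^ 2 ∧ s ≤ 1 / (4 * D) ∧
      s / τ ≤ ε * l / 8 ∧ 8 * D ^ 2 * s ≤ ε / 2 := by
    refine ⟨min (min (l ^ 2) (1 / (4 * D))) (min (ε * l / 8 * τ) (ε / 2 / (8 * D ^ 2))),
      ?_, ?_, ?_, ?_, ?_⟩
    · positivity
    · exact (min_le_left _ _).trans (min_le_left _ _)
    · exact (min_le_left _ _).trans (min_le_right _ _)
    · rw [div_le_iff₀ hτ0]
      exact (min_le_right _ _).trans (min_le_left _ _)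
    · have h1 : min (min (l ^ 2) (1 / (4 * D))) (min (ε * l / 8 * τ) (ε / 2 / (8 * D ^ 2))) ≤
        ε / 2 / (8 * D ^ 2) := (min_le_right _ _).trans (min_le_right _ _)
      rw [le_div_iff₀ (by positivity)] at h1
      linarith
  obtain ⟨m0, n0, B0, hB0, h0⟩ := hPRO D g hD hg 0 (by rw [abs_zero]; positivity) s hs0
  obtain ⟨mp, np, Bp, hBp, hp⟩ := hPRO D g hD hg l (by rw [abs_of_pos hl0]; exact hlg) s hs0
  obtain ⟨mm, nm, Bm, hBm, hm⟩ := hPRO D g hD hg (-l)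
    (by rw [abs_neg, abs_of_pos hl0]; exact hlg) s hs0
  set B : ℝ := max B0 (max Bp Bm) with hB
  have hBpos : 0 < B := lt_of_lt_of_le hB0 (le_max_left _ _)
  have hBB0 : B0 ≤ B := le_max_left _ _
  have hBBp : Bp ≤ B := (le_max_left _ _).trans (le_max_right _ _)
  have hBBm : Bm ≤ B := (le_max_right _ _).trans (le_max_right _ _)
  set A : ℝ := (6 * D * B + B ^ 2 + 2 * B ^ 2 / τ) + (3 * D + (6 * D * B + 2 * B ^ 2 / τ)) * Q +
    (8 * D * B + 16 * D * B ^ 2) with hA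
  have hA0 : 0 < A := by positivity
  obtain ⟨ρ₀, hρ₀0, hρ₀1, hρ₀B, hρ₀A, hρ₀A', hρ₀n⟩ : ∃ ρ₀ : ℝ, 0 < ρ₀ ∧ ρ₀ ≤ 1 / 2 ∧
      4 * B * ρ₀ ≤ 1 ∧ A * ρ₀ ≤ ε * l / 8 ∧ A * ρ₀ ≤ 1 / 2 ∧
      ((max n0 (max np nm) : ℕ) : ℝ) * ρ₀ ≤ 1 := by
    set n1 : ℝ := ((max n0 (max np nm) : ℕ) : ℝ) with hn1
    have hn1' : 0 ≤ n1 := Nat.cast_nonneg _
    refine ⟨min (min (1 / 2) (1 / (4 * B))) (min (min (ε * l / 8 / A) (1 / 2 / A))
      (1 / (n1 + 1))), by positivity, ?_, ?_, ?_, ?_, ?_⟩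
    · exact (min_le_left _ _).trans (min_le_left _ _)
    · have h1 : min (min (1 / 2) (1 / (4 * B))) (min (min (ε * l / 8 / A) (1 / 2 / A))
        (1 / (n1 + 1))) ≤ 1 / (4 * B) := (min_le_left _ _).trans (min_le_right _ _)
      rw [le_div_iff₀ (by positivity)] at h1
      linarith
    · have h1 : min (min (1 / 2) (1 / (4 * B))) (min (min (ε * l / 8 / A) (1 / 2 / A))
        (1 / (n1 + 1))) ≤ ε * l / 8 / A :=
        (min_le_right _ _).trans ((min_le_left _ _).trans (min_le_left _ _))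
      rw [le_div_iff₀ hA0] at h1
      linarith
    · have h1 : min (min (1 / 2) (1 / (4 * B))) (min (min (ε * l / 8 / A) (1 / 2 / A))
        (1 / (n1 + 1))) ≤ 1 / 2 / A :=
        (min_le_right _ _).trans ((min_le_left _ _).trans (min_le_right _ _))
      rw [le_div_iff₀ hA0] at h1
      linarith
    · have h1 : min (min (1 / 2) (1 / (4 * B))) (min (min (ε * l / 8 / A) (1 / 2 / A))
        (1 / (n1 + 1))) ≤ 1 / (n1 + 1) := (min_le_right _ _).trans (min_le_right _ _)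
      have h2 := mul_le_mul_of_nonneg_left h1 hn1'
      refine h2.trans ?_
      rw [mul_one_div, div_le_one (by positivity)]
      linarith
  set δ : ℝ := min (ε * l / 8) (1 / 2) with hδ
  have hδ0 : 0 < δ := by positivity
  have hδ1 : δ ≤ ε * l / 8 := min_le_left _ _
  have hδ2 : δ ≤ 1 / 2 := min_le_right _ _
  refine ⟨max m0 (max mp mm), ρ₀, δ, hρ₀0, hδ0, hρ₀1, ?_⟩
  intro V _ _ t ht hgap hloc N hN1 hNρ
  -- the size of the volume
  have hN1' : (1 : ℝ) ≤ N := by exact_mod_cast hN1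
  have hnpos : (0 : ℝ) < Fintype.card V := by
    by_contra hcon
    have h1 : (Fintype.card V : ℝ) = 0 := le_antisymm (not_lt.1 hcon) (Nat.cast_nonneg _)
    rw [h1, mul_zero] at hNρ
    linarith
  have hcard : max n0 (max np nm) ≤ Fintype.card V := by
    have h1 : ((max n0 (max np nm) : ℕ) : ℝ) ≤ Fintype.card V := by
      have h2 : (1 : ℝ) ≤ ρ₀ * Fintype.card V := hN1'.trans hNρ
      have h3 : ((max n0 (max np nm) : ℕ) : ℝ) * ρ₀ ≤ (Fintype.card V : ℝ) * ρ₀ := by linarith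
      exact le_of_mul_le_mul_right h3 hρ₀0
    exact_mod_cast h1
  have hNn : N ≤ Fintype.card V := by
    have h1 : (N : ℝ) ≤ Fintype.card V := hNρ.trans (mul_le_of_le_one_left hnpos.le (by linarith))
    exact_mod_cast h1
  have hcard1 : 1 ≤ Fintype.card V := hN1.trans hNn
  set ρ : ℝ := N / Fintype.card V with hρ
  have hρ0 : 0 ≤ ρ := by positivity
  have hρρ₀ : ρ ≤ ρ₀ := by rw [hρ, div_le_iff₀ hnpos]; exact hNρ
  obtain ⟨c₀, U₀, E₀, hc₀, hc₀D, hP₀, ha₀⟩ := h0 V t (le_trans (le_max_left _ _) hcard) ht hgap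
    (fun k hk => hloc k (hk.trans (le_max_left _ _)))
  obtain ⟨cp, Up, Ep, hcp, hcpD, hPp, hap⟩ := hp V t
    (le_trans ((le_max_left _ _).trans (le_max_right _ _)) hcard) ht hgap
    (fun k hk => hloc k (hk.trans ((le_max_left _ _).trans (le_max_right _ _))))
  obtain ⟨cm, Um, Em, hcm, hcmD, hPm, ham⟩ := hm V t
    (le_trans ((le_max_right _ _).trans (le_max_right _ _)) hcard) ht hgap
    (fun k hk => hloc k (hk.trans ((le_max_right _ _).trans (le_max_right _ _))))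
  obtain ⟨-, -, -, -, -, -, -, -, hb0, hb1⟩ := hGRE V t D g hD hg hcard1 ht hgap
  have hc₀D' : c₀ ≤ 2 * D := by linarith
  have ha₀' : |1 / c₀ - aa t| ≤ s := by
    have e : 2 * (0 : ℝ) ^ 2 / g ^ 3 + s = s := by simp
    have e' : aa t - 0 * bb t = aa t := by ring
    rw [e, e'] at ha₀
    exact ha₀
  have hdp := deriv_est hD hg hc₀ hcp hc₀D' (by linarith) hb0 hb1 hl0 hl1 (abs_of_pos hl0) hs0.le
    hsl hs4 ha₀' hap
  have hdm := deriv_est hD hg hc₀ hcm hc₀D' (by linarith) hb0 hb1 hl0 hl1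
    (by rw [abs_neg, abs_of_pos hl0]) hs0.le hsl hs4 ha₀' ham
  have ha4 := a_ge hD hc₀ hc₀D' hs4 ha₀'
  have ha : 0 < aa t := lt_of_lt_of_le (by positivity) ha4
  -- c₀ and 1 / aa
  have hcinv : |c₀ - 1 / aa t| ≤ ε / 2 := by
    have hinva : 1 / aa t ≤ 4 * D := by
      rw [div_le_iff₀ ha]
      have := mul_le_mul_of_nonneg_left ha4 (by positivity : (0 : ℝ) ≤ 4 * D)
      rw [mul_one_div, div_self (by positivity)] at this
      exact this
    have h1 := near_inv (M := 2 * D * (4 * D)) ha hc₀ (by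
      rw [div_eq_mul_one_div]
      exact mul_le_mul hc₀D' hinva (by positivity) (by positivity)) ha₀'
    refine h1.trans ?_
    have : 2 * D * (4 * D) * s = 8 * D ^ 2 * s := by ring
    rw [this]; exact hsε
  set M : ℝ := (N - 1) / Fintype.card V * N with hM
  set r : ℝ := ρ * N with hr
  have hr0 : 0 ≤ r := by positivity
  have hM0 : 0 ≤ M := by
    rw [hM]
    exact mul_nonneg (div_nonneg (by linarith) hnpos.le) (by linarith)
  have hMr : M ≤ r := by
    rw [hM, hr]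
    refine mul_le_mul_of_nonneg_right ?_ (by linarith)
    exact div_le_div_of_nonneg_right (by linarith) hnpos.le
  -- the errors
  have hsmall : e2 D s τ B ρ Q + e1 D B ρ ≤ ε * l / 8 + ε * l / 8 + ε * l / 8 := by
    have h1 : e2 D s τ B ρ Q + e1 D B ρ = s / τ + τ * Q + A * ρ := by
      unfold e2 e1; rw [hA]; ring
    rw [h1]
    have h2 : A * ρ ≤ A * ρ₀ := mul_le_mul_of_nonneg_left hρρ₀ hA0.le
    linarith
  have he1 : e1 D B ρ ≤ 1 / 2 := by
    have h1 : e1 D B ρ ≤ A * ρ := by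
      unfold e1
      refine mul_le_mul_of_nonneg_right ?_ hρ0
      rw [hA]
      have : 0 ≤ (6 * D * B + B ^ 2 + 2 * B ^ 2 / τ) +
        (3 * D + (6 * D * B + 2 * B ^ 2 / τ)) * Q := by positivity
      linarith
    have h2 : A * ρ ≤ A * ρ₀ := mul_le_mul_of_nonneg_left hρρ₀ hA0.le
    linarith
  have he10 : 0 ≤ e1 D B ρ := by unfold e1; positivity
  have he20 : 0 ≤ e2 D s τ B ρ Q := by unfold e2; positivity
  -- the trial state
  obtain ⟨ψ, hψN, hψ1, hψ⟩ := hUPP V t D c₀ s B U₀ E₀ hD hBpos ht (hP₀.mono hBB0) N hN1 (by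
    have h1 : 4 * B * N ≤ 4 * B * (ρ₀ * Fintype.card V) :=
      mul_le_mul_of_nonneg_left hNρ (by positivity)
    have h2 : 4 * B * (ρ₀ * Fintype.card V) = 4 * B * ρ₀ * Fintype.card V := by ring
    rw [h2] at h1
    exact h1.trans (mul_le_of_le_one_left hnpos.le hρ₀B))
  have hkin : kin t ψ ≤ c₀ * M + e1 D B ρ * r := by
    refine hψ.trans ?_
    rw [← hρ]
    have h1 : c₀ * (N - 1) * ρ * (1 + 4 * B * ρ) + 16 * D * B ^ 2 * ρ ^ 2 * N =
        c₀ * M + 4 * c₀ * B * ρ * M + 16 * D * B ^ 2 * ρ * r := by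
      rw [hM, hr, hρ]; field_simp
    rw [h1]
    have h2 : 4 * c₀ * B * ρ * M ≤ 8 * D * B * ρ * r := by
      refine mul_le_mul ?_ hMr hM0 (by positivity)
      refine mul_le_mul_of_nonneg_right (mul_le_mul_of_nonneg_right ?_ hBpos.le) hρ0
      linarith
    have h3 : e1 D B ρ * r = 8 * D * B * ρ * r + 16 * D * B ^ 2 * ρ * r := by
      unfold e1; ring
    linarith
  have hinvM : |c₀ * M - 1 / aa t * M| ≤ ε / 2 * r := by
    rw [← sub_mul, abs_mul, abs_of_nonneg hM0]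
    exact mul_le_mul hcinv hMr hM0 (by positivity)
  have hεl : ε * l / 8 ≤ ε / 8 := by
    have := mul_le_of_le_one_right hε.le hl1
    linarith
  -- bound for the number of particles outside
  have hout : ∀ X cnd : ℝ, Adm t g N X cnd → X ≤ c₀ * M + r → N - cnd ≤ Q * r := by
    intro X cnd hAdm hX
    have h1 := hAdm.gap
    have h2 : c₀ * M ≤ 2 * D * r := mul_le_mul hc₀D' hMr hM0 (by positivity)
    rw [hQ, div_mul_eq_mul_div, le_div_iff₀ hg]
    linarith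
  refine ⟨?_, ψ, hψN, hψ1, ?_, ?_⟩
  · intro X cnd hAdm
    have hX : c₀ * M - e2 D s τ B ρ Q * r ≤ X := by
      rcases le_total X (c₀ * M + r) with h | h
      · have h1 := adm_low (lam := 0) hD hN1 hNn hAdm hg (by linarith) (by simp) hBpos hτ0 hs0.le
          hc₀ (by linarith) (hP₀.mono hBB0) hρ hQ0.le (hout X cnd hAdm h)
        rw [zero_mul, add_zero] at h1
        exact h1
      · have : 0 ≤ e2 D s τ B ρ Q * r := mul_nonneg he20 hr0
        linarith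
    have h1 := (abs_le.1 hinvM).1
    have h2 : e2 D s τ B ρ Q * r ≤ ε / 2 * r := by
      refine mul_le_mul_of_nonneg_right ?_ hr0
      linarith
    linarith
  · have h1 := (abs_le.1 hinvM).2
    have h2 : e1 D B ρ * r ≤ ε / 2 * r := by
      refine mul_le_mul_of_nonneg_right ?_ hr0
      linarith
    linarith
  · intro X cnd hAdm hX
    have hX1 : X ≤ c₀ * M + (e1 D B ρ + δ) * r := by
      rw [add_mul]; linarith
    have hX2 : X ≤ c₀ * M + r := by
      have h3 : (e1 D B ρ + δ) * r ≤ 1 * r := mul_le_mul_of_nonneg_right (by linarith) hr0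
      linarith
    have hnp := hout X cnd hAdm hX2
    have hlp := adm_low (lam := l) hD hN1 hNn hAdm hg (by linarith)
      (by rw [abs_of_pos hl0]; exact hl1) hBpos hτ0 hs0.le hcp (by linarith) (hPp.mono hBBp) hρ
      hQ0.le hnp
    have hlm := adm_low (lam := -l) hD hN1 hNn hAdm hg (by linarith)
      (by rw [abs_neg, abs_of_pos hl0]; exact hl1) hBpos hτ0 hs0.le hcm (by linarith)
      (hPm.mono hBBm) hρ hQ0.le hnp
    refine two_signs (c₀ := c₀) (e₁ := e1 D B ρ + δ) hl0 hM0 hMr hr0 hX1 hlp hlm hdp hdm hlC ?_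
    linarith

end Run7.h543.DEP
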