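import Pool.Agent.Run7.h543.DEP.Stm

/-!
# Project DEP, second part of the interface: regular graphs which are trees in balls

For `D`-regular graphs whose balls of radius `R` are trees the two constants of the theorem are
explicit: `n / tr G → D (D - 2) / (D - 1)` and `κ → 1 + D / ((D - 1) (D - 2))`.
-/

set_option autoImplicit false
set_option linter.unusedSectionVars false

noncomputable section

namespace Run7.h543.DEP

open Finset Matrix Run7.h259.BEC

section defs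
variable {V : Type} [Fintype V] [DecidableEq V]

/-- a connected `D`-regular graph whose balls of radius `R` are trees: a site `y` at a distance
`1 ≤ dist x y ≤ R` of `x` has exactly one neighbour which is not farther from `x` than `y` -/
structure IsTreelike (Gr : SimpleGraph V) [DecidableRel Gr.Adj] (D R : ℕ) : Prop where
  conn : Gr.Connected
  reg : ∀ x, (univ.filter fun y => Gr.Adj x y).card = D
  tree : ∀ x y, 0 < Gr.dist x y → Gr.dist x y ≤ R →
    (univ.filter fun z => Gr.Adj y z ∧ Gr.dist x z ≤ Gr.dist x y).card = 1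

/-- the hopping amplitudes of a graph -/
def adjT (Gr : SimpleGraph V) [DecidableRel Gr.Adj] : V → V → ℝ :=
  fun x y => if Gr.Adj x y then 1 else 0

end defs

/-- **RAD** (no hypotheses).  Let `d = dist x y`.  The neighbours `z` of `y` have
`dist x z ∈ {d - 1, d, d + 1}`; for `1 ≤ d ≤ R` some neighbour has distance `d - 1` (shortest
walk), so it is the only one of distance `≤ d`, and the other `D - 1` neighbours have distance
`d + 1`; for `d = 0` (`y = x`, connected) all `D` neighbours have distance `1`. -/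
def S_RAD : Prop := ∀ (V : Type) [Fintype V] [DecidableEq V] (Gr : SimpleGraph V)
  [DecidableRel Gr.Adj] (D R : ℕ), 1 ≤ D → IsTreelike Gr D R →
  ∀ (x y : V) (r : ℕ), r < R →
    (univ.filter fun z => Gr.Adj y z ∧ Gr.dist x z = r).card =
      (if Gr.dist x y = r + 1 then 1 else 0) +
      (if Gr.dist x y + 1 = r then (if r = 1 then D else D - 1) else 0)

/-- **SPH** (from RAD).  The spheres.  Double counting of the adjacent pairs `(y, z)` with
`dist x y = r`, `dist x z = r + 1`: every `z` has one such neighbour, every `y` has `D - 1` (`D` if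
`r = 0`). -/
def S_SPH : Prop := ∀ (V : Type) [Fintype V] [DecidableEq V] (Gr : SimpleGraph V)
  [DecidableRel Gr.Adj] (D R : ℕ), 1 ≤ D → IsTreelike Gr D R →
  ∀ (x : V) (r : ℕ), r < R →
    (univ.filter fun y => Gr.dist x y = r + 1).card = D * (D - 1) ^ r

/-- **TLO** (from RAD).  `lap (adjT Gr) = D - A`.  By induction on `k < R`:
`(lap ^ k) x y = f k (dist x y)` where the function `f k : ℕ → ℝ` depends only on `k` and `D`, and
vanishes beyond `k` (`f 0 = indicator of 0`,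
`(L^(k+1)) x y = D f_k(dist x y) - ∑_{r ≤ k} f_k(r) card {z : z ~ y, dist x z = r}` and RAD). -/
def S_TLO : Prop := ∀ (V : Type) [Fintype V] [DecidableEq V] (Gr : SimpleGraph V)
  [DecidableRel Gr.Adj] (D R : ℕ), 1 ≤ D → IsTreelike Gr D R → ∀ K : ℕ, K < R → Loc (adjT Gr) K

/-- **TCO** (from RAD, SPH, GRE).  The constants.

Proof.  Let `lam ≥ 0`, `α ∈ (0, 1/(D-1)]` the smaller root of `(D-1) α² - (D+lam) α + 1 = 0`,
`c = D + lam - D α` (`≥ D - D/(D-1) > 0`), `r = dist x y`, `S = R - 2`,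
`U x y = α^r` for `r ≤ S`, `0` else.  By RAD
`(L + lam) U = c δ - E`, `E x y = α^S` for `r = S+1`, `-(D-1) α^(S+1)` for `r = S`, `0` else (sum over
the neighbours of `y`; `α^r (D+lam) = α^(r-1) + (D-1) α^(r+1)`).  Sizes of the spheres:
`∑_y |E x y| ≤ 2 D` (as `(D-1) α ≤ 1`), `∑_y E x y² ≤ 2 D ((D-1) α²)^S ≤ 2 D (1/(D-1))^S → 0`,
constant row sums `B ≤ 2 D (S+1)` of `U`.  Let `G = green`: `G L = 1 - J`.  Multiply by `G`, and
again:  `(1 - J) U + lam G U = c G - G E`, `G U + lam G² U = c G² - G² E`; traces over `n`: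
`1 - B/n + lam c bb - lam tr(G² E)/n - lam² tr(G² U)/n = c aa - tr(G E)/n`.  Bounds:
`|tr(G E)|/n ≤ max_x ‖G δ_x‖ ‖E δ_x‖ ≤ (1/g) √(2D (1/(D-1))^S)`; `|tr(G² E)|/n` the same over `g`
(`tr (G² E) = ∑_x ⟨G (G δ_x), E δ_x⟩`, `‖G f‖ ≤ ‖f‖ / g`); and `‖U f‖ ≤ ‖(L+lam) U f‖/g = ‖c f - E f‖/g
≤ (c + 2 D) ‖f‖ / g` for `f = G δ_x ⟂ 1` (`U f ⟂ 1`; Schur test for `E`), so
`|tr(G² U)|/n ≤ (c + 2D)/g³`.  Hence `|1/c - (aa - lam bb)| ≤ C lam² + o(1)` (`R → ∞`, then `n → ∞`),
`C` independent of `lam ∈ [0,1]`.  `lam = 0`: `α = 1/(D-1)`, `1/c = (D-1)/(D(D-2))`.  Then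
`bb = (aa - 1/c_lam)/lam + O(lam) + o(1)/lam`, and `(1/c_0 - 1/c_lam)/lam = c_0⁻¹ c_lam⁻¹ (c_lam - c_0)/lam`,
`(c_lam - c_0)/lam = 1 + D (α_0 - α_lam)/lam → 1 + D/((D-1)(D-2))`
(`α_0 - α_lam = lam α_lam / ((D-1)(1/(D-1) - α_lam) + D - 2 ..)`: subtract the two equations,
`(α_0 - α_lam) (D - (D-1)(α_0 + α_lam)) = lam α_lam`). -/
def S_TCO : Prop := ∀ (D : ℕ) (g ε : ℝ), 3 ≤ D → 0 < g → 0 < ε → ∃ (R n₀ : ℕ),
  ∀ (V : Type) [Fintype V] [DecidableEq V] (Gr : SimpleGraph V) [DecidableRel Gr.Adj],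
    n₀ ≤ Fintype.card V → IsTreelike Gr D R → HasGapT (adjT Gr) g →
    |aa (adjT Gr) - ((D : ℝ) - 1) / (D * (D - 2))| ≤ ε ∧
    |bb (adjT Gr) - (((D : ℝ) - 1) / (D * (D - 2))) ^ 2 * (1 + D / ((D - 1) * (D - 2)))| ≤ ε

end Run7.h543.DEP
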