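import Pool.Agent.Run7.h543.DEP.Fin3
import Pool.Agent.Run7.h543.DEP.Stm2

/-!
# The first-order law
-/

set_option autoImplicit false
set_option linter.unusedSectionVars false

noncomputable section

namespace Run7.h543.DEP

open Finset Matrix Run7.h259.BEC

section
variable {V : Type} [Fintype V] [DecidableEq V]

/-- the number of particles in the condensate in the Gibbs state at the temperature `T` -/
def gibbsCond {m : ℕ} (b : Fin m → Finset V → ℂ) (e : Fin m → ℝ) (T : ℝ) : ℝ :=
  gibbs e T (fun i => condensate (b i))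

/-- **The first-order law** for `N` hard-core bosons on `n` sites with the coefficients `c` of the
energy and `κ` of the depletion, up to `ε N ^ 2 / n`: (1) the ground energy is `c N (N - 1) / n`,
(2) in every state whose energy is at most `δ N ^ 2 / n` above the ground energy there are
`κ N (N - 1) / n` particles outside of the condensate, (3) the same in the canonical Gibbs state at
every temperature `T` with `T (1 + log (n / N)) ≤ δ N / n` -/
def FirstOrderLaw (t : V → V → ℝ) (N : ℕ) (c κ ε δ : ℝ) : Prop :=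
  (∀ ψ : Finset V → ℂ, IsState N ψ →
    c * (N * (N - 1) / Fintype.card V) - ε * (N ^ 2 / Fintype.card V) ≤ energyT t ψ) ∧
  (∃ ψ : Finset V → ℂ, IsState N ψ ∧
    energyT t ψ ≤ c * (N * (N - 1) / Fintype.card V) + ε * (N ^ 2 / Fintype.card V)) ∧
  (∀ ψ : Finset V → ℂ, IsState N ψ →
    (∀ φ : Finset V → ℂ, IsState N φ →
      energyT t ψ ≤ energyT t φ + δ * (N ^ 2 / Fintype.card V)) →
    |(N - condensate ψ) - κ * (N * (N - 1) / Fintype.card V)| ≤ ε * (N ^ 2 / Fintype.card V)) ∧
  (∀ T : ℝ, 0 < T → T * (1 + Real.log (Fintype.card V / N)) ≤ δ * (N / Fintype.card V) →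
    ∀ (m : ℕ) (b : Fin m → Finset V → ℂ) (e : Fin m → ℝ), IsSpec (energyT t) N b e →
    |(N - gibbsCond b e T) - κ * (N * (N - 1) / Fintype.card V)| ≤
      ε * (N ^ 2 / Fintype.card V))

/-- a permutation of the sites which leaves the hopping amplitudes invariant maps any site to any
other one -/
def IsTransitive (t : V → V → ℝ) : Prop :=
  ∀ x y, ∃ σ : Equiv.Perm V, σ x = y ∧ ∀ u v, t (σ u) (σ v) = t u v

lemma IsTransitive.loc {t : V → V → ℝ} (h : IsTransitive t) (K : ℕ) : Loc t K := by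
  intro k _ x y
  obtain ⟨σ, hσ, ht⟩ := h x y
  have h1 : ∀ u v, lap t (σ u) (σ v) = lap t u v := by
    intro u v
    unfold lap
    have h2 : ∑ z, t (σ u) z = ∑ z, t u z := by
      rw [← Equiv.sum_comp σ]
      exact sum_congr rfl fun z _ => ht u z
    rw [h2, ht]
    simp [σ.injective.eq_iff]
  have h3 : ∀ k : ℕ, ∀ u v, (lap t ^ k) (σ u) (σ v) = (lap t ^ k) u v := by
    intro k
    induction k with
    | zero => intro u v; simp [Matrix.one_apply, σ.injective.eq_iff]
    | succ k ih =>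
      intro u v
      rw [pow_succ, Matrix.mul_apply, Matrix.mul_apply, ← Equiv.sum_comp σ]
      exact sum_congr rfl fun z _ => by rw [ih, h1]
  rw [← hσ, h3]

/-- the law with other coefficients -/
lemma FirstOrderLaw.change {t : V → V → ℝ} {N : ℕ} {c κ ε δ c' κ' ε' : ℝ} (hN1 : 1 ≤ N)
    (h : FirstOrderLaw t N c κ ε δ) (hc : |c - c'| ≤ ε' - ε) (hκ : |κ - κ'| ≤ ε' - ε) :
    FirstOrderLaw t N c' κ' ε' δ := by
  obtain ⟨h1, h2, h3, h4⟩ := h
  have hN1' : (1 : ℝ) ≤ N := by exact_mod_cast hN1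
  set M : ℝ := N * (N - 1) / Fintype.card V with hM
  set r : ℝ := N ^ 2 / Fintype.card V with hr
  have hM0 : 0 ≤ M := div_nonneg (mul_nonneg (by linarith) (by linarith)) (Nat.cast_nonneg _)
  have hMr : M ≤ r := by
    refine div_le_div_of_nonneg_right ?_ (Nat.cast_nonneg _)
    rw [sq]
    exact mul_le_mul_of_nonneg_left (by linarith) (by linarith)
  have hch : ∀ a b : ℝ, |a - b| ≤ ε' - ε → |a * M - b * M| ≤ (ε' - ε) * r := by
    intro a b hab
    rw [← sub_mul, abs_mul, abs_of_nonneg hM0]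
    exact mul_le_mul hab hMr hM0 ((abs_nonneg _).trans hab)
  have hcM := abs_le.1 (hch c c' hc)
  have hκM := abs_le.1 (hch κ κ' hκ)
  refine ⟨?_, ?_, ?_, ?_⟩
  · intro ψ hψ
    have := h1 ψ hψ
    linarith [hcM.1]
  · obtain ⟨ψ, hψ, hψ2⟩ := h2
    exact ⟨ψ, hψ, by linarith [hcM.2]⟩
  · intro ψ hψ hmin
    have := abs_le.1 (h3 ψ hψ hmin)
    rw [abs_le]
    constructor <;> linarith [hκM.1, hκM.2, this.1, this.2]
  · intro T hT hT' m b e hb
    have := abs_le.1 (h4 T hT hT' m b e hb)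
    rw [abs_le]
    constructor <;> linarith [hκM.1, hκM.2, this.1, this.2]

end

/-- **The general theorem.** -/
theorem general (hPRO : S_PRO) (hUPP : S_UPP) (hGRE : S_GRE) (hGIB : S_GIB) (D g ε : ℝ)
    (hD : 0 < D) (hg : 0 < g) (hε : 0 < ε) :
    ∃ (K : ℕ) (ρ₀ δ : ℝ), 0 < ρ₀ ∧ 0 < δ ∧
      ∀ (V : Type) [Fintype V] [DecidableEq V] (t : V → V → ℝ), IsHopping t D → HasGapT t g →
        Loc t K → ∀ N : ℕ, 1 ≤ N → (N : ℝ) ≤ ρ₀ * Fintype.card V →
        FirstOrderLaw t N (1 / aa t) (bb t / aa t ^ 2) ε δ := by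
  obtain ⟨K, ρ₀, δ, hρ₀, hδ, hρ₀1, h⟩ := core hPRO hUPP hGRE D g ε hD hg hε
  refine ⟨K, ρ₀, δ, hρ₀, hδ, fun V _ _ t ht hgap hloc N hN1 hN => ?_⟩
  obtain ⟨hlow, ψ₀, hψN, hψ1, hup, hdep⟩ := h V t ht hgap hloc N hN1 hN
  have hN1' : (1 : ℝ) ≤ N := by exact_mod_cast hN1
  have hnpos : (0 : ℝ) < Fintype.card V := by
    by_contra hcon
    have h1 : (Fintype.card V : ℝ) = 0 := le_antisymm (not_lt.1 hcon) (Nat.cast_nonneg _)
    rw [h1, mul_zero] at hN
    linarith
  have hNn : N ≤ Fintype.card V := by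
    have h1 : (N : ℝ) ≤ Fintype.card V := hN.trans (mul_le_of_le_one_left hnpos.le (by linarith))
    exact_mod_cast h1
  have eM : ((N : ℝ) - 1) / Fintype.card V * N = N * (N - 1) / Fintype.card V := by
    field_simp
  have er : (N : ℝ) / Fintype.card V * N = N ^ 2 / Fintype.card V := by ring
  rw [eM, er] at hup
  simp only [eM, er] at hlow hdep
  refine ⟨?_, ?_, ?_, ?_⟩
  · intro ψ hψ
    exact hlow _ _ (adm_state hD hg ht hgap hN1 hNn hψ)
  · exact ⟨_, state_of_real hψN hψ1, by rw [energy_of_real]; exact hup⟩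
  · intro ψ hψ hmin
    refine hdep _ _ (adm_state hD hg ht hgap hN1 hNn hψ) ?_
    have := hmin _ (state_of_real hψN hψ1)
    rw [energy_of_real] at this
    exact this
  · intro T hT hT' m b e hb
    obtain ⟨hm, he, hmean⟩ := hGIB V (energyT t) N hN1 hNn _ (state_of_real hψN hψ1) T hT m b e hb
    rw [energy_of_real] at hmean
    have hA := adm_gibbs (t := t) (g := g) (N := N) hm e e (fun i => condensate (b i)) T
      (fun i => by
        have := adm_state hD hg ht hgap hN1 hNn (hb.state i)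
        rw [he i] at this
        exact this)
    refine hdep _ _ hA (hmean.trans ?_)
    have h1 := mul_le_mul_of_nonneg_right hT' (by linarith : (0 : ℝ) ≤ N)
    have h2 : δ * (N / Fintype.card V) * N = δ * (N ^ 2 / Fintype.card V) := by ring
    linarith

end Run7.h543.DEP
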