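import Pool.Agent.Run7.h543.DEP.Fin4

/-!
# Regular graphs which are trees in balls
-/

set_option autoImplicit false
set_option linter.unusedSectionVars false

noncomputable section

namespace Run7.h543.DEP

open Finset Matrix Run7.h259.BEC

lemma IsTreelike.mono {V : Type} [Fintype V] [DecidableEq V] {Gr : SimpleGraph V}
    [DecidableRel Gr.Adj] {D R R' : ℕ} (h : IsTreelike Gr D R) (hR : R' ≤ R) :
    IsTreelike Gr D R' :=
  ⟨h.conn, h.reg, fun x y h1 h2 => h.tree x y h1 (h2.trans hR)⟩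

lemma IsTreelike.hopping {V : Type} [Fintype V] [DecidableEq V] {Gr : SimpleGraph V}
    [DecidableRel Gr.Adj] {D R : ℕ} (h : IsTreelike Gr D R) : IsHopping (adjT Gr) D := by
  refine ⟨fun x y => ?_, fun x y => ?_, fun x => ?_⟩
  · unfold adjT
    by_cases hxy : Gr.Adj x y
    · rw [if_pos hxy, if_pos hxy.symm]
    · rw [if_neg hxy, if_neg fun h' => hxy h'.symm]
  · unfold adjT; split_ifs <;> norm_num
  · unfold adjT
    rw [← sum_filter, sum_const, nsmul_eq_mul, mul_one, h.reg x]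

/-- continuity of the two coefficients -/
lemma coef_cont {a₀ b₀ ε : ℝ} (ha : 0 < a₀) (hε : 0 < ε) :
    ∃ η : ℝ, 0 < η ∧ ∀ a b : ℝ, |a - a₀| ≤ η → |b - b₀| ≤ η →
      |1 / a - 1 / a₀| ≤ ε ∧ |b / a ^ 2 - b₀ / a₀ ^ 2| ≤ ε := by
  have hf : ContinuousAt (fun p : ℝ × ℝ => 1 / p.1) (a₀, b₀) :=
    continuousAt_const.div continuousAt_fst ha.ne'
  have hg : ContinuousAt (fun p : ℝ × ℝ => p.2 / p.1 ^ 2) (a₀, b₀) :=
    continuousAt_snd.div (continuousAt_fst.pow 2) (pow_ne_zero 2 ha.ne')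
  obtain ⟨η₁, h1, h1'⟩ := Metric.continuousAt_iff.1 hf ε hε
  obtain ⟨η₂, h2, h2'⟩ := Metric.continuousAt_iff.1 hg ε hε
  refine ⟨min η₁ η₂ / 2, by positivity, fun a b hda hdb => ?_⟩
  have hd : dist (a, b) (a₀, b₀) < min η₁ η₂ := by
    rw [Prod.dist_eq, Real.dist_eq, Real.dist_eq]
    have hmin : 0 < min η₁ η₂ := lt_min h1 h2
    exact lt_of_le_of_lt (max_le hda hdb) (by linarith)
  refine ⟨?_, ?_⟩
  · have := h1' (hd.trans_le (min_le_left _ _))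
    rw [Real.dist_eq] at this
    exact this.le
  · have := h2' (hd.trans_le (min_le_right _ _))
    rw [Real.dist_eq] at this
    exact this.le

/-- **Trees in balls.** -/
theorem treelike (hPRO : S_PRO) (hUPP : S_UPP) (hGRE : S_GRE) (hGIB : S_GIB) (hTLO : S_TLO)
    (hTCO : S_TCO) (D : ℕ) (hD3 : 3 ≤ D) (g ε : ℝ) (hg : 0 < g) (hε : 0 < ε) :
    ∃ (R : ℕ) (ρ₀ δ : ℝ), 0 < ρ₀ ∧ 0 < δ ∧
      ∀ (V : Type) [Fintype V] [DecidableEq V] (Gr : SimpleGraph V) [DecidableRel Gr.Adj],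
        IsTreelike Gr D R → HasGapT (adjT Gr) g →
        ∀ N : ℕ, 1 ≤ N → (N : ℝ) ≤ ρ₀ * Fintype.card V →
        FirstOrderLaw (adjT Gr) N (D * (D - 2) / (D - 1)) (1 + D / ((D - 1) * (D - 2))) ε δ := by
  have hD : (3 : ℝ) ≤ D := by exact_mod_cast hD3
  have hD1 : (0 : ℝ) < D - 1 := by linarith
  have hD2 : (0 : ℝ) < D - 2 := by linarith
  have hD0 : (0 : ℝ) < D := by linarith
  set a₀ : ℝ := ((D : ℝ) - 1) / (D * (D - 2)) with ha₀
  set κ : ℝ := 1 + (D : ℝ) / ((D - 1) * (D - 2)) with hκ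
  have ha₀0 : 0 < a₀ := by positivity
  obtain ⟨η, hη, hco⟩ := coef_cont (b₀ := a₀ ^ 2 * κ) ha₀0 (by positivity : 0 < ε / 2)
  obtain ⟨R₁, n₀, hT⟩ := hTCO D g η hD3 hg hη
  obtain ⟨K, ρ₀, δ, hρ₀, hδ, h⟩ := general hPRO hUPP hGRE hGIB D g (ε / 2) hD0 hg (by positivity)
  refine ⟨max R₁ (K + 1), min ρ₀ (1 / (n₀ + 1)), δ, by positivity, hδ, ?_⟩
  intro V _ _ Gr _ hGr hgap N hN1 hN
  have hN1' : (1 : ℝ) ≤ N := by exact_mod_cast hN1
  have hn0 : (0 : ℝ) ≤ Fintype.card V := Nat.cast_nonneg _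
  have hN2 : (N : ℝ) ≤ ρ₀ * Fintype.card V :=
    hN.trans (mul_le_mul_of_nonneg_right (min_le_left _ _) hn0)
  have hN3 : (N : ℝ) ≤ 1 / (n₀ + 1) * Fintype.card V :=
    hN.trans (mul_le_mul_of_nonneg_right (min_le_right _ _) hn0)
  have hcard : n₀ ≤ Fintype.card V := by
    have h1 : (1 : ℝ) ≤ 1 / (n₀ + 1) * Fintype.card V := hN1'.trans hN3
    rw [one_div_mul_eq_div, le_div_iff₀ (by positivity), one_mul] at h1
    have h2 : (n₀ : ℝ) ≤ Fintype.card V := by linarith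
    exact_mod_cast h2
  have hloc : Loc (adjT Gr) K := hTLO V Gr D (max R₁ (K + 1)) (by omega) hGr K
    (lt_of_lt_of_le (Nat.lt_succ_self K) (le_max_right _ _))
  have hlaw := h V (adjT Gr) hGr.hopping hgap hloc N hN1 hN2
  obtain ⟨hA, hB⟩ := hT V Gr hcard (hGr.mono (le_max_left _ _)) hgap
  obtain ⟨hc1, hc2⟩ := hco _ _ hA hB
  have e1 : 1 / a₀ = D * (D - 2) / (D - 1) := by rw [ha₀]; field_simp
  have e2 : a₀ ^ 2 * κ / a₀ ^ 2 = κ := by field_simp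
  rw [e1] at hc1
  rw [e2] at hc2
  exact hlaw.change hN1 (by linarith) (by linarith)

end Run7.h543.DEP
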