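import Pool.Agent.Run7.h543.DEP.Stm3

/-!
# One configuration, with a pair repulsion
-/

set_option autoImplicit false
set_option linter.unusedSectionVars false

noncomputable section

namespace Run7.h543.DEP

open Finset Matrix Run7.h259.BEC

variable {V : Type} [Fintype V] [DecidableEq V]

/-- the pointwise inequality between the potential energy and the tangent at `m y` -/
lemma pot_point {W a y φ m : ℝ} (hW : 0 ≤ W) (ha : 0 ≤ a) (h : a ≠ 0 → 0 ≤ y ∧ a ≤ W / 2 * y) :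
    2 * m * (a * φ) - m * (a * (m * y)) ≤ W / 2 * φ ^ 2 := by
  rcases eq_or_lt_of_le ha with h0 | h0
  · rw [← h0]
    have : 0 ≤ W / 2 * φ ^ 2 := by positivity
    simpa using this
  · obtain ⟨hy, hay⟩ := h h0.ne'
    have hy0 : 0 < y := by
      rcases eq_or_lt_of_le hy with h1 | h1
      · rw [← h1] at hay; linarith
      · exact h1
    have h1 : a / y ≤ W / 2 := by rw [div_le_iff₀ hy0]; exact hay
    have h2 : a / y * φ ^ 2 ≤ W / 2 * φ ^ 2 := mul_le_mul_of_nonneg_right h1 (sq_nonneg φ)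
    have h3 : 0 ≤ a / y * (φ - m * y) ^ 2 := by positivity
    have h4 : a / y * (φ - m * y) ^ 2 = a / y * φ ^ 2 - 2 * m * (a * φ) + m * (a * (m * y)) := by
      field_simp
      ring
    linarith

/-- the gap, for arbitrary functions -/
lemma gap_form {t : V → V → ℝ} {g : ℝ} [Nonempty V] (ht : ∀ x y, t x y = t y x)
    (hg : HasGapT t g) (f : V → ℝ) :
    g * (∑ x, (f x - (∑ y, f y) / Fintype.card V) ^ 2) ≤ ∑ x, ∑ y, lap t x y * f x * f y := by
  have hn : (Fintype.card V : ℝ) ≠ 0 := by exact_mod_cast Fintype.card_ne_zero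
  set μ : ℝ := (∑ y, f y) / Fintype.card V with hμ
  have h0 : ∑ x, (f x - μ) = 0 := by
    rw [sum_sub_distrib, sum_const, card_univ, nsmul_eq_mul, hμ]; field_simp; ring
  have h1 := hg (fun x => f x - μ) h0
  have h3 : ∑ x, ∑ y, t x y * ((f y - μ) - (f x - μ)) ^ 2 / 2 =
      ∑ x, ∑ y, lap t x y * f x * f y := by
    rw [lap_form ht]
    refine sum_congr rfl fun x _ => sum_congr rfl fun y _ => ?_
    ring
  rw [h3] at h1
  exact h1

/-- **The inequality for one configuration, abstract form.**  `v = ∑ β_z U_z`, `L v = a - ν v`,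
`b = ∑ β_z`. -/
theorem cfgG_core [Nonempty V] {t : V → V → ℝ} {g ν c : ℝ} (hg0 : 0 < g) (hν : 0 < ν)
    (ht : ∀ x y, t x y = t y x) (hg : HasGapT t g) (v a W φ r : V → ℝ) (m b : ℝ)
    (hLv : ∀ x, ∑ y, lap t x y * v y = a x - ν * v x)
    (hm : m * Fintype.card V = ∑ x, φ x)
    (hr : ∀ x, r x = φ x - m * (1 - v x))
    (hb : ν * ∑ x, v x = c * b)
    (hpot : ∀ x, 2 * m * (a x * φ x) - m * (a x * (m * (1 - v x))) ≤ W x / 2 * φ x ^ 2) :
    m ^ 2 * (c * b - (ν + 2 * ν ^ 2 / g) * ∑ x, v x ^ 2) +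
      g / 2 * ∑ x, (r x - (∑ y, r y) / Fintype.card V) ^ 2 ≤
      ∑ x, ∑ y, lap t x y * φ x * φ y + ∑ x, W x / 2 * φ x ^ 2 := by
  have hn : (0 : ℝ) < Fintype.card V := by exact_mod_cast Fintype.card_pos
  -- expansion of the kinetic energy
  have hL1 : ∀ x, ∑ y, lap t x y * (1 - v y) = -(a x - ν * v x) := by
    intro x
    have : ∀ y, lap t x y * (1 - v y) = lap t x y - lap t x y * v y := by intro y; ring
    simp_rw [this]
    rw [sum_sub_distrib, lap_row, hLv]; ring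
  have hcross : ∀ f h : V → ℝ, ∑ x, ∑ y, lap t x y * f x * h y = ∑ x, ∑ y, lap t x y * h x * f y := by
    intro f h
    rw [sum_comm]
    refine sum_congr rfl fun x _ => sum_congr rfl fun y _ => ?_
    rw [lap_symm ht y x]; ring
  have hpull : ∀ f : V → ℝ, ∑ x, ∑ y, lap t x y * f x * (1 - v y) =
      ∑ x, f x * (-(a x - ν * v x)) := by
    intro f
    refine sum_congr rfl fun x _ => ?_
    rw [← hL1 x, mul_sum]
    exact sum_congr rfl fun y _ => by ring
  have hφ : ∀ x, φ x = r x + m * (1 - v x) := by intro x; rw [hr x]; ring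
  have hkin : ∑ x, ∑ y, lap t x y * φ x * φ y =
      ∑ x, ∑ y, lap t x y * r x * r y +
      2 * m * (∑ x, r x * (-(a x - ν * v x))) +
      m ^ 2 * ∑ x, (1 - v x) * (-(a x - ν * v x)) := by
    rw [← hpull r, ← hpull (fun x => 1 - v x)]
    have e1 : ∑ x, ∑ y, lap t x y * φ x * φ y =
        ∑ x, ∑ y, lap t x y * r x * r y + m * (∑ x, ∑ y, lap t x y * r x * (1 - v y)) +
        m * (∑ x, ∑ y, lap t x y * (1 - v x) * r y) +
        m ^ 2 * ∑ x, ∑ y, lap t x y * (1 - v x) * (1 - v y) := by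
      simp only [mul_sum, ← sum_add_distrib]
      refine sum_congr rfl fun x _ => sum_congr rfl fun y _ => ?_
      rw [hφ x, hφ y]; ring
    rw [e1, hcross (fun x => 1 - v x) r]; ring
  have hgap := gap_form ht hg r
  -- the potential energy
  have hpots : ∑ x, (2 * m * (a x * φ x) - m * (a x * (m * (1 - v x)))) ≤
      ∑ x, W x / 2 * φ x ^ 2 := sum_le_sum fun x _ => hpot x
  set rb : ℝ := (∑ y, r y) / Fintype.card V with hrb
  set R : ℝ := ∑ x, (r x - rb) ^ 2 with hR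
  -- the mean of r
  have hrsum : ∑ x, r x = m * ∑ x, v x := by
    have : ∀ x, r x = φ x - m + m * v x := by intro x; rw [hr x]; ring
    simp_rw [this]
    rw [sum_add_distrib, sum_sub_distrib, ← mul_sum, sum_const, card_univ, nsmul_eq_mul, ← hm]
    ring
  -- the linear terms
  have hlin : 2 * m * (∑ x, r x * (-(a x - ν * v x))) +
      m ^ 2 * ∑ x, (1 - v x) * (-(a x - ν * v x)) +
      ∑ x, (2 * m * (a x * φ x) - m * (a x * (m * (1 - v x)))) =
      m ^ 2 * (ν * ∑ x, v x) - m ^ 2 * ν * ∑ x, v x ^ 2 + 2 * m * ν * ∑ x, r x * v x := by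
    simp only [mul_sum, ← sum_add_distrib, ← sum_sub_distrib]
    refine sum_congr rfl fun x _ => ?_
    rw [hφ x]; ring
  have hrv : ∑ x, r x * v x = ∑ x, (r x - rb) * v x + rb * ∑ x, v x := by
    rw [mul_sum, ← sum_add_distrib]
    exact sum_congr rfl fun x _ => by ring
  have hcs : -(g / 2 * R) - 2 * ν ^ 2 / g * m ^ 2 * ∑ x, v x ^ 2 ≤
      2 * m * ν * ∑ x, (r x - rb) * v x := by
    have e1 : 0 ≤ ∑ x, (g / 2 * (r x - rb) + m * ν * v x) ^ 2 := sum_nonneg fun x _ => sq_nonneg _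
    have e2 : ∑ x, (g / 2 * (r x - rb) + m * ν * v x) ^ 2 =
        (g / 2) ^ 2 * R + g * (m * ν) * ∑ x, (r x - rb) * v x + (m * ν) ^ 2 * ∑ x, v x ^ 2 := by
      rw [hR]
      simp only [mul_sum, ← sum_add_distrib]
      refine sum_congr rfl fun x _ => ?_
      ring
    rw [e2] at e1
    have e3 : (-(g / 2 * R) - 2 * ν ^ 2 / g * m ^ 2 * ∑ x, v x ^ 2) * (g / 2) ≤
        (2 * m * ν * ∑ x, (r x - rb) * v x) * (g / 2) := by
      have e4 : (-(g / 2 * R) - 2 * ν ^ 2 / g * m ^ 2 * ∑ x, v x ^ 2) * (g / 2) =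
          -((g / 2) ^ 2 * R) - (m * ν) ^ 2 * ∑ x, v x ^ 2 := by field_simp
      rw [e4]; linarith
    exact le_of_mul_le_mul_right e3 (by positivity)
  have hpos : 0 ≤ 2 * m * ν * (rb * ∑ x, v x) := by
    have : 2 * m * ν * (rb * ∑ x, v x) = 2 * ν * (m * ∑ x, v x) ^ 2 / Fintype.card V := by
      rw [hrb, hrsum]; ring
    rw [this]; positivity
  rw [hkin]
  rw [hrv] at hlin
  have hfin : m ^ 2 * (c * b - (ν + 2 * ν ^ 2 / g) * ∑ x, v x ^ 2) =
      m ^ 2 * (ν * ∑ x, v x) - m ^ 2 * ν * ∑ x, v x ^ 2 -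
        2 * ν ^ 2 / g * m ^ 2 * ∑ x, v x ^ 2 := by
    rw [hb]; ring
  have hexp : 2 * m * ν * (∑ x, (r x - rb) * v x + rb * ∑ x, v x) =
      2 * m * ν * ∑ x, (r x - rb) * v x + 2 * m * ν * (rb * ∑ x, v x) := by ring
  rw [hexp] at hlin
  rw [hfin]
  linarith

end Run7.h543.DEP
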