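import Pool.Agent.Run7.h543.DEP.G1

/-!
# One configuration, with a pair repulsion: the weights of crowded particles
-/

set_option autoImplicit false
set_option linter.unusedSectionVars false

noncomputable section

namespace Run7.h543.DEP

open Finset Matrix Run7.h259.BEC

variable {V : Type} [Fintype V] [DecidableEq V]

/-- the sites which interact with `z` -/
def Nb (w : V → V → ℝ) (Hd : V → V → Prop) [DecidableRel Hd] (z : V) : Finset V :=
  univ.filter fun x => Hd z x ∨ w z x ≠ 0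

/-- the influence of `z'` on the neighbourhood of `z` -/
def KK (w : V → V → ℝ) (Hd : V → V → Prop) [DecidableRel Hd] (U : Matrix V V ℝ) (z z' : V) : ℝ :=
  ∑ x ∈ Nb w Hd z, U x z'

/-- the overlap of two kernels -/
def UU (U : Matrix V V ℝ) (z z' : V) : ℝ := ∑ x, U x z * U x z'

/-- the crowding of `z` in `S` -/
def crowd (w : V → V → ℝ) (Hd : V → V → Prop) [DecidableRel Hd] (U : Matrix V V ℝ) (S : Finset V)
    (z : V) : ℝ := ∑ z' ∈ S, if z ≠ z' then KK w Hd U z z' else 0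

/-- the weight of `z` in `S` -/
def be (w : V → V → ℝ) (Hd : V → V → Prop) [DecidableRel Hd] (U : Matrix V V ℝ) (S : Finset V)
    (z : V) : ℝ := max 0 (1 - crowd w Hd U S z)

/-- the correction of the constant function -/
def vS (w : V → V → ℝ) (Hd : V → V → Prop) [DecidableRel Hd] (U : Matrix V V ℝ) (S : Finset V)
    (x : V) : ℝ := ∑ z ∈ S, be w Hd U S z * U x z

/-- the double sum over the different sites of `S` -/
def dsum (S : Finset V) (K : V → V → ℝ) : ℝ := ∑ z ∈ S, ∑ w ∈ S, if z ≠ w then K z w else 0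

section
variable {t w : V → V → ℝ} {Hd : V → V → Prop} [DecidableRel Hd] {D ν c κ B : ℝ} {k : ℕ}
  {U : Matrix V V ℝ}

lemma KK_nonneg (hP : KProfile t w Hd ν c κ B U) (z z' : V) : 0 ≤ KK w Hd U z z' :=
  sum_nonneg fun x _ => hP.nonneg x z'

lemma UU_nonneg (hP : KProfile t w Hd ν c κ B U) (z z' : V) : 0 ≤ UU U z z' :=
  sum_nonneg fun x _ => mul_nonneg (hP.nonneg x z) (hP.nonneg x z')

lemma crowd_nonneg (hP : KProfile t w Hd ν c κ B U) (S : Finset V) (z : V) :
    0 ≤ crowd w Hd U S z := by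
  refine sum_nonneg fun z' _ => ?_
  split_ifs
  · exact KK_nonneg hP _ _
  · exact le_rfl

lemma be_nonneg (S : Finset V) (z : V) : 0 ≤ be w Hd U S z := le_max_left _ _

lemma be_le_one (hP : KProfile t w Hd ν c κ B U) (S : Finset V) (z : V) :
    be w Hd U S z ≤ 1 := max_le zero_le_one (by linarith [crowd_nonneg hP S z])

lemma be_ge (S : Finset V) (z : V) : 1 - crowd w Hd U S z ≤ be w Hd U S z := le_max_right _ _

/-- near a particle of positive weight -/
lemma one_sub_v (hP : KProfile t w Hd ν c κ B U) (S : Finset V) (z : V) (hz : z ∈ S) (x : V)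
    (hx : x ∈ Nb w Hd z) (hb : 0 < be w Hd U S z) :
    be w Hd U S z * (1 - U x z) ≤ 1 - vS w Hd U S x := by
  have h1 : be w Hd U S z = 1 - crowd w Hd U S z := by
    unfold be at hb ⊢
    rcases max_choice 0 (1 - crowd w Hd U S z) with h | h
    · rw [h] at hb; exact absurd hb (lt_irrefl _)
    · exact h
  have h2 : vS w Hd U S x ≤ be w Hd U S z * U x z + crowd w Hd U S z := by
    unfold vS
    rw [← add_sum_erase S (fun z => be w Hd U S z * U x z) hz]
    refine add_le_add le_rfl ?_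
    have h3 : crowd w Hd U S z = ∑ z' ∈ S.erase z, KK w Hd U z z' := by
      unfold crowd
      rw [← add_sum_erase S _ hz]
      simp only [ne_eq, not_true_eq_false, if_false, zero_add]
      refine sum_congr rfl fun z' hz' => ?_
      rw [if_pos (fun h => (mem_erase.1 hz').1 h.symm)]
    rw [h3]
    refine sum_le_sum fun z' _ => ?_
    have h4 : U x z' ≤ KK w Hd U z z' :=
      single_le_sum (f := fun x => U x z') (fun y _ => hP.nonneg y z') hx
    calc be w Hd U S z' * U x z' ≤ 1 * U x z' :=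
          mul_le_mul_of_nonneg_right (be_le_one hP S z') (hP.nonneg _ _)
      _ ≤ KK w Hd U z z' := by rw [one_mul]; exact h4
  have h5 : be w Hd U S z * (1 - U x z) = be w Hd U S z - be w Hd U S z * U x z := by ring
  linarith

/-- the potential energy at each site -/
lemma pot_site (hw : IsRep w Hd k) (hP : KProfile t w Hd ν c κ B U) (S : Finset V) (φ : V → ℝ)
    (m : ℝ) (hφ : ∀ z ∈ S, ∀ x, Hd x z → φ x = 0) (x : V) :
    2 * m * ((∑ z ∈ S, be w Hd U S z * ((lap t * U) x z + ν * U x z)) * φ x) -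
      m * ((∑ z ∈ S, be w Hd U S z * ((lap t * U) x z + ν * U x z)) *
        (m * (1 - vS w Hd U S x))) ≤ (∑ z ∈ S, w x z) / 2 * φ x ^ 2 := by
  set a : ℝ := ∑ z ∈ S, be w Hd U S z * ((lap t * U) x z + ν * U x z) with ha
  have ha0 : 0 ≤ a := sum_nonneg fun z _ => mul_nonneg (be_nonneg _ _) (hP.charge x z)
  have hW0 : 0 ≤ ∑ z ∈ S, w x z := sum_nonneg fun z _ => hw.wnonneg _ _
  -- 1 - v ≥ 0 where a ≠ 0
  have hy : a ≠ 0 → 0 ≤ 1 - vS w Hd U S x := by
    intro h
    obtain ⟨z, hz, hz2⟩ := exists_ne_zero_of_sum_ne_zero h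
    have hb : 0 < be w Hd U S z :=
      lt_of_le_of_ne (be_nonneg _ _) (fun h0 => hz2 (by rw [← h0, zero_mul]))
    have hmu : (lap t * U) x z + ν * U x z ≠ 0 := fun h0 => hz2 (by rw [h0, mul_zero])
    have hx : x ∈ Nb w Hd z := by
      unfold Nb
      rw [mem_filter]
      refine ⟨mem_univ _, ?_⟩
      by_cases hh : Hd x z
      · exact Or.inl (hw.hsymm _ _ hh)
      · right
        rw [hP.soft x z hh] at hmu
        intro h0
        rw [hw.wsymm x z, h0] at hmu
        exact hmu (by ring)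
    exact (mul_nonneg hb.le (by linarith [hP.le_one x z])).trans (one_sub_v hP S z hz x hx hb)
  by_cases hex : ∃ z ∈ S, Hd x z
  · obtain ⟨z, hz, hh⟩ := hex
    rw [hφ z hz x hh]
    have h1 : 0 ≤ a * (m * m * (1 - vS w Hd U S x)) := by
      rcases eq_or_ne a 0 with h0 | h0
      · rw [h0, zero_mul]
      · exact mul_nonneg ha0 (mul_nonneg (mul_self_nonneg m) (hy h0))
    have h2 : m * (a * (m * (1 - vS w Hd U S x))) = a * (m * m * (1 - vS w Hd U S x)) := by ring
    rw [h2]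
    simp only [mul_zero, zero_pow two_ne_zero]
    linarith
  · have hex' : ∀ z ∈ S, ¬ Hd x z := fun z hz hh => hex ⟨z, hz, hh⟩
    refine pot_point hW0 ha0 fun hne => ⟨hy hne, ?_⟩
    have hy0 := hy hne
    rw [ha, sum_div, sum_mul]
    refine sum_le_sum fun z hz => ?_
    rw [hP.soft x z (hex' z hz)]
    rcases eq_or_lt_of_le (be_nonneg (w := w) (Hd := Hd) (U := U) S z) with hb | hb
    · rw [← hb, zero_mul]
      exact mul_nonneg (div_nonneg (hw.wnonneg _ _) two_pos.le) hy0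
    · by_cases hw0 : w x z = 0
      · rw [hw0]; simp
      · have hx : x ∈ Nb w Hd z := by
          unfold Nb
          rw [mem_filter]
          exact ⟨mem_univ _, Or.inr (by rw [hw.wsymm z x]; exact hw0)⟩
        have h1 := one_sub_v hP S z hz x hx hb
        have h2 := mul_le_mul_of_nonneg_left h1 (div_nonneg (hw.wnonneg x z) two_pos.le)
        refine le_trans (le_of_eq ?_) h2
        ring

lemma sum_be_ge (S : Finset V) :
    (S.card : ℝ) - dsum S (KK w Hd U) ≤ ∑ z ∈ S, be w Hd U S z := by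
  have h1 : ∑ z ∈ S, (1 - crowd w Hd U S z) ≤ ∑ z ∈ S, be w Hd U S z :=
    sum_le_sum fun z _ => be_ge S z
  rw [sum_sub_distrib, sum_const, nsmul_eq_mul, mul_one] at h1
  exact h1

lemma v_sq (S : Finset V) : ∑ x, vS w Hd U S x ^ 2 =
    ∑ z ∈ S, ∑ z' ∈ S, be w Hd U S z * be w Hd U S z' * UU U z z' := by
  have h1 : ∀ x, vS w Hd U S x ^ 2 =
      ∑ z ∈ S, ∑ z' ∈ S, be w Hd U S z * be w Hd U S z' * (U x z * U x z') := by
    intro x
    unfold vS
    rw [sq, sum_mul_sum]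
    exact sum_congr rfl fun z _ => sum_congr rfl fun z' _ => by ring
  simp_rw [h1]
  rw [sum_comm]
  refine sum_congr rfl fun z _ => ?_
  rw [sum_comm]
  refine sum_congr rfl fun z' _ => ?_
  rw [← mul_sum]; rfl

lemma UU_self (hP : KProfile t w Hd ν c κ B U) (z : V) : UU U z z = κ := by
  rw [← hP.sq z]
  exact sum_congr rfl fun x _ => by ring

lemma v_sq_le (hP : KProfile t w Hd ν c κ B U) (S : Finset V) :
    ∑ x, vS w Hd U S x ^ 2 ≤ κ * S.card + dsum S (UU U) := by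
  rw [v_sq]
  have h1 : ∑ z ∈ S, ∑ z' ∈ S, be w Hd U S z * be w Hd U S z' * UU U z z' ≤
      ∑ z ∈ S, ∑ z' ∈ S, UU U z z' := by
    refine sum_le_sum fun z _ => sum_le_sum fun z' _ => ?_
    have h2 : be w Hd U S z * be w Hd U S z' ≤ 1 :=
      mul_le_one₀ (be_le_one hP S z) (be_nonneg _ _) (be_le_one hP S z')
    exact mul_le_of_le_one_left (UU_nonneg hP _ _) h2
  refine h1.trans (le_of_eq ?_)
  rw [sum_split S (UU U)]
  congr 1
  rw [sum_congr rfl fun z _ => UU_self hP z, sum_const, nsmul_eq_mul]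
  ring

lemma v_sq_ge (hP : KProfile t w Hd ν c κ B U) (hκ : 0 ≤ κ) (S : Finset V) :
    κ * (S.card - 2 * dsum S (KK w Hd U)) ≤ ∑ x, vS w Hd U S x ^ 2 := by
  rw [v_sq]
  have h1 : ∑ z ∈ S, κ * be w Hd U S z ^ 2 ≤
      ∑ z ∈ S, ∑ z' ∈ S, be w Hd U S z * be w Hd U S z' * UU U z z' := by
    refine sum_le_sum fun z hz => ?_
    have h2 : be w Hd U S z * be w Hd U S z * UU U z z ≤
        ∑ z' ∈ S, be w Hd U S z * be w Hd U S z' * UU U z z' :=
      single_le_sum (f := fun z' => be w Hd U S z * be w Hd U S z' * UU U z z')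
        (fun z' _ => mul_nonneg (mul_nonneg (be_nonneg _ _) (be_nonneg _ _)) (UU_nonneg hP _ _)) hz
    refine le_trans (le_of_eq ?_) h2
    rw [UU_self hP]; ring
  refine le_trans ?_ h1
  have h3 : ∀ z ∈ S, κ * (1 - 2 * crowd w Hd U S z) ≤ κ * be w Hd U S z ^ 2 := by
    intro z _
    refine mul_le_mul_of_nonneg_left ?_ hκ
    have h4 := be_ge (w := w) (Hd := Hd) (U := U) S z
    have h5 := be_nonneg (w := w) (Hd := Hd) (U := U) S z
    have h6 := crowd_nonneg hP S z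
    have h7 := sq_nonneg (be w Hd U S z - 1)
    linarith
  refine le_trans (le_of_eq ?_) (sum_le_sum h3)
  rw [← mul_sum, sum_sub_distrib, ← mul_sum, sum_const, nsmul_eq_mul, mul_one]
  rfl

lemma v_nonneg (hP : KProfile t w Hd ν c κ B U) (S : Finset V) (x : V) : 0 ≤ vS w Hd U S x :=
  sum_nonneg fun z _ => mul_nonneg (be_nonneg _ _) (hP.nonneg _ _)

lemma v_sum_le (hP : KProfile t w Hd ν c κ B U) (S : Finset V) :
    ∑ x, vS w Hd U S x ≤ B * S.card := by
  unfold vS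
  rw [sum_comm]
  have h1 : ∀ z ∈ S, ∑ x, be w Hd U S z * U x z ≤ B := by
    intro z _
    have h2 : ∑ x, U x z ≤ B := by
      refine le_trans (le_of_eq ?_) (hP.row z)
      exact sum_congr rfl fun x _ => hP.symm x z
    rw [← mul_sum]
    have h0 : 0 ≤ ∑ x, U x z := sum_nonneg fun x _ => hP.nonneg x z
    exact (mul_le_of_le_one_left h0 (be_le_one hP S z)).trans h2
  refine (sum_le_sum h1).trans (le_of_eq ?_)
  rw [sum_const, nsmul_eq_mul]; ring

lemma v_total (hP : KProfile t w Hd ν c κ B U) (S : Finset V) :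
    ν * ∑ x, vS w Hd U S x = c * ∑ z ∈ S, be w Hd U S z := by
  unfold vS
  rw [sum_comm, mul_sum, mul_sum]
  refine sum_congr rfl fun z _ => ?_
  rw [← mul_sum, ← hP.total z]; ring

lemma v_lap (S : Finset V) (x : V) : ∑ y, lap t x y * vS w Hd U S y =
    (∑ z ∈ S, be w Hd U S z * ((lap t * U) x z + ν * U x z)) - ν * vS w Hd U S x := by
  have h1 : ∑ y, lap t x y * vS w Hd U S y = ∑ z ∈ S, be w Hd U S z * (lap t * U) x z := by
    unfold vS
    simp only [Matrix.mul_apply, mul_sum]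
    rw [sum_comm]
    refine sum_congr rfl fun z _ => ?_
    refine sum_congr rfl fun y _ => ?_
    ring
  rw [h1]
  unfold vS
  rw [mul_sum, ← sum_sub_distrib]
  exact sum_congr rfl fun z _ => by ring

/-- **The inequality for one configuration.** -/
theorem cfgG [Nonempty V] {g : ℝ} (hg0 : 0 < g) (hν : 0 < ν)
    (ht : ∀ x y, t x y = t y x) (hg : HasGapT t g) (hw : IsRep w Hd k)
    (hP : KProfile t w Hd ν c κ B U) (hc : 0 ≤ c) (S : Finset V) (φ : V → ℝ) (m : ℝ)
    (hm : m * Fintype.card V = ∑ x, φ x)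
    (hφ : ∀ z ∈ S, ∀ x, Hd x z → φ x = 0) (R : ℝ)
    (hR : R = ∑ x, ((φ x - m * (1 - vS w Hd U S x)) -
      (∑ y, (φ y - m * (1 - vS w Hd U S y))) / Fintype.card V) ^ 2) :
    m ^ 2 * ((c - (ν + 2 * ν ^ 2 / g) * κ) * S.card) -
      m ^ 2 * (c * dsum S (KK w Hd U) + (ν + 2 * ν ^ 2 / g) * dsum S (UU U)) + g / 2 * R ≤
      ∑ x, ∑ y, lap t x y * φ x * φ y + ∑ x, (∑ z ∈ S, w x z) / 2 * φ x ^ 2 := by
  have h1 := cfgG_core (c := c) hg0 hν ht hg (vS w Hd U S)
    (fun x => ∑ z ∈ S, be w Hd U S z * ((lap t * U) x z + ν * U x z))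
    (fun x => ∑ z ∈ S, w x z) φ (fun x => φ x - m * (1 - vS w Hd U S x)) m
    (∑ z ∈ S, be w Hd U S z) (v_lap S) hm (fun x => rfl) (v_total hP S)
    (fun x => pot_site hw hP S φ m hφ x)
  rw [hR]
  refine le_trans ?_ h1
  have h2 := mul_le_mul_of_nonneg_left (sum_be_ge (w := w) (Hd := Hd) (U := U) S) hc
  have hν' : 0 ≤ ν + 2 * ν ^ 2 / g := by positivity
  have h3 := mul_le_mul_of_nonneg_left (v_sq_le hP S) hν'
  have h4 : (c - (ν + 2 * ν ^ 2 / g) * κ) * S.card -
      (c * dsum S (KK w Hd U) + (ν + 2 * ν ^ 2 / g) * dsum S (UU U)) ≤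
      c * (∑ z ∈ S, be w Hd U S z) - (ν + 2 * ν ^ 2 / g) * ∑ x, vS w Hd U S x ^ 2 := by
    linarith
  have h5 := mul_le_mul_of_nonneg_left h4 (sq_nonneg m)
  linarith

/-- the variance -/
lemma var_eq [Nonempty V] (v : V → ℝ) :
    ∑ x, (v x - (∑ y, v y) / Fintype.card V) ^ 2 =
      ∑ x, v x ^ 2 - (∑ x, v x) ^ 2 / Fintype.card V := by
  have hn : (Fintype.card V : ℝ) ≠ 0 := by exact_mod_cast Fintype.card_ne_zero
  set μ : ℝ := (∑ x, v x) / Fintype.card V with hμ
  have : ∀ x, (v x - μ) ^ 2 = v x ^ 2 - 2 * μ * v x + μ ^ 2 := by intro x; ring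
  simp_rw [this]
  rw [sum_add_distrib, sum_sub_distrib, ← mul_sum, sum_const, card_univ, nsmul_eq_mul, hμ]
  field_simp
  ring

lemma h_pt [Nonempty V] (φ v : V → ℝ) (m : ℝ) (hm : m * Fintype.card V = ∑ x, φ x) (x : V) :
    φ x - m = ((φ x - m * (1 - v x)) - (∑ y, (φ y - m * (1 - v y))) / Fintype.card V) -
      m * (v x - (∑ y, v y) / Fintype.card V) := by
  have hn : (Fintype.card V : ℝ) ≠ 0 := by exact_mod_cast Fintype.card_ne_zero
  have h1 : ∑ y, (φ y - m * (1 - v y)) = m * ∑ y, v y := by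
    have : ∀ y, φ y - m * (1 - v y) = φ y - m + m * v y := by intro y; ring
    simp_rw [this]
    rw [sum_add_distrib, sum_sub_distrib, ← mul_sum, sum_const, card_univ, nsmul_eq_mul, ← hm]
    ring
  rw [h1]; ring

lemma young_up {p q τ : ℝ} (hτ : 0 < τ) :
    (q - p) ^ 2 ≤ (1 + τ) * p ^ 2 + (1 + 1 / τ) * q ^ 2 := by
  have h1 : 0 ≤ (τ * p + q) ^ 2 / τ := by positivity
  have h2 : (τ * p + q) ^ 2 / τ = τ * p ^ 2 + 2 * (p * q) + 1 / τ * q ^ 2 := by
    field_simp; ring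
  linarith [sq_nonneg (q - p)]

lemma young_lo {p q τ : ℝ} (hτ : 0 < τ) :
    (1 - τ) * p ^ 2 - 1 / τ * q ^ 2 ≤ (q - p) ^ 2 := by
  have h1 : 0 ≤ (τ * p - q) ^ 2 / τ := by positivity
  have h2 : (τ * p - q) ^ 2 / τ = τ * p ^ 2 - 2 * (p * q) + 1 / τ * q ^ 2 := by
    field_simp; ring
  linarith [sq_nonneg q]

/-- the particles outside of the condensate, from above -/
lemma h_upper [Nonempty V] (φ v : V → ℝ) (m τ R : ℝ) (hτ : 0 < τ)
    (hm : m * Fintype.card V = ∑ x, φ x)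
    (hR : R = ∑ x, ((φ x - m * (1 - v x)) -
      (∑ y, (φ y - m * (1 - v y))) / Fintype.card V) ^ 2) :
    ∑ x, (φ x - m) ^ 2 ≤ (1 + τ) * (m ^ 2 * ∑ x, v x ^ 2) + (1 + 1 / τ) * R := by
  have h1 : ∑ x, (φ x - m) ^ 2 ≤ ∑ x, ((1 + τ) * (m * (v x - (∑ y, v y) / Fintype.card V)) ^ 2 +
      (1 + 1 / τ) * ((φ x - m * (1 - v x)) -
        (∑ y, (φ y - m * (1 - v y))) / Fintype.card V) ^ 2) := by
    refine sum_le_sum fun x _ => ?_
    rw [h_pt φ v m hm x]
    exact young_up hτ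
  refine h1.trans ?_
  rw [sum_add_distrib, ← mul_sum, ← mul_sum, ← hR]
  simp_rw [mul_pow]
  rw [← mul_sum, var_eq]
  have hn : (0 : ℝ) < Fintype.card V := by exact_mod_cast Fintype.card_pos
  have h2 : 0 ≤ (∑ x, v x) ^ 2 / (Fintype.card V : ℝ) := by positivity
  have h3 : (1 + τ) * (m ^ 2 * (∑ x, v x ^ 2 - (∑ x, v x) ^ 2 / (Fintype.card V : ℝ))) ≤
      (1 + τ) * (m ^ 2 * ∑ x, v x ^ 2) := by
    refine mul_le_mul_of_nonneg_left ?_ (by linarith)
    exact mul_le_mul_of_nonneg_left (by linarith) (sq_nonneg m)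
  linarith

/-- the particles outside of the condensate, from below -/
lemma h_lower [Nonempty V] (φ v : V → ℝ) (m τ R : ℝ) (hτ : 0 < τ)
    (hm : m * Fintype.card V = ∑ x, φ x)
    (hR : R = ∑ x, ((φ x - m * (1 - v x)) -
      (∑ y, (φ y - m * (1 - v y))) / Fintype.card V) ^ 2) :
    (1 - τ) * (m ^ 2 * (∑ x, v x ^ 2 - (∑ x, v x) ^ 2 / Fintype.card V)) - 1 / τ * R ≤
      ∑ x, (φ x - m) ^ 2 := by
  have h1 : ∑ x, ((1 - τ) * (m * (v x - (∑ y, v y) / Fintype.card V)) ^ 2 -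
      1 / τ * ((φ x - m * (1 - v x)) -
        (∑ y, (φ y - m * (1 - v y))) / Fintype.card V) ^ 2) ≤ ∑ x, (φ x - m) ^ 2 := by
    refine sum_le_sum fun x _ => ?_
    rw [h_pt φ v m hm x]
    exact young_lo hτ
  refine le_trans (le_of_eq ?_) h1
  rw [sum_sub_distrib, ← mul_sum, ← mul_sum, ← hR]
  simp_rw [mul_pow]
  rw [← mul_sum, var_eq]

end

end Run7.h543.DEP
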