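import Pool.Agent.Run7.h543.DEP.G2

/-!
# The inequalities for every wave function, with a pair repulsion
-/

set_option autoImplicit false
set_option linter.unusedSectionVars false

noncomputable section

namespace Run7.h543.DEP

open Finset Matrix Run7.h259.BEC

variable {V : Type} [Fintype V] [DecidableEq V]

/-- close pairs, for a kernel which need not be symmetric -/
theorem close' [Nonempty V] {N : ℕ} {ψ : Finset V → ℝ} (h : Part N ψ) (K : V → V → ℝ) (k₁ : ℝ)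
    (hk : 0 ≤ k₁) (hK0 : ∀ x y, 0 ≤ K x y) (hK : ∀ x, ∑ y, K x y ≤ k₁)
    (hK' : ∀ y, ∑ x, K x y ≤ k₁) :
    ∑ S : Finset V, bop ψ S ^ 2 * dsum S K ≤
      2 * k₁ * ((N / Fintype.card V) ^ 2 * N * (ψ ⬝ᵥ ψ) +
        N / Fintype.card V * (N * (ψ ⬝ᵥ ψ) - Run7.h259.BEC.cond ψ)) := by
  have h1 := close h (fun z w => (K z w + K w z) / 2) k₁ hk
    (fun x y => by have h1 := hK0 x y; have h2 := hK0 y x; positivity)
    (fun x y => by ring) (fun x => by
      rw [← sum_div, sum_add_distrib]; linarith [hK x, hK' x])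
  refine le_trans (le_of_eq ?_) h1
  have h0 : ∑ S : Finset V, bop ψ S ^ 2 * dsum S K =
      ∑ z, ∑ w, K z w * (a w (a z (bop ψ)) ⬝ᵥ a w (a z (bop ψ))) := pair_sum (bop ψ) K
  rw [h0]
  have h2 : ∑ z, ∑ w, K w z * (a w (a z (bop ψ)) ⬝ᵥ a w (a z (bop ψ))) =
      ∑ z, ∑ w, K z w * (a w (a z (bop ψ)) ⬝ᵥ a w (a z (bop ψ))) := by
    rw [sum_comm]
    refine sum_congr rfl fun z _ => sum_congr rfl fun w _ => ?_
    rw [a_a]
  have h3 : ∑ z, ∑ w, (K z w + K w z) / 2 * (a w (a z (bop ψ)) ⬝ᵥ a w (a z (bop ψ))) =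
      (∑ z, ∑ w, K z w * (a w (a z (bop ψ)) ⬝ᵥ a w (a z (bop ψ))) +
        ∑ z, ∑ w, K w z * (a w (a z (bop ψ)) ⬝ᵥ a w (a z (bop ψ)))) / 2 := by
    rw [← sum_add_distrib, sum_div]
    refine sum_congr rfl fun z _ => ?_
    rw [← sum_add_distrib, sum_div]
    exact sum_congr rfl fun w _ => by ring
  rw [h3, h2]; ring

/-- the potential energy, particle by particle -/
lemma pot_sum (w : V → V → ℝ) (ψ : Finset V → ℝ) :
    ∑ S : Finset V, ∑ x, (∑ z ∈ S, w x z) / 2 * a x ψ S ^ 2 = potR w ψ := by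
  have h1 : ∀ x, ∑ S : Finset V, (∑ z ∈ S, w x z) / 2 * a x ψ S ^ 2 =
      ∑ T : Finset V, if x ∈ T then (∑ z ∈ T, if x = z then 0 else w x z / 2) * ψ T ^ 2 else 0 := by
    intro x
    have e1 : ∑ S : Finset V, (∑ z ∈ S, w x z) / 2 * a x ψ S ^ 2 =
        a x ψ ⬝ᵥ (fun S => (∑ z ∈ S, w x z) / 2 * a x ψ S) := by
      unfold dotProduct
      exact sum_congr rfl fun S _ => by ring
    rw [e1, a_dot]
    unfold dotProduct
    refine sum_congr rfl fun T _ => ?_
    rw [ad_apply]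
    split_ifs with hx
    · rw [a_apply, if_neg (notMem_erase x T), insert_erase hx]
      have e2 : ∑ z ∈ T, (if x = z then 0 else w x z / 2) = (∑ z ∈ T.erase x, w x z) / 2 := by
        rw [← add_sum_erase T _ hx, if_pos rfl, zero_add, sum_div]
        refine sum_congr rfl fun z hz => ?_
        rw [if_neg (fun h => (mem_erase.1 hz).1 h.symm)]
      rw [e2]; ring
    · rw [mul_zero]
  rw [sum_comm]
  simp_rw [h1]
  rw [sum_comm]
  unfold potR pairW
  refine sum_congr rfl fun T _ => ?_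
  rw [← sum_filter, filter_mem_eq_inter, univ_inter, sum_mul]

lemma kin_sum (t : V → V → ℝ) (ψ : Finset V → ℝ) :
    ∑ S : Finset V, ∑ x, ∑ y, lap t x y * a x ψ S * a y ψ S = kin t ψ := by
  unfold kin G dotProduct
  rw [sum_comm]
  refine sum_congr rfl fun x _ => ?_
  rw [sum_comm]
  refine sum_congr rfl fun y _ => ?_
  rw [mul_sum]
  exact sum_congr rfl fun S _ => by ring

section
variable {t w : V → V → ℝ} {Hd : V → V → Prop} [DecidableRel Hd] {ν c κ B : ℝ} {k : ℕ}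
  {U : Matrix V V ℝ}

lemma KK_row (hw : IsRep w Hd k) (hP : KProfile t w Hd ν c κ B U) (hB : 0 ≤ B) (z : V) :
    ∑ z', KK w Hd U z z' ≤ k * B := by
  unfold KK
  rw [sum_comm]
  refine (sum_le_sum fun x _ => hP.row x).trans ?_
  rw [sum_const, nsmul_eq_mul]
  refine mul_le_mul_of_nonneg_right ?_ hB
  exact_mod_cast hw.size z

lemma KK_col (hw : IsRep w Hd k) (hP : KProfile t w Hd ν c κ B U) (hB : 0 ≤ B) (z' : V) :
    ∑ z, KK w Hd U z z' ≤ k * B := by
  unfold KK Nb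
  have h1 : ∀ z, ∑ x ∈ univ.filter (fun x => Hd z x ∨ w z x ≠ 0), U x z' =
      ∑ x, if Hd z x ∨ w z x ≠ 0 then U x z' else 0 := fun z => sum_filter _ _
  simp_rw [h1]
  rw [sum_comm]
  have h2 : ∀ x, ∑ z, (if Hd z x ∨ w z x ≠ 0 then U x z' else 0) ≤ k * U x z' := by
    intro x
    rw [← sum_filter, sum_const, nsmul_eq_mul]
    refine mul_le_mul_of_nonneg_right ?_ (hP.nonneg x z')
    have h3 : (univ.filter fun z => Hd z x ∨ w z x ≠ 0) ⊆
        (univ.filter fun z => Hd x z ∨ w x z ≠ 0) := by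
      intro z hz
      rw [mem_filter] at hz ⊢
      refine ⟨mem_univ _, ?_⟩
      rcases hz.2 with h | h
      · exact Or.inl (hw.hsymm _ _ h)
      · exact Or.inr (by rw [hw.wsymm x z]; exact h)
    exact_mod_cast (card_le_card h3).trans (hw.size x)
  refine (sum_le_sum fun x _ => h2 x).trans ?_
  rw [← mul_sum]
  refine mul_le_mul_of_nonneg_left ?_ (Nat.cast_nonneg _)
  refine le_trans (le_of_eq ?_) (hP.row z')
  exact sum_congr rfl fun x _ => hP.symm x z'

lemma UU_row (hP : KProfile t w Hd ν c κ B U) (hB : 0 ≤ B) (z : V) :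
    ∑ z', UU U z z' ≤ B ^ 2 := by
  unfold UU
  rw [sum_comm]
  have e1 : ∀ x, ∑ z', U x z * U x z' ≤ U x z * B := by
    intro x
    rw [← mul_sum]
    exact mul_le_mul_of_nonneg_left (hP.row x) (hP.nonneg _ _)
  refine (sum_le_sum fun x _ => e1 x).trans ?_
  rw [← sum_mul, sq]
  refine mul_le_mul_of_nonneg_right ?_ hB
  refine le_trans (le_of_eq ?_) (hP.row z)
  exact sum_congr rfl fun x _ => hP.symm x z

lemma UU_comm (z z' : V) : UU U z z' = UU U z' z :=
  sum_congr rfl fun _ _ => mul_comm _ _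

end

/-- the inequalities of a state of total weight `1` with the energy `X`, the number `cnd` of
particles in the condensate and the rest `R` -/
structure Ineqs (n g N kk ν c κ B τ W X cnd R : ℝ) : Prop where
  R0 : 0 ≤ R
  en : (c - (ν + 2 * ν ^ 2 / g) * κ) * ((N - 1) / n) * cnd -
    2 * (c * (kk * B) + (ν + 2 * ν ^ 2 / g) * B ^ 2) * ((N / n) ^ 2 * N * W +
      N / n * (N * W - cnd)) + g / 2 * R ≤ X
  up : N * W - cnd ≤ (1 + τ) * (κ * ((N - 1) / n) * cnd +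
    2 * B ^ 2 * ((N / n) ^ 2 * N * W + N / n * (N * W - cnd))) + (1 + 1 / τ) * R
  lo : (1 - τ) * (κ * ((N - 1) / n) * cnd -
    4 * κ * (kk * B) * ((N / n) ^ 2 * N * W + N / n * (N * W - cnd)) -
    B ^ 2 * ((N / n) ^ 2 * N * W)) - 1 / τ * R ≤ N * W - cnd

/-- **The inequalities of a real wave function.** -/
theorem ineqs_real {t w : V → V → ℝ} {Hd : V → V → Prop} [DecidableRel Hd] {D ν c κ B g : ℝ}
    {k : ℕ} {U : Matrix V V ℝ} (hg0 : 0 < g) (hν : 0 < ν) (ht : IsHopping t D)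
    (hg : HasGapT t g) (hw : IsRep w Hd k) (hP : KProfile t w Hd ν c κ B U) (hc : 0 ≤ c)
    (hκ : 0 ≤ κ) (hB : 0 ≤ B) {τ : ℝ} (hτ : 0 < τ) (hτ1 : τ ≤ 1)
    {N : ℕ} (hN1 : 1 ≤ N) (hN : N ≤ Fintype.card V) {ψ : Finset V → ℝ} (hψ : Part N ψ)
    (hex : Excl Hd ψ) :
    ∃ R : ℝ, Ineqs (Fintype.card V) g N k ν c κ B τ (ψ ⬝ᵥ ψ) (kin t ψ + potR w ψ)
      (Run7.h259.BEC.cond ψ) R := by
  have hV : Nonempty V := Fintype.card_pos_iff.1 (by omega)
  have hn : (0 : ℝ) < Fintype.card V := by exact_mod_cast Fintype.card_pos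
  have hN1' : (1 : ℝ) ≤ N := by exact_mod_cast hN1
  have hm : ∀ S : Finset V, bop ψ S * Fintype.card V = ∑ x, a x ψ S := by
    intro S; rw [bop_apply]; field_simp
  have hφ : ∀ S : Finset V, ∀ z ∈ S, ∀ x, Hd x z → a x ψ S = 0 := by
    intro S z hz x hxz
    rw [a_apply]
    split_ifs with hx
    · rfl
    · refine hex _ ⟨x, mem_insert_self x S, z, mem_insert_of_mem hz, ?_, hxz⟩
      intro h
      exact hx (h ▸ hz)
  have hm0 : ∀ S : Finset V, S.card ≠ N - 1 → bop ψ S = 0 := part_bop hψ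
  have hcard : ∀ S : Finset V, bop ψ S ^ 2 * (S.card : ℝ) = bop ψ S ^ 2 * ((N : ℝ) - 1) := by
    intro S
    by_cases hS : S.card = N - 1
    · rw [hS, Nat.cast_sub hN1, Nat.cast_one]
    · rw [hm0 S hS]; ring
  have hb2 : ∑ S, bop ψ S ^ 2 = bop ψ ⬝ᵥ bop ψ := by
    unfold dotProduct; exact sum_congr rfl fun S _ => sq _
  have hb3 : ∑ S : Finset V, bop ψ S ^ 2 * (S.card : ℝ) =
      ((N : ℝ) - 1) / Fintype.card V * Run7.h259.BEC.cond ψ := by
    simp_rw [hcard]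
    rw [← sum_mul, hb2, cond_eq]
    field_simp
  have hnp : ∑ S, ∑ x, (a x ψ S - bop ψ S) ^ 2 = N * (ψ ⬝ᵥ ψ) - Run7.h259.BEC.cond ψ := by
    rw [← nplus_eq hψ, sum_comm]
    refine sum_congr rfl fun x _ => ?_
    unfold dotProduct
    exact sum_congr rfl fun S _ => sq _
  have hkB : 0 ≤ (k : ℝ) * B := mul_nonneg (Nat.cast_nonneg _) hB
  have hcl1 := close' hψ (KK w Hd U) (k * B) hkB (KK_nonneg hP) (KK_row hw hP hB) (KK_col hw hP hB)
  have hcl2 := close' hψ (UU U) (B ^ 2) (sq_nonneg B) (UU_nonneg hP) (UU_row hP hB)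
    (fun y => by
      refine le_trans (le_of_eq ?_) (UU_row hP hB y)
      exact sum_congr rfl fun x _ => UU_comm x y)
  set ν' : ℝ := ν + 2 * ν ^ 2 / g with hν'
  have hν'0 : 0 ≤ ν' := by positivity
  set T : ℝ := (N / Fintype.card V) ^ 2 * N * (ψ ⬝ᵥ ψ) +
    N / Fintype.card V * (N * (ψ ⬝ᵥ ψ) - Run7.h259.BEC.cond ψ) with hT
  set C1 : ℝ := ∑ S : Finset V, bop ψ S ^ 2 * dsum S (KK w Hd U) with hC1
  set C2 : ℝ := ∑ S : Finset V, bop ψ S ^ 2 * dsum S (UU U) with hC2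
  let RS : Finset V → ℝ := fun S => ∑ x, ((a x ψ S - bop ψ S * (1 - vS w Hd U S x)) -
      (∑ y, (a y ψ S - bop ψ S * (1 - vS w Hd U S y))) / Fintype.card V) ^ 2
  have hRS0 : ∀ S, 0 ≤ RS S := fun S => sum_nonneg fun x _ => sq_nonneg _
  refine ⟨∑ S, RS S, sum_nonneg fun S _ => hRS0 S, ?_, ?_, ?_⟩
  · have h1 : ∀ S : Finset V, (c - ν' * κ) * (bop ψ S ^ 2 * S.card) -
        (c * (bop ψ S ^ 2 * dsum S (KK w Hd U)) + ν' * (bop ψ S ^ 2 * dsum S (UU U))) +
        g / 2 * RS S ≤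
        ∑ x, ∑ y, lap t x y * a x ψ S * a y ψ S + ∑ x, (∑ z ∈ S, w x z) / 2 * a x ψ S ^ 2 := by
      intro S
      have h2 := cfgG hg0 hν ht.symm hg hw hP hc S (fun x => a x ψ S) (bop ψ S) (hm S) (hφ S)
        (RS S) rfl
      refine le_trans (le_of_eq ?_) h2
      rw [hν']; ring
    have h3 := sum_le_sum fun S (_ : S ∈ (univ : Finset (Finset V))) => h1 S
    simp only [sum_add_distrib, sum_sub_distrib, ← mul_sum] at h3
    rw [hb3, kin_sum, pot_sum] at h3
    have h4 := mul_le_mul_of_nonneg_left hcl1 hc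
    have h5 := mul_le_mul_of_nonneg_left hcl2 hν'0
    have h6 : (c - ν' * κ) * (((N : ℝ) - 1) / Fintype.card V * Run7.h259.BEC.cond ψ) =
        (c - ν' * κ) * (((N : ℝ) - 1) / Fintype.card V) * Run7.h259.BEC.cond ψ := by ring
    rw [h6] at h3
    have h7 : 2 * (c * (k * B) + ν' * B ^ 2) * T = c * (2 * (k * B) * T) + ν' * (2 * B ^ 2 * T) := by
      ring
    rw [h7]
    linarith
  · have h1 : ∀ S : Finset V, ∑ x, (a x ψ S - bop ψ S) ^ 2 ≤
        (1 + τ) * (κ * (bop ψ S ^ 2 * S.card) + bop ψ S ^ 2 * dsum S (UU U)) +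
        (1 + 1 / τ) * RS S := by
      intro S
      refine (h_upper (fun x => a x ψ S) (vS w Hd U S) (bop ψ S) τ (RS S) hτ (hm S) rfl).trans ?_
      have h2 := mul_le_mul_of_nonneg_left (v_sq_le hP S) (sq_nonneg (bop ψ S))
      have h3 := mul_le_mul_of_nonneg_left h2 (by linarith : 0 ≤ 1 + τ)
      refine add_le_add (h3.trans (le_of_eq ?_)) le_rfl
      ring
    have h3 := sum_le_sum fun S (_ : S ∈ (univ : Finset (Finset V))) => h1 S
    rw [hnp] at h3
    refine h3.trans ?_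
    simp only [sum_add_distrib, ← mul_sum]
    rw [hb3]
    refine add_le_add ?_ le_rfl
    refine mul_le_mul_of_nonneg_left ?_ (by linarith)
    refine add_le_add (le_of_eq (by ring)) ?_
    linarith
  · have h1 : ∀ S : Finset V, (1 - τ) * ((κ * (bop ψ S ^ 2 * S.card) -
        2 * κ * (bop ψ S ^ 2 * dsum S (KK w Hd U))) -
        B ^ 2 * (bop ψ S ^ 2 * (((N : ℝ) - 1) ^ 2 / Fintype.card V))) - 1 / τ * RS S ≤
        ∑ x, (a x ψ S - bop ψ S) ^ 2 := by
      intro S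
      refine le_trans ?_ (h_lower (fun x => a x ψ S) (vS w Hd U S) (bop ψ S) τ (RS S) hτ
        (hm S) rfl)
      refine sub_le_sub ?_ le_rfl
      refine mul_le_mul_of_nonneg_left ?_ (by linarith)
      have h2 := v_sq_ge hP hκ S
      have h4 : 0 ≤ ∑ x, vS w Hd U S x := sum_nonneg fun x _ => v_nonneg hP S x
      have h5 := pow_le_pow_left₀ h4 (v_sum_le hP S) 2
      have h6 : (∑ x, vS w Hd U S x) ^ 2 / (Fintype.card V : ℝ) ≤
          (B * S.card) ^ 2 / Fintype.card V := div_le_div_of_nonneg_right h5 hn.le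
      have h7 := mul_le_mul_of_nonneg_left (sub_le_sub h2 h6) (sq_nonneg (bop ψ S))
      refine le_trans (le_of_eq ?_) h7
      have h8 : bop ψ S ^ 2 * (S.card : ℝ) ^ 2 = bop ψ S ^ 2 * ((N : ℝ) - 1) ^ 2 := by
        by_cases hS : S.card = N - 1
        · rw [hS, Nat.cast_sub hN1, Nat.cast_one]
        · rw [hm0 S hS]; ring
      have h9 : bop ψ S ^ 2 * (κ * (↑S.card - 2 * dsum S (KK w Hd U)) -
          (B * ↑S.card) ^ 2 / (Fintype.card V : ℝ)) =
          κ * (bop ψ S ^ 2 * S.card) - 2 * κ * (bop ψ S ^ 2 * dsum S (KK w Hd U)) -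
          B ^ 2 * (bop ψ S ^ 2 * (S.card : ℝ) ^ 2) / Fintype.card V := by ring
      rw [h9, h8]; ring
    have h3 := sum_le_sum fun S (_ : S ∈ (univ : Finset (Finset V))) => h1 S
    rw [hnp] at h3
    refine le_trans ?_ h3
    simp only [sum_sub_distrib, ← mul_sum, ← sum_mul]
    rw [hb3, hb2]
    refine sub_le_sub ?_ le_rfl
    refine mul_le_mul_of_nonneg_left ?_ (by linarith)
    have h4 : bop ψ ⬝ᵥ bop ψ * (((N : ℝ) - 1) ^ 2 / Fintype.card V) ≤
        (N / Fintype.card V) ^ 2 * N * (ψ ⬝ᵥ ψ) := by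
      have f1 : bop ψ ⬝ᵥ bop ψ * (((N : ℝ) - 1) ^ 2 / Fintype.card V) =
          Run7.h259.BEC.cond ψ * (((N : ℝ) - 1) / Fintype.card V) ^ 2 := by
        rw [cond_eq]; field_simp
      have f2 : (((N : ℝ) - 1) / Fintype.card V) ^ 2 ≤ (N / Fintype.card V) ^ 2 := by
        refine pow_le_pow_left₀ (div_nonneg (by linarith) hn.le) ?_ 2
        exact div_le_div_of_nonneg_right (by linarith) hn.le
      rw [f1]
      calc Run7.h259.BEC.cond ψ * (((N : ℝ) - 1) / Fintype.card V) ^ 2 ≤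
          Run7.h259.BEC.cond ψ * (N / Fintype.card V) ^ 2 :=
            mul_le_mul_of_nonneg_left f2 (cond_nonneg ψ)
        _ ≤ N * (ψ ⬝ᵥ ψ) * (N / Fintype.card V) ^ 2 :=
            mul_le_mul_of_nonneg_right (cond_le hψ) (sq_nonneg _)
        _ = _ := by ring
    have h5 := mul_le_mul_of_nonneg_left h4 (sq_nonneg B)
    have h6 := mul_le_mul_of_nonneg_left hcl1 (by positivity : 0 ≤ 2 * κ)
    have h7 : 4 * κ * (k * B) * T = 2 * κ * (2 * (k * B) * T) := by ring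
    rw [h7]
    have h8 : κ * ((N - 1) / Fintype.card V) * Run7.h259.BEC.cond ψ =
      κ * ((N - 1) / Fintype.card V * Run7.h259.BEC.cond ψ) := by ring
    rw [h8]
    linarith

end Run7.h543.DEP
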