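import Pool.Agent.Run7.h543.DEP.G3

/-!
# States and Gibbs states, with a pair repulsion
-/

set_option autoImplicit false
set_option linter.unusedSectionVars false

noncomputable section

namespace Run7.h543.DEP

open Finset Matrix Run7.h259.BEC

section cone
variable {n g N kk ν c κ B τ W X cnd R W' X' cnd' R' : ℝ}

lemma Ineqs.zero : Ineqs n g N kk ν c κ B τ 0 0 0 0 := by
  constructor <;> simp

lemma Ineqs.add (h : Ineqs n g N kk ν c κ B τ W X cnd R)
    (h' : Ineqs n g N kk ν c κ B τ W' X' cnd' R') :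
    Ineqs n g N kk ν c κ B τ (W + W') (X + X') (cnd + cnd') (R + R') := by
  refine ⟨add_nonneg h.R0 h'.R0, ?_, ?_, ?_⟩
  · have h1 := add_le_add h.en h'.en
    refine le_trans (le_of_eq ?_) h1
    ring
  · have h1 := add_le_add h.up h'.up
    refine le_trans (le_of_eq ?_) (h1.trans (le_of_eq ?_)) <;> ring
  · have h1 := add_le_add h.lo h'.lo
    refine le_trans (le_of_eq ?_) (h1.trans (le_of_eq ?_)) <;> ring

lemma Ineqs.smul {p : ℝ} (hp : 0 ≤ p) (h : Ineqs n g N kk ν c κ B τ W X cnd R) :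
    Ineqs n g N kk ν c κ B τ (p * W) (p * X) (p * cnd) (p * R) := by
  refine ⟨mul_nonneg hp h.R0, ?_, ?_, ?_⟩
  · have h1 := mul_le_mul_of_nonneg_left h.en hp
    refine le_trans (le_of_eq ?_) h1
    ring
  · have h1 := mul_le_mul_of_nonneg_left h.up hp
    refine le_trans (le_of_eq ?_) (h1.trans (le_of_eq ?_)) <;> ring
  · have h1 := mul_le_mul_of_nonneg_left h.lo hp
    refine le_trans (le_of_eq ?_) (h1.trans (le_of_eq ?_)) <;> ring

lemma Ineqs.mean {m : ℕ} (p X cnd R : Fin m → ℝ) (hp : ∀ i, 0 ≤ p i)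
    (h : ∀ i, Ineqs n g N kk ν c κ B τ 1 (X i) (cnd i) (R i)) (s : Finset (Fin m)) :
    Ineqs n g N kk ν c κ B τ (∑ i ∈ s, p i) (∑ i ∈ s, p i * X i) (∑ i ∈ s, p i * cnd i)
      (∑ i ∈ s, p i * R i) := by
  induction s using Finset.induction_on with
  | empty => simpa using Ineqs.zero
  | insert i s hi ih =>
    rw [sum_insert hi, sum_insert hi, sum_insert hi, sum_insert hi]
    have h1 := (h i).smul (hp i)
    rw [mul_one] at h1
    exact h1.add ih

end cone

variable {V : Type} [Fintype V] [DecidableEq V]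

/-- the energy `∑ L(x, y) ⟨a_x ψ, a_y ψ⟩` plus the pair energy -/
def energyW (t w : V → V → ℝ) (ψ : Finset V → ℂ) : ℝ :=
  energyT t ψ + ∑ S, pairW w S * ‖ψ S‖ ^ 2

lemma energyW_eq (t w : V → V → ℝ) (ψ : Finset V → ℂ) :
    energyW t w ψ = (kin t (rp ψ) + potR w (rp ψ)) + (kin t (ip ψ) + potR w (ip ψ)) := by
  unfold energyW
  have h1 : ∑ S, pairW w S * ‖ψ S‖ ^ 2 = potR w (rp ψ) + potR w (ip ψ) := by
    unfold potR
    rw [← sum_add_distrib]
    refine sum_congr rfl fun S _ => ?_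
    rw [Complex.sq_norm, Complex.normSq_apply]
    simp only [rp, ip]
    ring
  rw [h1, energyT_eq]; ring

lemma energyW_of_real (t w : V → V → ℝ) (ψ : Finset V → ℝ) :
    energyW t w (fun S => (ψ S : ℂ)) = kin t ψ + potR w ψ := by
  unfold energyW
  rw [energy_of_real]
  congr 1
  unfold potR
  refine sum_congr rfl fun S _ => ?_
  rw [Complex.norm_real, Real.norm_eq_abs, sq_abs]

lemma excl_rp {Hd : V → V → Prop} {ψ : Finset V → ℂ} (h : Excl Hd ψ) : Excl Hd (rp ψ) := by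
  intro S hS
  simp only [rp, h S hS, Complex.zero_re]

lemma excl_ip {Hd : V → V → Prop} {ψ : Finset V → ℂ} (h : Excl Hd ψ) : Excl Hd (ip ψ) := by
  intro S hS
  simp only [ip, h S hS, Complex.zero_im]

lemma excl_of_real {Hd : V → V → Prop} {ψ : Finset V → ℝ} (h : Excl Hd ψ) :
    Excl Hd (fun S => (ψ S : ℂ)) := by
  intro S hS
  simp only [h S hS, Complex.ofReal_zero]

lemma potR_nonneg {w : V → V → ℝ} (hw : ∀ x y, 0 ≤ w x y) (ψ : Finset V → ℝ) :
    0 ≤ potR w ψ := by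
  unfold potR pairW
  refine sum_nonneg fun S _ => mul_nonneg ?_ (sq_nonneg _)
  refine sum_nonneg fun x _ => sum_nonneg fun y _ => ?_
  split_ifs
  · exact le_rfl
  · exact div_nonneg (hw x y) two_pos.le

/-- the inequalities satisfied by the energy `X` and the number `cnd` of particles in the
condensate, in every state of `N` particles -/
structure AdmG (t w : V → V → ℝ) (Hd : V → V → Prop) (g : ℝ) (k N : ℕ)
    (X cnd : ℝ) : Prop where
  gap : g * (N - cnd) ≤ X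
  nonneg : 0 ≤ cnd
  le : cnd ≤ N
  low : ∀ (ν c κ B τ : ℝ) (U : Matrix V V ℝ), 0 < ν → 0 ≤ c → 0 ≤ κ → 0 ≤ B → 0 < τ → τ ≤ 1 →
    KProfile t w Hd ν c κ B U → ∃ R : ℝ, Ineqs (Fintype.card V) g N k ν c κ B τ 1 X cnd R

theorem admG_state {t w : V → V → ℝ} {Hd : V → V → Prop} [DecidableRel Hd] {D g : ℝ} {k : ℕ}
    (hg : 0 < g) (ht : IsHopping t D)
    (hgap : HasGapT t g) (hw : IsRep w Hd k) {N : ℕ} (hN1 : 1 ≤ N) (hN : N ≤ Fintype.card V)
    {ψ : Finset V → ℂ} (hψ : IsState N ψ) (hex : Excl Hd ψ) :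
    AdmG t w Hd g k N (energyW t w ψ) (condensate ψ) := by
  have hV : Nonempty V := Fintype.card_pos_iff.1 (by omega)
  have hr := part_rp hψ.1
  have hi := part_ip hψ.1
  have hW : rp ψ ⬝ᵥ rp ψ + ip ψ ⬝ᵥ ip ψ = 1 := by rw [← norm_sq_sum]; exact hψ.2
  refine ⟨?_, ?_, ?_, ?_⟩
  · have h1 := gap_kin ht.symm hgap hr
    have h2 := gap_kin ht.symm hgap hi
    have h4 := potR_nonneg hw.wnonneg (rp ψ)
    have h5 := potR_nonneg hw.wnonneg (ip ψ)
    rw [energyW_eq, condensate_eq]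
    have h3 : g * ((N : ℝ) - (Run7.h259.BEC.cond (rp ψ) + Run7.h259.BEC.cond (ip ψ))) =
        g * (N * (rp ψ ⬝ᵥ rp ψ) - Run7.h259.BEC.cond (rp ψ)) +
        g * (N * (ip ψ ⬝ᵥ ip ψ) - Run7.h259.BEC.cond (ip ψ)) := by
      linear_combination (-(g * N)) * hW
    rw [h3]
    linarith
  · rw [condensate_eq]
    exact add_nonneg (cond_nonneg _) (cond_nonneg _)
  · rw [condensate_eq]
    have h1 := cond_le hr
    have h2 := cond_le hi
    have h3 : (N : ℝ) = N * (rp ψ ⬝ᵥ rp ψ) + N * (ip ψ ⬝ᵥ ip ψ) := by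
      linear_combination (-(N : ℝ)) * hW
    linarith
  · intro ν c κ B τ U hν hc hκ hB hτ hτ1 hP
    obtain ⟨R1, h1⟩ := ineqs_real hg hν ht hgap hw hP hc hκ hB hτ hτ1 hN1 hN hr (excl_rp hex)
    obtain ⟨R2, h2⟩ := ineqs_real hg hν ht hgap hw hP hc hκ hB hτ hτ1 hN1 hN hi (excl_ip hex)
    refine ⟨R1 + R2, ?_⟩
    have h3 := h1.add h2
    rw [hW] at h3
    rw [energyW_eq, condensate_eq]
    exact h3

/-- Gibbs states -/
theorem admG_gibbs {t w : V → V → ℝ} {Hd : V → V → Prop} {g : ℝ} {k N m : ℕ} (hm : 0 < m)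
    (e X cnd : Fin m → ℝ) (T : ℝ)
    (h : ∀ i, AdmG t w Hd g k N (X i) (cnd i)) :
    AdmG t w Hd g k N (gibbs e T X) (gibbs e T cnd) := by
  set Z : ℝ := ∑ i, Real.exp (-e i / T) with hZ
  have hZ0 : 0 < Z := by
    have : Nonempty (Fin m) := ⟨⟨0, hm⟩⟩
    exact sum_pos (fun i _ => Real.exp_pos _) univ_nonempty
  have hp : ∀ i, 0 ≤ Real.exp (-e i / T) / Z := fun i => div_nonneg (Real.exp_pos _).le hZ0.le
  have hp1 : ∑ i, Real.exp (-e i / T) / Z = 1 := by rw [← sum_div, ← hZ, div_self hZ0.ne']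
  have h2 : ∀ q : Fin m → ℝ, gibbs e T q = ∑ i, Real.exp (-e i / T) / Z * q i := by
    intro q
    unfold gibbs
    rw [← hZ, sum_div]
    exact sum_congr rfl fun i _ => by ring
  rw [h2, h2]
  set p : Fin m → ℝ := fun i => Real.exp (-e i / T) / Z with hpdef
  have hle : ∑ i, p i * cnd i ≤ N := by
    have h1 : ∑ i, p i * cnd i ≤ ∑ i, p i * (N : ℝ) :=
      sum_le_sum fun i _ => mul_le_mul_of_nonneg_left (h i).le (hp i)
    rw [← sum_mul, hp1, one_mul] at h1
    exact h1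
  refine ⟨?_, ?_, hle, ?_⟩
  · have h1 : ∑ i, p i * (g * (N - cnd i)) ≤ ∑ i, p i * X i :=
      sum_le_sum fun i _ => mul_le_mul_of_nonneg_left (h i).gap (hp i)
    refine le_trans (le_of_eq ?_) h1
    have h3 : ∀ i, p i * (g * (N - cnd i)) = g * N * p i - g * (p i * cnd i) := by
      intro i; ring
    simp_rw [h3]
    rw [sum_sub_distrib, ← mul_sum, ← mul_sum, hp1]; ring
  · exact sum_nonneg fun i _ => mul_nonneg (hp i) (h i).nonneg
  · intro ν c κ B τ U hν hc hκ hB hτ hτ1 hP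
    choose R hR using fun i => (h i).low ν c κ B τ U hν hc hκ hB hτ hτ1 hP
    refine ⟨∑ i, p i * R i, ?_⟩
    have h3 := Ineqs.mean p X cnd R hp hR univ
    rw [hp1] at h3
    exact h3

end Run7.h543.DEP
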