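import Pool.Agent.Run7.h543.DEP.G4

/-!
# Real-variable lemmas of the final step, with a pair repulsion
-/

set_option autoImplicit false
set_option linter.unusedSectionVars false

noncomputable section

namespace Run7.h543.DEP

open Finset Matrix Run7.h259.BEC

/-- the error of the energy -/
def errE (g K0 c Q kk B ν ρ : ℝ) : ℝ :=
  (ν + 2 * ν ^ 2 / g) * K0 +
    (c * Q + 2 * (c * (kk * B) + (ν + 2 * ν ^ 2 / g) * B ^ 2) * (1 + Q)) * ρ

/-- the error of the depletion -/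
def errG (K0 Q kk B : ℝ) : ℝ :=
  4 * B ^ 2 * (1 + Q) + K0 * Q + 4 * K0 * (kk * B) * (1 + Q) + B ^ 2

section
variable {n g N kk ν c κ B τ X cnd R ρ M r e Q K0 : ℝ}

/-- the bounds of the quadratic terms -/
lemma basic (hn : 0 < n) (hN : 1 ≤ N) (hρ : ρ = N / n) (hM : M = (N - 1) / n * N)
    (hr : r = ρ * N) (hc0 : 0 ≤ cnd) (hcN : cnd ≤ N) (hnp : N - cnd ≤ Q * r) (hQ : 0 ≤ Q) :
    0 ≤ ρ ∧ 0 ≤ r ∧ 0 ≤ M ∧ M ≤ r ∧ (N - 1) / n * cnd ≤ M ∧ M - ρ * Q * r ≤ (N - 1) / n * cnd ∧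
    0 ≤ (N / n) ^ 2 * N * 1 + N / n * (N * 1 - cnd) ∧
    (N / n) ^ 2 * N * 1 + N / n * (N * 1 - cnd) ≤ ρ * (1 + Q) * r := by
  have hρ0 : 0 ≤ ρ := by rw [hρ]; exact div_nonneg (by linarith) hn.le
  have hr0 : 0 ≤ r := by rw [hr]; exact mul_nonneg hρ0 (by linarith)
  have hk0 : 0 ≤ (N - 1) / n := div_nonneg (by linarith) hn.le
  have hkρ : (N - 1) / n ≤ ρ := by rw [hρ]; exact div_le_div_of_nonneg_right (by linarith) hn.le
  have hnp0 : 0 ≤ N - cnd := by linarith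
  have h5 : (N - 1) / n * (N - cnd) ≤ ρ * (Q * r) := mul_le_mul hkρ hnp hnp0 hρ0
  have h6 : ρ * (N - cnd) ≤ ρ * (Q * r) := mul_le_mul_of_nonneg_left hnp hρ0
  refine ⟨hρ0, hr0, ?_, ?_, ?_, ?_, ?_, ?_⟩
  · rw [hM]; exact mul_nonneg hk0 (by linarith)
  · rw [hM, hr]; exact mul_le_mul_of_nonneg_right hkρ (by linarith)
  · rw [hM]; exact mul_le_mul_of_nonneg_left hcN hk0
  · rw [hM]; linarith
  · rw [← hρ]
    have : 0 ≤ ρ ^ 2 * N * 1 := by
      have := mul_nonneg (sq_nonneg ρ) (by linarith : 0 ≤ N)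
      linarith
    have h7 := mul_nonneg hρ0 hnp0
    rw [mul_one N]
    linarith
  · rw [← hρ, mul_one N]
    have h7 : ρ ^ 2 * N * 1 = ρ * r := by rw [hr]; ring
    rw [h7]
    linarith

lemma en_low (hg : 0 < g) (hn : 0 < n) (hN : 1 ≤ N) (hρ : ρ = N / n)
    (hM : M = (N - 1) / n * N)
    (hr : r = ρ * N) (hν : 0 < ν) (hc : 0 ≤ c) (hκ : 0 ≤ κ) (hκK : κ ≤ K0) (hB : 0 ≤ B)
    (hkk : 0 ≤ kk) (hc0 : 0 ≤ cnd) (hcN : cnd ≤ N) (hnp : N - cnd ≤ Q * r) (hQ : 0 ≤ Q)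
    (h : Ineqs n g N kk ν c κ B τ 1 X cnd R) :
    c * M - errE g K0 c Q kk B ν ρ * r + g / 2 * R ≤ X := by
  obtain ⟨hρ0, hr0, hM0, hMr, h1, h2, hT0, hT⟩ := basic hn hN hρ hM hr hc0 hcN hnp hQ
  have h3 := h.en
  set ν' : ℝ := ν + 2 * ν ^ 2 / g with hν'
  have hν'0 : 0 ≤ ν' := by positivity
  set T : ℝ := (N / n) ^ 2 * N * 1 + N / n * (N * 1 - cnd) with hTd
  set k₁ : ℝ := c * (kk * B) + ν' * B ^ 2 with hk₁
  have hk₁0 : 0 ≤ k₁ := by
    have := mul_nonneg hc (mul_nonneg hkk hB)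
    positivity
  set q : ℝ := (N - 1) / n * cnd with hq
  have e1 : (c - ν' * κ) * ((N - 1) / n) * cnd = c * q - ν' * (κ * q) := by rw [hq]; ring
  rw [e1] at h3
  have hK0 : 0 ≤ K0 := hκ.trans hκK
  have e2 : κ * q ≤ K0 * r :=
    (mul_le_mul_of_nonneg_left (h1.trans hMr) hκ).trans (mul_le_mul_of_nonneg_right hκK hr0)
  have e3 := mul_le_mul_of_nonneg_left e2 hν'0
  have e4 := mul_le_mul_of_nonneg_left h2 hc
  have e5 : 2 * k₁ * T ≤ 2 * k₁ * (ρ * (1 + Q) * r) :=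
    mul_le_mul_of_nonneg_left hT (by linarith)
  have e6 : errE g K0 c Q kk B ν ρ * r = ν' * (K0 * r) + c * (ρ * Q * r) +
      2 * k₁ * (ρ * (1 + Q) * r) := by
    unfold errE; rw [← hν', ← hk₁]; ring
  rw [e6]
  linarith

lemma dep_conc (hg : 0 < g) (hn : 0 < n) (hN : 1 ≤ N) (hρ : ρ = N / n)
    (hM : M = (N - 1) / n * N)
    (hr : r = ρ * N) (hν : 0 < ν) (hc : 0 ≤ c) (hκ : 0 ≤ κ) (hκK : κ ≤ K0) (hB : 0 ≤ B)
    (hkk : 0 ≤ kk) (hτ : 0 < τ) (hτ1 : τ ≤ 1)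
    (hc0 : 0 ≤ cnd) (hcN : cnd ≤ N) (hnp : N - cnd ≤ Q * r) (hQ : 0 ≤ Q)
    (h : Ineqs n g N kk ν c κ B τ 1 X cnd R) (hX : X ≤ c * M + e * r) :
    |N - cnd - κ * M| ≤
      (τ * K0 + errG K0 Q kk B * ρ + (1 + 1 / τ) * (2 / g * (e + errE g K0 c Q kk B ν ρ))) * r := by
  obtain ⟨hρ0, hr0, hM0, hMr, h1, h2, hT0, hT⟩ := basic hn hN hρ hM hr hc0 hcN hnp hQ
  have hE := en_low hg hn hN hρ hM hr hν hc hκ hκK hB hkk hc0 hcN hnp hQ h
  set E0 : ℝ := errE g K0 c Q kk B ν ρ with hE0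
  set F : ℝ := 2 / g * (e + E0) with hF
  have hRF : R ≤ F * r := by
    have h3 : g / 2 * R ≤ g / 2 * (F * r) := by
      have : g / 2 * (F * r) = (e + E0) * r := by rw [hF]; field_simp
      rw [this]; linarith
    exact le_of_mul_le_mul_left h3 (by positivity)
  have hFr : 0 ≤ F * r := h.R0.trans hRF
  have hup := h.up
  have hlo := h.lo
  set T : ℝ := (N / n) ^ 2 * N * 1 + N / n * (N * 1 - cnd) with hTd
  set q : ℝ := (N - 1) / n * cnd with hq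
  have hK0 : 0 ≤ K0 := hκ.trans hκK
  have f1 : κ * ((N - 1) / n) * cnd = κ * q := by rw [hq]; ring
  have f2 : (N / n) ^ 2 * N * 1 = ρ * r := by rw [hr, hρ]; ring
  have f3 : κ * M ≤ K0 * r := (mul_le_mul_of_nonneg_left hMr hκ).trans
    (mul_le_mul_of_nonneg_right hκK hr0)
  have f4 : 0 ≤ κ * M := mul_nonneg hκ hM0
  rw [f1, mul_one N] at hup hlo
  rw [f2] at hlo
  have hρr : 0 ≤ ρ * r := mul_nonneg hρ0 hr0
  have hρQr : 0 ≤ ρ * (1 + Q) * r := by positivity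
  have h1τ : 0 ≤ 1 - τ := by linarith
  have hit : 0 ≤ 1 / τ := by positivity
  rw [abs_le]
  constructor
  · -- the lower bound
    have g1 : κ * M - (K0 * Q * ρ * r + 4 * K0 * (kk * B) * (ρ * (1 + Q) * r) + B ^ 2 * (ρ * r)) ≤
        κ * q - 4 * κ * (kk * B) * T - B ^ 2 * (ρ * r) := by
      have g2 := mul_le_mul_of_nonneg_left h2 hκ
      have g3 : κ * (ρ * Q * r) ≤ K0 * (ρ * Q * r) :=
        mul_le_mul_of_nonneg_right hκK (by positivity)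
      have g4 : 4 * κ * (kk * B) * T ≤ 4 * K0 * (kk * B) * (ρ * (1 + Q) * r) := by
        refine mul_le_mul ?_ hT hT0 (by positivity)
        refine mul_le_mul_of_nonneg_right ?_ (by positivity)
        linarith
      linarith
    set J : ℝ := K0 * Q * ρ * r + 4 * K0 * (kk * B) * (ρ * (1 + Q) * r) + B ^ 2 * (ρ * r) with hJ
    have hJ0 : 0 ≤ J := by positivity
    have g5 := mul_le_mul_of_nonneg_left g1 h1τ
    have g6 : (1 - τ) * (κ * M - J) = κ * M - τ * (κ * M) - J + τ * J := by ring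
    have g7 : 0 ≤ τ * J := by positivity
    have g8 : τ * (κ * M) ≤ τ * (K0 * r) := mul_le_mul_of_nonneg_left f3 hτ.le
    have g9 : 1 / τ * R ≤ 1 / τ * (F * r) := mul_le_mul_of_nonneg_left hRF hit
    have g10 : (τ * K0 + errG K0 Q kk B * ρ + (1 + 1 / τ) * F) * r =
        τ * (K0 * r) + J + 4 * B ^ 2 * (ρ * (1 + Q) * r) + F * r + 1 / τ * (F * r) := by
      rw [hJ]; unfold errG; ring
    have g11 : 0 ≤ 4 * B ^ 2 * (ρ * (1 + Q) * r) := by positivity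
    rw [g10]
    linarith
  · -- the upper bound
    have g1 : κ * q ≤ κ * M := mul_le_mul_of_nonneg_left h1 hκ
    have g2 : 2 * B ^ 2 * T ≤ 2 * B ^ 2 * (ρ * (1 + Q) * r) :=
      mul_le_mul_of_nonneg_left hT (by positivity)
    set S : ℝ := ρ * (1 + Q) * r with hS
    have g3 : (1 + τ) * (κ * q + 2 * B ^ 2 * T) ≤ (1 + τ) * (κ * M + 2 * B ^ 2 * S) :=
      mul_le_mul_of_nonneg_left (by linarith) (by linarith)
    have g4 : (1 + τ) * (κ * M + 2 * B ^ 2 * S) ≤ κ * M + τ * (K0 * r) + 4 * B ^ 2 * S := by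
      have e1 : (1 + τ) * (κ * M + 2 * B ^ 2 * S) = κ * M + τ * (κ * M) + (1 + τ) * (2 * B ^ 2 * S) := by
        ring
      have e2 : τ * (κ * M) ≤ τ * (K0 * r) := mul_le_mul_of_nonneg_left f3 hτ.le
      have e3 : (1 + τ) * (2 * B ^ 2 * S) ≤ 2 * (2 * B ^ 2 * S) :=
        mul_le_mul_of_nonneg_right (by linarith) (by positivity)
      linarith
    have g9 : (1 + 1 / τ) * R ≤ (1 + 1 / τ) * (F * r) :=
      mul_le_mul_of_nonneg_left hRF (by linarith)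
    have g10 : (τ * K0 + errG K0 Q kk B * ρ + (1 + 1 / τ) * F) * r =
        τ * (K0 * r) + 4 * B ^ 2 * S + K0 * Q * (ρ * r) + 4 * K0 * (kk * B) * S +
          B ^ 2 * (ρ * r) + (1 + 1 / τ) * (F * r) := by
      rw [hS]; unfold errG; ring
    have g11 : 0 ≤ K0 * Q * (ρ * r) := by positivity
    have g12 : 0 ≤ 4 * K0 * (kk * B) * S := by positivity
    have g13 : 0 ≤ B ^ 2 * (ρ * r) := by positivity
    rw [g10]
    linarith

end

/-- the comparison of the coefficient of the depletion -/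
lemma kap_close {V : Type} [Fintype V] (u p : V → ℝ) (κν κ η K0 τ : ℝ) (hτ : 0 < τ)
    (h1 : ∑ x, u x ^ 2 = κν) (h2 : ∑ x, p x ^ 2 = κ) (h3 : ∑ x, (u x - p x) ^ 2 ≤ η)
    (hK : κ ≤ K0) (hK' : κν ≤ K0) : |κν - κ| ≤ τ * K0 + (1 + 1 / τ) * η := by
  have hit : 0 ≤ 1 + 1 / τ := by positivity
  have h4 := mul_le_mul_of_nonneg_left h3 hit
  have e1 : κν ≤ (1 + τ) * κ + (1 + 1 / τ) * ∑ x, (u x - p x) ^ 2 := by
    rw [← h1, ← h2, mul_sum, mul_sum, ← sum_add_distrib]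
    refine sum_le_sum fun x _ => ?_
    have := young_up (p := -p x) (q := u x - p x) hτ
    have e2 : (u x - p x - -p x) ^ 2 = u x ^ 2 := by ring
    rw [e2, neg_sq] at this
    exact this
  have e2 : κ ≤ (1 + τ) * κν + (1 + 1 / τ) * ∑ x, (u x - p x) ^ 2 := by
    rw [← h1, ← h2, mul_sum, mul_sum, ← sum_add_distrib]
    refine sum_le_sum fun x _ => ?_
    have := young_up (p := u x) (q := u x - p x) hτ
    have e2 : (u x - p x - u x) ^ 2 = p x ^ 2 := by ring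
    rw [e2] at this
    exact this
  have e3 : τ * κ ≤ τ * K0 := mul_le_mul_of_nonneg_left hK hτ.le
  have e4 : τ * κν ≤ τ * K0 := mul_le_mul_of_nonneg_left hK' hτ.le
  rw [abs_le]
  constructor <;> linarith

end Run7.h543.DEP
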