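import Pool.Agent.Run7.h543.DEP.G5

/-!
# The choice of the parameters, with a pair repulsion
-/

set_option autoImplicit false
set_option linter.unusedSectionVars false

noncomputable section

namespace Run7.h543.DEP

open Finset Matrix Run7.h259.BEC

lemma KProfile.mono {V : Type} [Fintype V] [DecidableEq V] {t w : V → V → ℝ}
    {Hd : V → V → Prop} {ν c κ B B' : ℝ} {U : Matrix V V ℝ}
    (h : KProfile t w Hd ν c κ B U) (hB : B ≤ B') : KProfile t w Hd ν c κ B' U :=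
  ⟨h.symm, h.nonneg, h.le_one, fun x => (h.row x).trans hB, h.hard, h.soft, h.charge, h.total,
    h.sq⟩

lemma kap_up {V : Type} [Fintype V] (u p : V → ℝ) (κν κ η : ℝ)
    (h1 : ∑ x, u x ^ 2 = κν) (h2 : ∑ x, p x ^ 2 = κ) (h3 : ∑ x, (u x - p x) ^ 2 ≤ η) :
    κν ≤ 2 * κ + 2 * η := by
  have e1 : κν ≤ 2 * κ + 2 * ∑ x, (u x - p x) ^ 2 := by
    rw [← h1, ← h2, mul_sum, mul_sum, ← sum_add_distrib]
    refine sum_le_sum fun x _ => ?_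
    linarith [sq_nonneg (u x - 2 * p x)]
  linarith

/-- the error constants -/
structure Consts (D g ε k C0 K1 K0 Q τ a ν B A1 A2 A3 A4 A5 ρ₀ δ : ℝ) : Prop where
  hC0 : C0 = 2 * k * (D + 1)
  hK1 : K1 = C0 / g
  hK0 : K0 = 2 * K1 + 2
  hQ : Q = (C0 + 1) / g
  hτ0 : 0 < τ
  hτ1 : τ ≤ 1
  hτK : τ * K0 ≤ ε / 8
  ha : a = 1 + 1 / τ
  hν0 : 0 < ν
  hν1 : ν ≤ 1
  hn1 : a * (2 / g * ((1 + 2 / g) * ν * K0)) ≤ ε / 8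
  hn2 : (1 + 2 / g) * ν * K0 ≤ ε / 8
  hn3 : a * (2 / g * (ν * K1)) ≤ ε / 8
  hn4 : ν * K1 ≤ ε / 8
  hB : B = k * (D + 1) / ν + 1
  hA1 : A1 = C0 * Q + 2 * (C0 * (k * B) + (1 + 2 / g) * B ^ 2) * (1 + Q)
  hA2 : A2 = errG K0 Q k B
  hA3 : A3 = 4 * C0 * B + 16 * D * B ^ 2
  hA4 : A4 = 2 * B ^ 2 * (1 + K1) + 4 * B * C0 / g
  hA5 : A5 = 2 * B * C0
  hρ0 : 0 < ρ₀
  hρ2 : ρ₀ ≤ 1 / 2
  hρk : k * ρ₀ < 1
  hρB : 4 * B * ρ₀ ≤ 1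
  hρA : (A2 + a * (2 / g * (A1 + A3)) + a * A4 + A1 + A3 + A5) * ρ₀ ≤ ε / 8
  hδ0 : 0 < δ
  hδ1 : δ ≤ 1 / 4
  hδ2 : a * (2 / g * δ) ≤ ε / 8

lemma consts_exist (D g ε k : ℝ) (hD : 0 < D) (hg : 0 < g) (hε : 0 < ε) (hk : 0 ≤ k) :
    ∃ C0 K1 K0 Q τ a ν B A1 A2 A3 A4 A5 ρ₀ δ : ℝ,
      Consts D g ε k C0 K1 K0 Q τ a ν B A1 A2 A3 A4 A5 ρ₀ δ := by
  obtain ⟨C0, hC0⟩ : ∃ C0 : ℝ, C0 = 2 * k * (D + 1) := ⟨_, rfl⟩
  have hC00 : 0 ≤ C0 := by rw [hC0]; positivity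
  obtain ⟨K1, hK1⟩ : ∃ K1 : ℝ, K1 = C0 / g := ⟨_, rfl⟩
  have hK10 : 0 ≤ K1 := by rw [hK1]; positivity
  obtain ⟨K0, hK0⟩ : ∃ K0 : ℝ, K0 = 2 * K1 + 2 := ⟨_, rfl⟩
  have hK00 : 0 < K0 := by rw [hK0]; positivity
  have hK10' : K1 ≤ K0 := by rw [hK0]; linarith
  obtain ⟨Q, hQ⟩ : ∃ Q : ℝ, Q = (C0 + 1) / g := ⟨_, rfl⟩
  have hQ0 : 0 < Q := by rw [hQ]; positivity
  obtain ⟨τ, hτ0, hτ1, hτK⟩ : ∃ τ : ℝ, 0 < τ ∧ τ ≤ 1 ∧ τ * K0 ≤ ε / 8 := by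
    refine ⟨min 1 (ε / 8 / K0), by positivity, min_le_left _ _, ?_⟩
    have := min_le_right 1 (ε / 8 / K0)
    rwa [le_div_iff₀ hK00] at this
  obtain ⟨a, ha⟩ : ∃ a : ℝ, a = 1 + 1 / τ := ⟨_, rfl⟩
  have hit : 0 < 1 / τ := by positivity
  have ha1 : 1 ≤ a := by rw [ha]; linarith
  have ha0 : 0 < a := by linarith
  obtain ⟨s, hs⟩ : ∃ s : ℝ, s = 2 / g := ⟨_, rfl⟩
  have hs0 : 0 < s := by rw [hs]; positivity
  have hb0 : 0 < a * ((1 + s) * (1 + s)) * K0 := by positivity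
  obtain ⟨ν, hν0, hν1, hνK⟩ : ∃ ν : ℝ, 0 < ν ∧ ν ≤ 1 ∧
      ν * (a * ((1 + s) * (1 + s)) * K0) ≤ ε / 8 := by
    refine ⟨min 1 (ε / 8 / (a * ((1 + s) * (1 + s)) * K0)), by positivity, min_le_left _ _, ?_⟩
    have := min_le_right 1 (ε / 8 / (a * ((1 + s) * (1 + s)) * K0))
    rwa [le_div_iff₀ hb0] at this
  have hn1 : a * (s * ((1 + s) * ν * K0)) ≤ ε / 8 := by
    have : 0 ≤ a * (1 + s) * K0 * ν := by positivity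
    linarith
  have hn2 : (1 + s) * ν * K0 ≤ ε / 8 := by
    have h1 : 0 ≤ s * (1 + s) * K0 * ν := by positivity
    have h2 : 0 ≤ (a - 1) * ((1 + s) * (1 + s) * K0 * ν) :=
      mul_nonneg (by linarith) (by positivity)
    linarith
  have hn3 : a * (s * (ν * K1)) ≤ ε / 8 := by
    have h1 : a * (s * (ν * K1)) ≤ a * (s * (ν * K0)) := by
      refine mul_le_mul_of_nonneg_left ?_ ha0.le
      refine mul_le_mul_of_nonneg_left ?_ hs0.le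
      exact mul_le_mul_of_nonneg_left hK10' hν0.le
    have h2 : 0 ≤ a * (1 + s + s ^ 2) * K0 * ν := by positivity
    linarith
  have hn4 : ν * K1 ≤ ε / 8 := by
    have h1 : ν * K1 ≤ ν * K0 := mul_le_mul_of_nonneg_left hK10' hν0.le
    have h2 : 0 ≤ s * ν * K0 := by positivity
    linarith
  obtain ⟨B, hB⟩ : ∃ B : ℝ, B = k * (D + 1) / ν + 1 := ⟨_, rfl⟩
  have hB0 : 0 < B := by rw [hB]; positivity
  obtain ⟨A1, hA1⟩ : ∃ A1 : ℝ, A1 = C0 * Q + 2 * (C0 * (k * B) + (1 + s) * B ^ 2) * (1 + Q) :=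
    ⟨_, rfl⟩
  have hA10 : 0 ≤ A1 := by rw [hA1]; positivity
  obtain ⟨A2, hA2⟩ : ∃ A2 : ℝ, A2 = errG K0 Q k B := ⟨_, rfl⟩
  have hA20 : 0 ≤ A2 := by rw [hA2]; unfold errG; positivity
  obtain ⟨A3, hA3⟩ : ∃ A3 : ℝ, A3 = 4 * C0 * B + 16 * D * B ^ 2 := ⟨_, rfl⟩
  have hA30 : 0 ≤ A3 := by rw [hA3]; positivity
  obtain ⟨A4, hA4⟩ : ∃ A4 : ℝ, A4 = 2 * B ^ 2 * (1 + K1) + 4 * B * C0 / g := ⟨_, rfl⟩
  have hA40 : 0 ≤ A4 := by rw [hA4]; positivity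
  obtain ⟨A5, hA5⟩ : ∃ A5 : ℝ, A5 = 2 * B * C0 := ⟨_, rfl⟩
  have hA50 : 0 ≤ A5 := by rw [hA5]; positivity
  obtain ⟨A, hA⟩ : ∃ A : ℝ, A = A2 + a * (s * (A1 + A3)) + a * A4 + A1 + A3 + A5 := ⟨_, rfl⟩
  have hA0 : 0 ≤ A := by rw [hA]; positivity
  obtain ⟨ρ₀, hρ0, hρ2, hρk, hρB, hρA⟩ : ∃ ρ₀ : ℝ, 0 < ρ₀ ∧ ρ₀ ≤ 1 / 2 ∧ k * ρ₀ < 1 ∧
      4 * B * ρ₀ ≤ 1 ∧ A * ρ₀ ≤ ε / 8 := by
    refine ⟨min (min (1 / 2) (1 / (k + 1))) (min (1 / (4 * B)) (ε / 8 / (A + 1))), by positivity,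
      (min_le_left _ _).trans (min_le_left _ _), ?_, ?_, ?_⟩
    · have h1 : min (min (1 / 2) (1 / (k + 1))) (min (1 / (4 * B)) (ε / 8 / (A + 1))) ≤
        1 / (k + 1) := (min_le_left _ _).trans (min_le_right _ _)
      refine lt_of_le_of_lt (mul_le_mul_of_nonneg_left h1 hk) ?_
      rw [mul_one_div, div_lt_one (by positivity)]
      linarith
    · have h1 : min (min (1 / 2) (1 / (k + 1))) (min (1 / (4 * B)) (ε / 8 / (A + 1))) ≤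
        1 / (4 * B) := (min_le_right _ _).trans (min_le_left _ _)
      rw [le_div_iff₀ (by positivity)] at h1
      linarith
    · have h1 : min (min (1 / 2) (1 / (k + 1))) (min (1 / (4 * B)) (ε / 8 / (A + 1))) ≤
        ε / 8 / (A + 1) := (min_le_right _ _).trans (min_le_right _ _)
      have h0 : 0 < min (min (1 / 2) (1 / (k + 1))) (min (1 / (4 * B)) (ε / 8 / (A + 1))) := by
        positivity
      rw [le_div_iff₀ (by positivity)] at h1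
      linarith
  obtain ⟨δ, hδ0, hδ1, hδ2⟩ : ∃ δ : ℝ, 0 < δ ∧ δ ≤ 1 / 4 ∧ a * (s * δ) ≤ ε / 8 := by
    refine ⟨min (1 / 4) (ε / 8 / (a * s)), by positivity, min_le_left _ _, ?_⟩
    have := min_le_right (1 / 4) (ε / 8 / (a * s))
    rw [le_div_iff₀ (by positivity)] at this
    linarith
  rw [hs] at hn1 hn2 hn3 hA1 hA hδ2
  exact ⟨C0, K1, K0, Q, τ, a, ν, B, A1, A2, A3, A4, A5, ρ₀, δ, hC0, hK1, hK0, hQ, hτ0, hτ1, hτK, ha,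
    hν0, hν1, hn1, hn2, hn3, hn4, hB, hA1, hA2, hA3, hA4, hA5, hρ0, hρ2, hρk, hρB,
    by rw [← hA]; exact hρA, hδ0, hδ1, hδ2⟩

end Run7.h543.DEP
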