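import Pool.Agent.Run7.h543.DEP.G6

/-!
# The first-order law for all admissible pairs, with a pair repulsion
-/

set_option autoImplicit false
set_option linter.unusedSectionVars false

noncomputable section

namespace Run7.h543.DEP

open Finset Matrix Run7.h259.BEC

/-- the error of the energy for the chosen constants -/
lemma errE_le {D g ε k C0 K1 K0 Q τ a ν B A1 A2 A3 A4 A5 ρ₀ δ c ρ : ℝ} (hg : 0 < g)
    (hk : 0 ≤ k) (hD : 0 < D)
    (h : Consts D g ε k C0 K1 K0 Q τ a ν B A1 A2 A3 A4 A5 ρ₀ δ) (hc : 0 ≤ c) (hcC : c ≤ C0)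
    (hρ : 0 ≤ ρ) : errE g K0 c Q k B ν ρ ≤ (1 + 2 / g) * ν * K0 + A1 * ρ := by
  have hC0 : 0 ≤ C0 := hc.trans hcC
  have hK1 : 0 ≤ K1 := by rw [h.hK1]; positivity
  have hK0 : 0 ≤ K0 := by rw [h.hK0]; positivity
  have hQ : 0 ≤ Q := by rw [h.hQ]; positivity
  have hν0 := h.hν0
  have hB : 0 ≤ B := by rw [h.hB]; positivity
  have h1 : ν ^ 2 ≤ ν := by
    rw [sq]; exact mul_le_of_le_one_left hν0.le h.hν1
  have h2 : ν + 2 * ν ^ 2 / g ≤ (1 + 2 / g) * ν := by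
    have : 2 * ν ^ 2 / g = 2 / g * ν ^ 2 := by ring
    rw [this]
    have := mul_le_mul_of_nonneg_left h1 (by positivity : 0 ≤ 2 / g)
    linarith
  have h3 : (1 + 2 / g) * ν ≤ 1 + 2 / g := mul_le_of_le_one_right (by positivity) h.hν1
  have h4 : ν + 2 * ν ^ 2 / g ≤ 1 + 2 / g := h2.trans h3
  unfold errE
  refine add_le_add (mul_le_mul_of_nonneg_right h2 hK0) ?_
  refine mul_le_mul_of_nonneg_right ?_ hρ
  rw [h.hA1]
  refine add_le_add (mul_le_mul_of_nonneg_right hcC hQ) ?_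
  refine mul_le_mul_of_nonneg_right ?_ (by linarith)
  refine mul_le_mul_of_nonneg_left ?_ two_pos.le
  exact add_le_add (mul_le_mul_of_nonneg_right hcC (mul_nonneg hk hB))
    (mul_le_mul_of_nonneg_right h4 (sq_nonneg B))

/-- the distance of the two profiles for the chosen constants -/
lemma eta_le {D g ε k C0 K1 K0 Q τ a ν B A1 A2 A3 A4 A5 ρ₀ δ c κ n u ρ : ℝ} (hg : 0 < g)
    (h : Consts D g ε k C0 K1 K0 Q τ a ν B A1 A2 A3 A4 A5 ρ₀ δ) (hc : 0 ≤ c) (hcC : c ≤ C0)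
    (hκ : 0 ≤ κ) (hκK : κ ≤ K1) (hB0 : 0 ≤ B) (hn : 1 ≤ n) (hu : 0 ≤ u) (hun : u * n ≤ B)
    (huρ : u ≤ B * ρ) (hρ : 0 ≤ ρ) :
    2 * u ^ 2 * (n + κ) + 2 * (ν * κ + 2 * u * c) / g ≤ 2 / g * (ν * K1) + A4 * ρ := by
  have hν0 := h.hν0
  have huB : u ≤ B := (le_mul_of_one_le_right hu hn).trans hun
  have h1 : u ^ 2 * n ≤ B ^ 2 * ρ := by
    have : u ^ 2 * n = u * n * u := by ring
    rw [this]
    calc u * n * u ≤ B * (B * ρ) := mul_le_mul hun huρ hu hB0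
      _ = _ := by ring
  have h2 : u ^ 2 * κ ≤ B ^ 2 * ρ * K1 := by
    have h3 : u ^ 2 ≤ B ^ 2 * ρ := by
      rw [sq]
      calc u * u ≤ B * (B * ρ) := mul_le_mul huB huρ hu hB0
        _ = _ := by ring
    exact mul_le_mul h3 hκK hκ (by positivity)
  have h4 : ν * κ ≤ ν * K1 := mul_le_mul_of_nonneg_left hκK hν0.le
  have h5 : u * c ≤ B * ρ * C0 := mul_le_mul huρ hcC hc (by positivity)
  have h6 : 2 * (ν * κ + 2 * u * c) / g ≤ 2 * (ν * K1 + 2 * (B * ρ * C0)) / g := by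
    refine div_le_div_of_nonneg_right ?_ hg.le
    linarith
  have h7 : 2 * (ν * K1 + 2 * (B * ρ * C0)) / g = 2 / g * (ν * K1) + 4 * B * C0 / g * ρ := by
    field_simp; ring
  rw [h7] at h6
  rw [h.hA4]
  have h8 : 2 * u ^ 2 * (n + κ) = 2 * (u ^ 2 * n) + 2 * (u ^ 2 * κ) := by ring
  rw [h8]
  linarith

/-- **The first-order law, for all admissible pairs.** -/
theorem coreG (hKER : S_KER) (hCMP : S_CMP) (hUPG : S_UPG) (D g : ℝ) (k : ℕ) (ε : ℝ)
    (hD : 0 < D) (hg : 0 < g) (hε : 0 < ε) (hε1 : ε ≤ 1) :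
    ∃ ρ₀ δ : ℝ, 0 < ρ₀ ∧ 0 < δ ∧ ρ₀ ≤ 1 / 2 ∧ (k : ℝ) * ρ₀ < 1 ∧
      ∀ (V : Type) [Fintype V] [DecidableEq V] (t w : V → V → ℝ) (Hd : V → V → Prop)
        [DecidableRel Hd], IsHopping t D → HasGapT t g → IsRep w Hd k → Swap t w Hd →
        ∀ N : ℕ, 1 ≤ N → (N : ℝ) ≤ ρ₀ * Fintype.card V →
        ∀ (z : V) (φ : V → ℝ) (c : ℝ), IsScat t w Hd z φ c →
        (∀ X cnd : ℝ, AdmG t w Hd g k N X cnd →
          c * ((N - 1) / Fintype.card V * N) - ε * (N / Fintype.card V * N) ≤ X) ∧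
        ∃ ψ : Finset V → ℝ, Part N ψ ∧ Excl Hd ψ ∧ ψ ⬝ᵥ ψ = 1 ∧
          kin t ψ + potR w ψ ≤ c * ((N - 1) / Fintype.card V * N) +
            ε * (N / Fintype.card V * N) ∧
          ∀ X cnd : ℝ, AdmG t w Hd g k N X cnd →
            X ≤ kin t ψ + potR w ψ + δ * (N / Fintype.card V * N) →
            |N - cnd - (∑ x, (φ x - 1) ^ 2) * ((N - 1) / Fintype.card V * N)| ≤
              ε * (N / Fintype.card V * N) := by
  have hk : (0 : ℝ) ≤ k := Nat.cast_nonneg _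
  obtain ⟨C0, K1, K0, Q, τ, a, ν, B, A1, A2, A3, A4, A5, ρ₀, δ, h⟩ :=
    consts_exist D g ε k hD hg hε hk
  refine ⟨ρ₀, δ, h.hρ0, h.hδ0, h.hρ2, h.hρk, ?_⟩
  intro V _ _ t w Hd _ ht hgap hw hsw N hN1 hNρ z φ c hφ
  have hρ₀0 := h.hρ0
  have hρ₀2 := h.hρ2
  have hν0 := h.hν0
  have hν1 := h.hν1
  have hτ0 := h.hτ0
  have hτ1 := h.hτ1
  have hC00 : 0 ≤ C0 := by rw [h.hC0]; positivity
  have hK10 : 0 ≤ K1 := by rw [h.hK1]; positivity
  have hK00 : 0 < K0 := by rw [h.hK0]; positivity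
  have hQ0 : 0 ≤ Q := by rw [h.hQ]; positivity
  have hB1 : 0 ≤ k * (D + 1) / ν := by positivity
  have hB0 : 0 < B := by rw [h.hB]; linarith
  have hit : 0 < 1 / τ := by positivity
  have ha1 : 1 ≤ a := by rw [h.ha]; linarith
  have ha0 : 0 < a := by linarith
  have hA10 : 0 ≤ A1 := by rw [h.hA1]; positivity
  have hA20 : 0 ≤ A2 := by rw [h.hA2]; unfold errG; positivity
  have hA30 : 0 ≤ A3 := by rw [h.hA3]; positivity
  have hA40 : 0 ≤ A4 := by rw [h.hA4]; positivity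
  have hA50 : 0 ≤ A5 := by rw [h.hA5]; positivity
  -- the size of the volume
  have hN1' : (1 : ℝ) ≤ N := by exact_mod_cast hN1
  have hnpos : (0 : ℝ) < Fintype.card V := by
    by_contra hcon
    have h1 : (Fintype.card V : ℝ) = 0 := le_antisymm (not_lt.1 hcon) (Nat.cast_nonneg _)
    rw [h1, mul_zero] at hNρ
    linarith
  have hNn' : (N : ℝ) ≤ Fintype.card V :=
    hNρ.trans (mul_le_of_le_one_left hnpos.le (by linarith))
  have hNn : N ≤ Fintype.card V := by exact_mod_cast hNn'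
  have hcard1 : 1 ≤ Fintype.card V := hN1.trans hNn
  have hn1 : (1 : ℝ) ≤ Fintype.card V := by exact_mod_cast hcard1
  obtain ⟨ρ, hρ⟩ : ∃ ρ : ℝ, ρ = N / Fintype.card V := ⟨_, rfl⟩
  have hρ0 : 0 ≤ ρ := by rw [hρ]; positivity
  have hρρ₀ : ρ ≤ ρ₀ := by rw [hρ, div_le_iff₀ hnpos]; exact hNρ
  obtain ⟨M, hM⟩ : ∃ M : ℝ, M = (N - 1) / Fintype.card V * N := ⟨_, rfl⟩
  obtain ⟨r, hr⟩ : ∃ r : ℝ, r = ρ * N := ⟨_, rfl⟩
  have hr0 : 0 ≤ r := by rw [hr]; positivity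
  have hM0 : 0 ≤ M := by
    rw [hM]
    exact mul_nonneg (div_nonneg (by linarith) hnpos.le) (by linarith)
  have hMr : M ≤ r := by
    rw [hM, hr, hρ]
    refine mul_le_mul_of_nonneg_right ?_ (by linarith)
    exact div_le_div_of_nonneg_right (by linarith) hnpos.le
  -- the profiles
  obtain ⟨cν, κν, U, hcν0, hcνle, hP⟩ := hKER V t w Hd D k ν hD hν0 ht hw hsw
  obtain ⟨u, hu⟩ : ∃ u : ℝ, u = cν / (ν * Fintype.card V) := ⟨_, rfl⟩
  obtain ⟨hc0, hgκ, hcc1, hcc2, hdist⟩ := hCMP V t w Hd D g k ν cν κν (cν / ν) U hD hg hν0 hcard1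
    ht hgap hw hP z φ c u hφ hu
  obtain ⟨κ, hκ⟩ : ∃ κ : ℝ, κ = ∑ x, (φ x - 1) ^ 2 := ⟨_, rfl⟩
  rw [← hκ] at hgκ hcc2 hdist ⊢
  rw [← hρ, ← hr, ← hM]
  have hκ0 : 0 ≤ κ := by rw [hκ]; exact sum_nonneg fun x _ => sq_nonneg _
  have hκν0 : 0 ≤ κν := by rw [← hP.sq z]; exact sum_nonneg fun x _ => sq_nonneg _
  have hcνB : cν / ν ≤ B := by
    rw [h.hB]
    have h1 : cν / ν ≤ k * (D + 1) / ν := by
      refine div_le_div_of_nonneg_right (hcνle.trans ?_) hν0.le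
      exact mul_le_mul_of_nonneg_left (by linarith) hk
    linarith
  have hu0 : 0 ≤ u := by rw [hu]; positivity
  have hun : u * Fintype.card V ≤ B := by
    have : u * Fintype.card V = cν / ν := by rw [hu]; field_simp
    rw [this]; exact hcνB
  have huρ : u ≤ B * ρ := by
    have h1 : u ≤ B / Fintype.card V := by rw [le_div_iff₀ hnpos]; exact hun
    have h2 : B / Fintype.card V ≤ B * ρ := by
      rw [hρ, div_eq_mul_one_div]
      exact mul_le_mul_of_nonneg_left (div_le_div_of_nonneg_right hN1' hnpos.le) hB0.le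
    exact h1.trans h2
  have hBρ : B * ρ ≤ B * ρ₀ := mul_le_mul_of_nonneg_left hρρ₀ hB0.le
  have hu4 : u ≤ 1 / 4 := by linarith [h.hρB]
  have hcνC : cν ≤ C0 := by
    rw [h.hC0]
    have h1 : (k : ℝ) * (D + ν) ≤ k * (D + 1) := mul_le_mul_of_nonneg_left (by linarith) hk
    have h2 : 0 ≤ (k : ℝ) * (D + 1) := by positivity
    linarith
  have hcC : c ≤ C0 := by
    have h1 : 1 / 2 * c ≤ (1 - 2 * u) * c := mul_le_mul_of_nonneg_right (by linarith) hc0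
    have h2 : (k : ℝ) * (D + ν) ≤ k * (D + 1) := mul_le_mul_of_nonneg_left (by linarith) hk
    rw [h.hC0]
    linarith
  have hκK : κ ≤ K1 := by
    rw [h.hK1, le_div_iff₀ hg]; linarith
  -- the smallness of the errors
  have hAρ : (A2 + a * (2 / g * (A1 + A3)) + a * A4 + A1 + A3 + A5) * ρ ≤ ε / 8 := by
    refine le_trans (mul_le_mul_of_nonneg_left hρρ₀ ?_) h.hρA
    positivity
  have hp1 : 0 ≤ A2 * ρ := mul_nonneg hA20 hρ0
  have hp2 : 0 ≤ a * (2 / g * (A1 + A3)) * ρ := by positivity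
  have hp3 : 0 ≤ a * A4 * ρ := by positivity
  have hp4 : 0 ≤ A1 * ρ := mul_nonneg hA10 hρ0
  have hp5 : 0 ≤ A3 * ρ := mul_nonneg hA30 hρ0
  have hp6 : 0 ≤ A5 * ρ := mul_nonneg hA50 hρ0
  have hAρ' : A2 * ρ + a * (2 / g * (A1 + A3)) * ρ + a * A4 * ρ + A1 * ρ + A3 * ρ + A5 * ρ ≤
      ε / 8 := by
    refine le_trans (le_of_eq ?_) hAρ
    ring
  -- the coefficient of the depletion
  obtain ⟨η, hη⟩ : ∃ η : ℝ, η = 2 / g * (ν * K1) + A4 * ρ := ⟨_, rfl⟩
  have hηd : ∑ x, (U x z - (1 - φ x)) ^ 2 ≤ η := by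
    rw [hη]
    exact hdist.trans (eta_le hg h hc0 hcC hκ0 hκK hB0.le hn1 hu0 hun huρ hρ0)
  have hη0 : 0 ≤ η := le_trans (sum_nonneg fun x _ => sq_nonneg _) hηd
  have haη : a * η ≤ ε / 8 + a * A4 * ρ := by
    rw [hη]
    have := h.hn3
    linarith
  have hη1 : η ≤ 1 := by
    have h1 : η ≤ a * η := le_mul_of_one_le_left hη0 ha1
    linarith
  have hκ2 : ∑ x, (1 - φ x) ^ 2 = κ := by
    rw [hκ]; exact sum_congr rfl fun x _ => by ring
  have hκνK : κν ≤ K0 := by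
    have h1 := kap_up (fun x => U x z) (fun x => 1 - φ x) κν κ η (hP.sq z) hκ2 hηd
    rw [h.hK0]; linarith
  have hκK0 : κ ≤ K0 := by rw [h.hK0]; linarith
  have hκκ : |κν - κ| ≤ τ * K0 + a * η := by
    rw [h.ha]
    exact kap_close (fun x => U x z) (fun x => 1 - φ x) κν κ η K0 τ hτ0 (hP.sq z) hκ2 hηd hκK0
      hκνK
  have hPB := hP.mono hcνB
  -- the coefficient of the energy
  have hcν1 : cν ≤ c + ν * K1 := by
    have := mul_le_mul_of_nonneg_left hκK hν0.le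
    linarith
  have hcν2 : c - A5 * ρ ≤ cν := by
    have h1 : u * c ≤ B * ρ * C0 := mul_le_mul huρ hcC hc0 (by positivity)
    rw [h.hA5]; linarith
  -- the trial state
  obtain ⟨ψ, hψN, hψx, hψ1, hψ⟩ := hUPG V t w Hd D ν cν κν B k U hD hν0 hB0 ht hw hPB N hN1 (by
    have h1 : 4 * B * N ≤ 4 * B * (ρ₀ * Fintype.card V) :=
      mul_le_mul_of_nonneg_left hNρ (by positivity)
    have h2 : 4 * B * (ρ₀ * Fintype.card V) = 4 * B * ρ₀ * Fintype.card V := by ring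
    rw [h2] at h1
    exact h1.trans (mul_le_of_le_one_left hnpos.le h.hρB))
  have hX0 : kin t ψ + potR w ψ ≤ cν * M + A3 * ρ * r := by
    refine hψ.trans ?_
    rw [← hρ]
    have h1 : cν * (N - 1) * ρ * (1 + 4 * B * ρ) + 16 * D * B ^ 2 * ρ ^ 2 * N =
        cν * M + 4 * cν * B * ρ * M + 16 * D * B ^ 2 * ρ * r := by
      rw [hM, hr, hρ]; field_simp
    rw [h1]
    have h2 : 4 * cν * B * ρ * M ≤ 4 * C0 * B * ρ * r := by
      refine mul_le_mul ?_ hMr hM0 (by positivity)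
      refine mul_le_mul_of_nonneg_right (mul_le_mul_of_nonneg_right ?_ hB0.le) hρ0
      linarith
    rw [h.hA3]
    linarith
  -- bound for the number of particles outside
  have hcνM : cν * M ≤ C0 * r := mul_le_mul hcνC hMr hM0 hC00
  have hout : ∀ X cnd : ℝ, AdmG t w Hd g k N X cnd → X ≤ cν * M + r → N - cnd ≤ Q * r := by
    intro X cnd hAdm hX
    have h1 := hAdm.gap
    rw [h.hQ, div_mul_eq_mul_div, le_div_iff₀ hg]
    linarith
  refine ⟨?_, ψ, hψN, hψx, hψ1, ?_, ?_⟩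
  · intro X cnd hAdm
    have h5 : cν * M - (ε / 8 + A1 * ρ) * r ≤ X := by
      rcases le_total X (cν * M + r) with h1 | h1
      · obtain ⟨R, hR⟩ := hAdm.low ν cν κν B τ U hν0 hcν0 hκν0 hB0.le hτ0 hτ1 hPB
        have h2 := en_low hg hnpos hN1' hρ hM hr hν0 hcν0 hκν0 hκνK hB0.le hk hAdm.nonneg hAdm.le
          (hout X cnd hAdm h1) hQ0 hR
        have h3 := mul_le_mul_of_nonneg_right (errE_le hg hk hD h hcν0 hcνC hρ0) hr0
        have h4 := mul_le_mul_of_nonneg_right h.hn2 hr0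
        have h6 : 0 ≤ g / 2 * R := mul_nonneg (by positivity) hR.R0
        linarith
      · have h2 : 0 ≤ (ε / 8 + A1 * ρ) * r := by positivity
        linarith
    have h6 := mul_le_mul_of_nonneg_right hcν2 hM0
    have h7 : A5 * ρ * M ≤ A5 * ρ * r := mul_le_mul_of_nonneg_left hMr hp6
    have h8 : (A1 * ρ + A5 * ρ) * r ≤ ε / 8 * r :=
      mul_le_mul_of_nonneg_right (by linarith) hr0
    have h9 : 0 ≤ ε * r := mul_nonneg hε.le hr0
    linarith
  · have h1 := mul_le_mul_of_nonneg_right hcν1 hM0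
    have h2 : ν * K1 * M ≤ ε / 8 * r := mul_le_mul h.hn4 hMr hM0 (by positivity)
    have h3 : A3 * ρ * r ≤ ε / 8 * r := mul_le_mul_of_nonneg_right (by linarith) hr0
    have h9 : 0 ≤ ε * r := mul_nonneg hε.le hr0
    linarith
  · intro X cnd hAdm hX
    have hX1 : X ≤ cν * M + (δ + A3 * ρ) * r := by linarith
    have hX2 : X ≤ cν * M + r := by
      have h3 : (δ + A3 * ρ) * r ≤ 1 * r :=
        mul_le_mul_of_nonneg_right (by linarith [h.hδ1]) hr0
      linarith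
    have hnp := hout X cnd hAdm hX2
    obtain ⟨R, hR⟩ := hAdm.low ν cν κν B τ U hν0 hcν0 hκν0 hB0.le hτ0 hτ1 hPB
    have h2 := dep_conc hg hnpos hN1' hρ hM hr hν0 hcν0 hκν0 hκνK hB0.le hk hτ0 hτ1 hAdm.nonneg
      hAdm.le hnp hQ0 hR hX1
    have h3 := errE_le hg hk hD h hcν0 hcνC hρ0
    have h4 : a * (2 / g * (δ + A3 * ρ + errE g K0 cν Q k B ν ρ)) ≤
        a * (2 / g * (δ + A3 * ρ + ((1 + 2 / g) * ν * K0 + A1 * ρ))) := by
      refine mul_le_mul_of_nonneg_left ?_ ha0.le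
      exact mul_le_mul_of_nonneg_left (by linarith) (by positivity)
    have h5 : a * (2 / g * (δ + A3 * ρ + ((1 + 2 / g) * ν * K0 + A1 * ρ))) =
        a * (2 / g * δ) + a * (2 / g * ((1 + 2 / g) * ν * K0)) + a * (2 / g * (A1 + A3)) * ρ := by
      ring
    rw [h5] at h4
    rw [← h.ha, ← h.hA2] at h2
    have h6 : τ * K0 + A2 * ρ + a * (2 / g * (δ + A3 * ρ + errE g K0 cν Q k B ν ρ)) ≤
        ε / 8 + A2 * ρ + (ε / 8 + ε / 8 + a * (2 / g * (A1 + A3)) * ρ) := by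
      have := h.hτK
      have := h.hδ2
      have := h.hn1
      linarith
    have h7 := h2.trans (mul_le_mul_of_nonneg_right h6 hr0)
    have h8 : |κν * M - κ * M| ≤ (ε / 8 + (ε / 8 + a * A4 * ρ)) * r := by
      rw [← sub_mul, abs_mul, abs_of_nonneg hM0]
      refine mul_le_mul (hκκ.trans ?_) hMr hM0 (by positivity)
      have := h.hτK
      linarith
    have e1 : (N : ℝ) - cnd - κ * M = (N - cnd - κν * M) + (κν * M - κ * M) := by ring
    rw [e1]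
    refine (abs_add_le _ _).trans ((add_le_add h7 h8).trans ?_)
    rw [← add_mul]
    refine mul_le_mul_of_nonneg_right ?_ hr0
    linarith

end Run7.h543.DEP
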