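import Pool.Agent.Run7.h543.DEP.G7

/-!
# The first-order law for the lattice gas with a pair repulsion
-/

set_option autoImplicit false
set_option linter.unusedSectionVars false

noncomputable section

namespace Run7.h543.DEP

open Finset Matrix Run7.h259.BEC

/-- **The first-order law** for `N` particles on `n` sites with the pair repulsion `w` and the
exclusion `Hd`, with the coefficients `c` of the energy and `κ` of the depletion, up to
`ε N ^ 2 / n`: (1) the ground energy among the wave functions which respect the exclusion is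
`c N (N - 1) / n`, (2) in every such state whose energy is at most `δ N ^ 2 / n` above the ground
energy there are `κ N (N - 1) / n` particles outside of the condensate, (3) the same in the
canonical Gibbs state at every temperature `T` with `T (1 + log (n / N)) ≤ δ N / n` -/
def LawX {V : Type} [Fintype V] [DecidableEq V] (t w : V → V → ℝ) (Hd : V → V → Prop) (N : ℕ)
    (c κ ε δ : ℝ) : Prop :=
  (∀ ψ : Finset V → ℂ, IsState N ψ → Excl Hd ψ →
    c * (N * (N - 1) / Fintype.card V) - ε * (N ^ 2 / Fintype.card V) ≤ energyW t w ψ) ∧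
  (∃ ψ : Finset V → ℂ, IsState N ψ ∧ Excl Hd ψ ∧
    energyW t w ψ ≤ c * (N * (N - 1) / Fintype.card V) + ε * (N ^ 2 / Fintype.card V)) ∧
  (∀ ψ : Finset V → ℂ, IsState N ψ → Excl Hd ψ →
    (∀ φ : Finset V → ℂ, IsState N φ → Excl Hd φ →
      energyW t w ψ ≤ energyW t w φ + δ * (N ^ 2 / Fintype.card V)) →
    |(N - condensate ψ) - κ * (N * (N - 1) / Fintype.card V)| ≤ ε * (N ^ 2 / Fintype.card V)) ∧
  (∀ T : ℝ, 0 < T → T * (1 + Real.log (Fintype.card V / N)) ≤ δ * (N / Fintype.card V) →
    ∀ (m : ℕ) (b : Fin m → Finset V → ℂ) (e : Fin m → ℝ), IsSpecX Hd (energyW t w) N b e →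
    |(N - gibbs e T (fun i => condensate (b i))) - κ * (N * (N - 1) / Fintype.card V)| ≤
      ε * (N ^ 2 / Fintype.card V))

/-- **The general theorem for pair repulsions.** -/
theorem generalX (hKER : S_KER) (hCMP : S_CMP) (hUPG : S_UPG) (hGIX : S_GIX) (hEXI : S_EXI)
    (D g ε : ℝ) (k : ℕ) (hD : 0 < D) (hg : 0 < g) (hε : 0 < ε) :
    ∃ ρ₀ δ : ℝ, 0 < ρ₀ ∧ 0 < δ ∧
      ∀ (V : Type) [Fintype V] [DecidableEq V] (t w : V → V → ℝ) (Hd : V → V → Prop)
        [DecidableRel Hd], IsHopping t D → HasGapT t g → IsRep w Hd k → Swap t w Hd →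
        ∀ N : ℕ, 1 ≤ N → (N : ℝ) ≤ ρ₀ * Fintype.card V → ∀ z : V,
        (∃ (φ : V → ℝ) (c : ℝ), IsScat t w Hd z φ c) ∧
        ∀ (φ : V → ℝ) (c : ℝ), IsScat t w Hd z φ c →
          LawX t w Hd N c (∑ x, (φ x - 1) ^ 2) ε δ := by
  obtain ⟨ρ₀, δ, hρ₀, hδ, hρ₀1, hkρ, h⟩ := coreG hKER hCMP hUPG D g k (min ε 1) hD hg
    (lt_min hε one_pos) (min_le_right _ _)
  refine ⟨ρ₀, δ, hρ₀, hδ, fun V _ _ t w Hd _ ht hgap hw hsw N hN1 hN z => ?_⟩
  have hN1' : (1 : ℝ) ≤ N := by exact_mod_cast hN1
  have hnpos : (0 : ℝ) < Fintype.card V := by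
    by_contra hcon
    have h1 : (Fintype.card V : ℝ) = 0 := le_antisymm (not_lt.1 hcon) (Nat.cast_nonneg _)
    rw [h1, mul_zero] at hN
    linarith
  have hNn : N ≤ Fintype.card V := by
    have h1 : (N : ℝ) ≤ Fintype.card V := hN.trans (mul_le_of_le_one_left hnpos.le (by linarith))
    exact_mod_cast h1
  constructor
  · have hkn : k < Fintype.card V := by
      have h1 : (1 : ℝ) ≤ ρ₀ * Fintype.card V := hN1'.trans hN
      have h2 : (k : ℝ) * 1 ≤ k * (ρ₀ * Fintype.card V) :=
        mul_le_mul_of_nonneg_left h1 (Nat.cast_nonneg _)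
      have h3 : (k : ℝ) * ρ₀ * Fintype.card V < 1 * Fintype.card V :=
        mul_lt_mul_of_pos_right hkρ hnpos
      have h4 : (k : ℝ) < Fintype.card V := by linarith
      exact_mod_cast h4
    exact hEXI V t w Hd D g k hD hg hkn ht hgap hw z
  intro φ c hφ
  obtain ⟨hlow, ψ₀, hψN, hψx, hψ1, hup, hdep⟩ := h V t w Hd ht hgap hw hsw N hN1 hN z φ c hφ
  have eM : ((N : ℝ) - 1) / Fintype.card V * N = N * (N - 1) / Fintype.card V := by
    field_simp
  have er : (N : ℝ) / Fintype.card V * N = N ^ 2 / Fintype.card V := by ring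
  rw [eM, er] at hup
  simp only [eM, er] at hlow hdep
  have hr0 : 0 ≤ (N : ℝ) ^ 2 / Fintype.card V := by positivity
  have hεr : min ε 1 * ((N : ℝ) ^ 2 / Fintype.card V) ≤ ε * (N ^ 2 / Fintype.card V) :=
    mul_le_mul_of_nonneg_right (min_le_left _ _) hr0
  have hstate := state_of_real hψN hψ1
  have hexcl := excl_of_real hψx
  refine ⟨?_, ?_, ?_, ?_⟩
  · intro ψ hψ hex
    have := hlow _ _ (admG_state hg ht hgap hw hN1 hNn hψ hex)
    linarith
  · exact ⟨_, hstate, hexcl, by rw [energyW_of_real]; linarith⟩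
  · intro ψ hψ hex hmin
    refine (hdep _ _ (admG_state hg ht hgap hw hN1 hNn hψ hex) ?_).trans hεr
    have := hmin _ hstate hexcl
    rw [energyW_of_real] at this
    exact this
  · intro T hT hT' m b e hb
    obtain ⟨hm, he, hmean⟩ := hGIX V Hd (energyW t w) N hN1 hNn _ hstate hexcl T hT m b e hb
    rw [energyW_of_real] at hmean
    have hA := admG_gibbs (t := t) (w := w) (Hd := Hd) (g := g) (k := k) (N := N) hm e e
      (fun i => condensate (b i)) T
      (fun i => by
        have := admG_state hg ht hgap hw hN1 hNn (hb.state i) (hb.excl i)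
        rw [he i] at this
        exact this)
    refine (hdep _ _ hA (hmean.trans ?_)).trans hεr
    have h1 := mul_le_mul_of_nonneg_right hT' (by linarith : (0 : ℝ) ≤ N)
    have h2 : δ * (N / Fintype.card V) * N = δ * (N ^ 2 / Fintype.card V) := by ring
    linarith

end Run7.h543.DEP
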