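import Pool.Agent.Run7.h543.DEP.Stm

/-!
# Annihilation operators: the mean, and close pairs
-/

set_option autoImplicit false
set_option linter.unusedSectionVars false

noncomputable section

namespace Run7.h543.DEP

open Finset Matrix Run7.h259.BEC

variable {V : Type} [Fintype V] [DecidableEq V]

/-- the annihilation operators commute -/
lemma a_a (x y : V) (ψ : Finset V → ℝ) : a x (a y ψ) = a y (a x ψ) := by
  ext S
  simp only [a_apply]
  by_cases hx : x ∈ S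
  · by_cases hy : y ∈ S <;> simp [hx, hy]
  · by_cases hy : y ∈ S
    · simp [hx, hy]
    · by_cases hxy : x = y
      · subst hxy; simp [hx]
      · have h1 : y ∉ insert x S := by simp [hy, Ne.symm hxy]
        have h2 : x ∉ insert y S := by simp [hx, hxy]
        simp only [hx, hy, h1, h2, if_false]
        rw [insert_comm]

/-- the mean of the annihilation operators -/
def bop : (Finset V → ℝ) →ₗ[ℝ] (Finset V → ℝ) := (1 / (Fintype.card V : ℝ)) • ∑ x, a x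

lemma bop_eq (ψ : Finset V → ℝ) : bop ψ = (1 / (Fintype.card V : ℝ)) • ∑ x, a x ψ := by
  unfold bop
  rw [LinearMap.smul_apply, LinearMap.sum_apply]

lemma a_bop (x : V) (ψ : Finset V → ℝ) : a x (bop ψ) = bop (a x ψ) := by
  rw [bop_eq, bop_eq, map_smul, map_sum]
  congr 1
  exact sum_congr rfl fun y _ => a_a x y ψ

lemma bop_apply (ψ : Finset V → ℝ) (S : Finset V) :
    bop ψ S = (∑ x, a x ψ S) / Fintype.card V := by
  rw [bop_eq, Pi.smul_apply, smul_eq_mul, Finset.sum_apply]; ring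

lemma cond_eq [Nonempty V] (ψ : Finset V → ℝ) :
    cond ψ = Fintype.card V * (bop ψ ⬝ᵥ bop ψ) := by
  have hn : (Fintype.card V : ℝ) ≠ 0 := by exact_mod_cast Fintype.card_ne_zero
  rw [bop_eq, smul_dotProduct, dotProduct_smul, sum_dotProduct]
  simp only [dotProduct_sum, smul_eq_mul]
  unfold Run7.h259.BEC.cond G
  field_simp

lemma dot_a_le (x : V) (ψ : Finset V → ℝ) : a x ψ ⬝ᵥ a x ψ ≤ ψ ⬝ᵥ ψ := by
  have h : a x ψ ⬝ᵥ a x ψ = ψ ⬝ᵥ nn x ψ := G_self ψ x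
  rw [h]
  unfold dotProduct
  refine sum_le_sum fun S _ => ?_
  rw [nn_apply]
  split_ifs
  · exact le_rfl
  · rw [mul_zero]; exact mul_self_nonneg _

lemma part_a {N : ℕ} {ψ : Finset V → ℝ} (h : Part N ψ) (x : V) : Part (N - 1) (a x ψ) := by
  intro S hS
  rw [a_apply]
  split_ifs with hx
  · rfl
  · apply h
    rw [card_insert_of_notMem hx]
    omega

lemma part_bop {N : ℕ} {ψ : Finset V → ℝ} (h : Part N ψ) : Part (N - 1) (bop ψ) := by
  intro S hS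
  rw [bop_apply]
  have : ∀ x, a x ψ S = 0 := fun x => part_a h x S hS
  simp [this]

lemma part_sub {N : ℕ} {φ ψ : Finset V → ℝ} (h : Part N φ) (h' : Part N ψ) : Part N (φ - ψ) := by
  intro S hS
  rw [Pi.sub_apply, h S hS, h' S hS, sub_zero]

lemma cond_le [Nonempty V] {N : ℕ} {ψ : Finset V → ℝ} (h : Part N ψ) :
    cond ψ ≤ N * (ψ ⬝ᵥ ψ) := by
  have hn : (0 : ℝ) < Fintype.card V := by exact_mod_cast Fintype.card_pos
  unfold Run7.h259.BEC.cond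
  rw [div_le_iff₀ hn]
  have h1 : ∑ x, ∑ y, G ψ x y ≤ ∑ x, ∑ y, (G ψ x x + G ψ y y) / 2 :=
    sum_le_sum fun x _ => sum_le_sum fun y _ => (le_abs_self _).trans (abs_G_le ψ x y)
  refine h1.trans (le_of_eq ?_)
  have h2 : ∑ x, ∑ y, (G ψ x x + G ψ y y) / 2 =
      ∑ x, ((Fintype.card V : ℝ) * G ψ x x + ∑ y, G ψ y y) / 2 := by
    refine sum_congr rfl fun x _ => ?_
    rw [← sum_div, sum_add_distrib, sum_const, card_univ, nsmul_eq_mul]
  rw [h2, sum_G N ψ h, ← sum_div, sum_add_distrib, ← mul_sum, sum_G N ψ h, sum_const, card_univ,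
    nsmul_eq_mul]
  ring

lemma cond_nonneg [Nonempty V] (ψ : Finset V → ℝ) : 0 ≤ cond ψ := by
  rw [cond_eq]
  exact mul_nonneg (Nat.cast_nonneg _) (dot_self_nonneg _)

lemma bop_le [Nonempty V] {N : ℕ} {ψ : Finset V → ℝ} (h : Part N ψ) :
    bop ψ ⬝ᵥ bop ψ ≤ N / Fintype.card V * (ψ ⬝ᵥ ψ) := by
  have hn : (0 : ℝ) < Fintype.card V := by exact_mod_cast Fintype.card_pos
  have h1 := cond_le h
  rw [cond_eq] at h1
  rw [div_mul_eq_mul_div, le_div_iff₀ hn]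
  linarith

/-- the particles outside of the condensate -/
lemma nplus_eq [Nonempty V] {N : ℕ} {ψ : Finset V → ℝ} (h : Part N ψ) :
    ∑ x, (a x ψ - bop ψ) ⬝ᵥ (a x ψ - bop ψ) = N * (ψ ⬝ᵥ ψ) - cond ψ := by
  have hn : (Fintype.card V : ℝ) ≠ 0 := by exact_mod_cast Fintype.card_ne_zero
  have h1 : ∀ x, (a x ψ - bop ψ) ⬝ᵥ (a x ψ - bop ψ) =
      G ψ x x - 2 * (a x ψ ⬝ᵥ bop ψ) + bop ψ ⬝ᵥ bop ψ := by
    intro x
    rw [sub_dotProduct, dotProduct_sub, dotProduct_sub, dotProduct_comm (bop ψ) (a x ψ)]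
    unfold G; ring
  simp_rw [h1]
  rw [sum_add_distrib, sum_sub_distrib, ← mul_sum, sum_G N ψ h, sum_const, card_univ, nsmul_eq_mul,
    ← sum_dotProduct, ← cond_eq]
  have h2 : ∑ x, a x ψ = (Fintype.card V : ℝ) • bop ψ := by
    rw [bop_eq, smul_smul, mul_one_div, div_self hn, one_smul]
  rw [h2, smul_dotProduct, smul_eq_mul, ← cond_eq]
  ring

lemma dot_add_le (u v : Finset V → ℝ) :
    (u + v) ⬝ᵥ (u + v) ≤ 2 * (u ⬝ᵥ u) + 2 * (v ⬝ᵥ v) := by
  have h := dot_self_nonneg (u - v)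
  rw [sub_dotProduct, dotProduct_sub, dotProduct_sub] at h
  rw [add_dotProduct, dotProduct_add, dotProduct_add]
  linarith

/-- **Close pairs of particles and the condensate.** -/
theorem close [Nonempty V] {N : ℕ} {ψ : Finset V → ℝ} (h : Part N ψ) (K : V → V → ℝ) (k₁ : ℝ)
    (hk : 0 ≤ k₁) (hK0 : ∀ x y, 0 ≤ K x y) (hKs : ∀ x y, K x y = K y x)
    (hK : ∀ x, ∑ y, K x y ≤ k₁) :
    ∑ z, ∑ w, K z w * (a w (a z (bop ψ)) ⬝ᵥ a w (a z (bop ψ))) ≤
      2 * k₁ * ((N / Fintype.card V) ^ 2 * N * (ψ ⬝ᵥ ψ) +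
        N / Fintype.card V * (N * (ψ ⬝ᵥ ψ) - cond ψ)) := by
  have hn : (0 : ℝ) < Fintype.card V := by exact_mod_cast Fintype.card_pos
  set ρ : ℝ := N / Fintype.card V with hρ
  have hρ0 : 0 ≤ ρ := by positivity
  have hN1 : ((N - 1 : ℕ) : ℝ) ≤ N := by exact_mod_cast Nat.sub_le N 1
  have hN2 : ((N - 1 - 1 : ℕ) : ℝ) ≤ N := by
    exact_mod_cast (Nat.sub_le _ 1).trans (Nat.sub_le N 1)
  have hb1 : bop ψ ⬝ᵥ bop ψ ≤ ρ * (ψ ⬝ᵥ ψ) := bop_le h
  have hb2 : bop (bop ψ) ⬝ᵥ bop (bop ψ) ≤ ρ ^ 2 * (ψ ⬝ᵥ ψ) := by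
    have h1 := bop_le (part_bop h)
    have h2 : ((N - 1 : ℕ) : ℝ) / Fintype.card V ≤ ρ := div_le_div_of_nonneg_right hN1 hn.le
    have h3 := mul_le_mul_of_nonneg_right h2 (dot_self_nonneg (bop ψ))
    have h4 := mul_le_mul_of_nonneg_left hb1 hρ0
    calc _ ≤ _ := h1
      _ ≤ _ := h3
      _ ≤ _ := h4
      _ = _ := by ring
  have hterm : ∀ z w, a w (a z (bop ψ)) ⬝ᵥ a w (a z (bop ψ)) ≤
      2 * (G (bop (bop ψ)) z z) + 2 * (ρ * ((a w ψ - bop ψ) ⬝ᵥ (a w ψ - bop ψ))) := by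
    intro z w
    have e1 : a w (a z (bop ψ)) = a z (bop (bop ψ)) + a z (bop (a w ψ - bop ψ)) := by
      rw [← map_add, ← map_add, add_sub_cancel, a_a, a_bop]
    rw [e1]
    refine (dot_add_le _ _).trans ?_
    have e2 : a z (bop (a w ψ - bop ψ)) ⬝ᵥ a z (bop (a w ψ - bop ψ)) ≤
        ρ * ((a w ψ - bop ψ) ⬝ᵥ (a w ψ - bop ψ)) := by
      refine (dot_a_le z _).trans ?_
      have h1 := bop_le (part_sub (part_a h w) (part_bop h))
      have h2 : ((N - 1 : ℕ) : ℝ) / Fintype.card V ≤ ρ := div_le_div_of_nonneg_right hN1 hn.le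
      exact h1.trans (mul_le_mul_of_nonneg_right h2 (dot_self_nonneg _))
    have e3 : a z (bop (bop ψ)) ⬝ᵥ a z (bop (bop ψ)) = G (bop (bop ψ)) z z := rfl
    rw [e3]
    linarith
  have h1 : ∑ z, ∑ w, K z w * (a w (a z (bop ψ)) ⬝ᵥ a w (a z (bop ψ))) ≤
      ∑ z, ∑ w, (2 * (K z w * G (bop (bop ψ)) z z) +
        2 * ρ * (K z w * ((a w ψ - bop ψ) ⬝ᵥ (a w ψ - bop ψ)))) := by
    refine sum_le_sum fun z _ => sum_le_sum fun w _ => ?_
    have := mul_le_mul_of_nonneg_left (hterm z w) (hK0 z w)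
    refine this.trans (le_of_eq ?_)
    ring
  refine h1.trans ?_
  simp_rw [sum_add_distrib, ← mul_sum]
  have h2 : ∑ z, ∑ w, K z w * G (bop (bop ψ)) z z ≤ k₁ * (N * (ρ ^ 2 * (ψ ⬝ᵥ ψ))) := by
    calc ∑ z, ∑ w, K z w * G (bop (bop ψ)) z z ≤ ∑ z, k₁ * G (bop (bop ψ)) z z := by
          refine sum_le_sum fun z _ => ?_
          rw [← sum_mul]
          exact mul_le_mul_of_nonneg_right (hK z) (G_self_nonneg _ _)
      _ = k₁ * (((N - 1 - 1 : ℕ) : ℝ) * (bop (bop ψ) ⬝ᵥ bop (bop ψ))) := by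
          rw [← mul_sum, sum_G _ _ (part_bop (part_bop h))]
      _ ≤ k₁ * (N * (ρ ^ 2 * (ψ ⬝ᵥ ψ))) := by
          refine mul_le_mul_of_nonneg_left ?_ hk
          exact mul_le_mul hN2 hb2 (dot_self_nonneg _) (Nat.cast_nonneg _)
  have h3 : ∑ z, ∑ w, K z w * ((a w ψ - bop ψ) ⬝ᵥ (a w ψ - bop ψ)) ≤
      k₁ * (N * (ψ ⬝ᵥ ψ) - cond ψ) := by
    rw [sum_comm, ← nplus_eq h, mul_sum]
    refine sum_le_sum fun w _ => ?_
    rw [← sum_mul]
    refine mul_le_mul_of_nonneg_right ?_ (dot_self_nonneg _)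
    refine le_trans (le_of_eq ?_) (hK w)
    exact sum_congr rfl fun z _ => hKs z w
  have h4 := mul_le_mul_of_nonneg_left h3 (by positivity : 0 ≤ 2 * ρ)
  linarith

/-- pairs of occupied sites -/
lemma dot_aa (z w : V) (φ : Finset V → ℝ) :
    a w (a z φ) ⬝ᵥ a w (a z φ) =
      ∑ S, if z ∈ S ∧ w ∈ S ∧ z ≠ w then φ S ^ 2 else 0 := by
  have h1 : a w (a z φ) ⬝ᵥ a w (a z φ) = (a z φ) ⬝ᵥ nn w (a z φ) := G_self (a z φ) w
  rw [h1]
  by_cases hzw : z = w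
  · subst hzw
    have h2 : nn z (a z φ) = 0 := by
      ext S; simp only [nn_apply, a_apply]; split_ifs <;> rfl
    rw [h2, dotProduct_zero]
    simp
  · rw [nn_a w z (Ne.symm hzw), a_dot, ad_a_self]
    unfold dotProduct
    refine sum_congr rfl fun S _ => ?_
    rw [nn_apply, nn_apply]
    by_cases hz : z ∈ S <;> by_cases hw : w ∈ S <;> simp [hz, hw, hzw, sq]

end Run7.h543.DEP
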