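import Pool.Agent.Run7.h543.DEP.Low2

/-!
# The lower bound for every wave function: summation over the configurations
-/

set_option autoImplicit false
set_option linter.unusedSectionVars false

noncomputable section

namespace Run7.h543.DEP

open Finset Matrix Run7.h259.BEC

variable {V : Type} [Fintype V] [DecidableEq V]

/-- the arithmetic of the sum -/
lemma low_arith {c s τ b2 k N n kin lam np W cond B CL₁ CL₂ T : ℝ} (hτ : 0 < τ) (hn : 0 < n)
    (hc : 0 ≤ c) (hN : 1 ≤ N) (hcond : cond = n * b2) (hcl : cond ≤ N * W)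
    (hb2 : 0 ≤ b2) (hk : k = N - 1)
    (h1 : (c - s / τ) * (b2 * k) ≤ (kin + lam * np) + τ * np + (c * CL₁ + CL₂ / τ) +
      |lam| * B ^ 2 * (b2 * k ^ 2) / n)
    (h2 : CL₁ ≤ 2 * B * T) (h3 : CL₂ ≤ 2 * B ^ 2 * T)
    (hT : T = (N / n) ^ 2 * N * W + N / n * np) :
    (c - s / τ) * ((N - 1) / n) * cond -
      (2 * c * B + |lam| * B ^ 2 + 2 * B ^ 2 / τ) * (N / n) ^ 2 * N * W -
      (τ + (2 * c * B + 2 * B ^ 2 / τ) * (N / n)) * np ≤ kin + lam * np := by
  have hn' : n ≠ 0 := hn.ne'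
  have e1 : (c - s / τ) * ((N - 1) / n) * cond = (c - s / τ) * (b2 * k) := by
    rw [hcond, hk]; field_simp
  have e2 : c * CL₁ ≤ c * (2 * B * T) := mul_le_mul_of_nonneg_left h2 hc
  have e3 : CL₂ / τ ≤ 2 * B ^ 2 * T / τ := div_le_div_of_nonneg_right h3 hτ.le
  have e4 : b2 * k ^ 2 / n ≤ (N / n) ^ 2 * N * W := by
    have f1 : b2 * k ^ 2 / n = cond * (k / n) ^ 2 := by rw [hcond]; field_simp
    have f2 : (k / n) ^ 2 ≤ (N / n) ^ 2 := by
      refine pow_le_pow_left₀ (div_nonneg (by linarith) hn.le) ?_ 2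
      exact div_le_div_of_nonneg_right (by linarith) hn.le
    rw [f1]
    have f3 : 0 ≤ cond := by rw [hcond]; positivity
    calc cond * (k / n) ^ 2 ≤ cond * (N / n) ^ 2 := mul_le_mul_of_nonneg_left f2 f3
      _ ≤ N * W * (N / n) ^ 2 := mul_le_mul_of_nonneg_right hcl (sq_nonneg _)
      _ = _ := by ring
  have e5 : |lam| * B ^ 2 * (b2 * k ^ 2) / n ≤ |lam| * B ^ 2 * ((N / n) ^ 2 * N * W) := by
    rw [mul_div_assoc]
    exact mul_le_mul_of_nonneg_left e4 (by positivity)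
  have e6 : 2 * B ^ 2 * T / τ = 2 * B ^ 2 / τ * T := by ring
  rw [e1]
  rw [e6] at e3
  have e7 : c * (2 * B * T) + 2 * B ^ 2 / τ * T =
      (2 * c * B + 2 * B ^ 2 / τ) * (N / n) ^ 2 * N * W +
        (2 * c * B + 2 * B ^ 2 / τ) * (N / n) * np := by
    rw [hT]; ring
  have e8 : (2 * c * B + |lam| * B ^ 2 + 2 * B ^ 2 / τ) * (N / n) ^ 2 * N * W =
      (2 * c * B + 2 * B ^ 2 / τ) * (N / n) ^ 2 * N * W +
        |lam| * B ^ 2 * ((N / n) ^ 2 * N * W) := by ring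
  have e9 : (τ + (2 * c * B + 2 * B ^ 2 / τ) * (N / n)) * np =
      τ * np + (2 * c * B + 2 * B ^ 2 / τ) * (N / n) * np := by ring
  rw [e8, e9]
  linarith

/-- the pair sum over the configurations -/
lemma pair_sum (φ : Finset V → ℝ) (K : V → V → ℝ) :
    ∑ S : Finset V, φ S ^ 2 * (∑ z ∈ S, ∑ w ∈ S, if z ≠ w then K z w else 0) =
      ∑ z, ∑ w, K z w * (a w (a z φ) ⬝ᵥ a w (a z φ)) := by
  simp_rw [dot_aa]
  have h1 : ∀ S : Finset V, φ S ^ 2 * (∑ z ∈ S, ∑ w ∈ S, if z ≠ w then K z w else 0) =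
      ∑ z, ∑ w, K z w * (if z ∈ S ∧ w ∈ S ∧ z ≠ w then φ S ^ 2 else 0) := by
    intro S
    rw [mul_sum, ← sum_filter_add_sum_filter_not univ (fun z => z ∈ S)
      (fun z => ∑ w, K z w * (if z ∈ S ∧ w ∈ S ∧ z ≠ w then φ S ^ 2 else 0))]
    have h2 : ∑ z ∈ univ.filter (fun z => ¬ z ∈ S), ∑ w, K z w *
        (if z ∈ S ∧ w ∈ S ∧ z ≠ w then φ S ^ 2 else 0) = 0 := by
      refine sum_eq_zero fun z hz => sum_eq_zero fun w _ => ?_
      rw [if_neg, mul_zero]
      exact fun h => (mem_filter.1 hz).2 h.1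
    rw [h2, add_zero, filter_mem_eq_inter, univ_inter]
    refine sum_congr rfl fun z hz => ?_
    rw [mul_sum]
    rw [← sum_filter_add_sum_filter_not univ (fun w => w ∈ S)
      (fun w => K z w * (if z ∈ S ∧ w ∈ S ∧ z ≠ w then φ S ^ 2 else 0))]
    have h3 : ∑ w ∈ univ.filter (fun w => ¬ w ∈ S), K z w *
        (if z ∈ S ∧ w ∈ S ∧ z ≠ w then φ S ^ 2 else 0) = 0 := by
      refine sum_eq_zero fun w hw => ?_
      rw [if_neg, mul_zero]
      exact fun h => (mem_filter.1 hw).2 h.2.1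
    rw [h3, add_zero, filter_mem_eq_inter, univ_inter]
    refine sum_congr rfl fun w hw => ?_
    by_cases h : z = w
    · simp [h]
    · simp [h, hz, hw]; ring
  simp_rw [h1, mul_sum]
  rw [sum_comm]
  refine sum_congr rfl fun z _ => ?_
  rw [sum_comm]

theorem t_LOW : S_LOW := by
  intro V _ _ t D g lam c s B U E hD hg hB hl ht hgap hP N hN1 hN ψ hψ τ hτ
  have hV : Nonempty V := Fintype.card_pos_iff.1 (by omega)
  have hn : (0 : ℝ) < Fintype.card V := by exact_mod_cast Fintype.card_pos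
  have hN1' : (1 : ℝ) ≤ N := by exact_mod_cast hN1
  have hm0 : ∀ S : Finset V, S.card ≠ N - 1 → bop ψ S = 0 := part_bop hψ
  -- one configuration
  have hcfg : ∀ S : Finset V, (c - s / τ) * (bop ψ S ^ 2 * ((N : ℝ) - 1)) ≤
      (∑ x, ∑ y, lap t x y * (a x ψ S - bop ψ S) * (a y ψ S - bop ψ S) +
        lam * ∑ x, (a x ψ S - bop ψ S) ^ 2) + τ * ∑ x, (a x ψ S - bop ψ S) ^ 2 +
      bop ψ S ^ 2 * (c * (∑ z ∈ S, ∑ w ∈ S, if z ≠ w then U z w else 0) +
        (∑ z ∈ S, ∑ w ∈ S, if z ≠ w then (∑ x, E x z * E x w) else 0) / τ) +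
      |lam| * B ^ 2 * (bop ψ S ^ 2 * ((N : ℝ) - 1) ^ 2) / Fintype.card V := by
    intro S
    have h1 := cfg ht.symm hgap hl hP S (fun x => a x ψ S - bop ψ S) (bop ψ S) (by
      rw [sum_sub_distrib, sum_const, card_univ, nsmul_eq_mul, bop_apply]
      field_simp; ring) (fun z hz => by rw [a_apply, if_pos hz]; ring) τ hτ
    by_cases hS : S.card = N - 1
    · have h2 : (S.card : ℝ) = N - 1 := by rw [hS, Nat.cast_sub hN1, Nat.cast_one]
      rw [h2] at h1
      exact h1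
    · rw [hm0 S hS] at h1 ⊢
      simpa using h1
  have hsum := sum_le_sum fun S (_ : S ∈ (univ : Finset (Finset V))) => hcfg S
  simp only [sum_add_distrib, ← mul_sum, ← sum_mul, ← sum_div] at hsum
  have hb2 : ∑ S, bop ψ S ^ 2 = bop ψ ⬝ᵥ bop ψ := by
    unfold dotProduct; exact sum_congr rfl fun S _ => sq _
  have hnp : ∑ S, ∑ x, (a x ψ S - bop ψ S) ^ 2 = N * (ψ ⬝ᵥ ψ) - Run7.h259.BEC.cond ψ := by
    rw [← nplus_eq hψ, sum_comm]
    refine sum_congr rfl fun x _ => ?_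
    unfold dotProduct
    exact sum_congr rfl fun S _ => sq _
  have hkin : ∑ S, ∑ x, ∑ y, lap t x y * (a x ψ S - bop ψ S) * (a y ψ S - bop ψ S) =
      kin t ψ := by
    have e1 : ∀ S, ∑ x, ∑ y, lap t x y * (a x ψ S - bop ψ S) * (a y ψ S - bop ψ S) =
        ∑ x, ∑ y, lap t x y * (a x ψ S * a y ψ S) := by
      intro S
      have e2 := lap_form ht.symm (fun x => a x ψ S - bop ψ S)
      have e3 := lap_form ht.symm (fun x => a x ψ S)
      rw [e2]
      have e4 : ∑ x, ∑ y, lap t x y * (a x ψ S * a y ψ S) =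
          ∑ x, ∑ y, lap t x y * a x ψ S * a y ψ S :=
        sum_congr rfl fun x _ => sum_congr rfl fun y _ => by ring
      rw [e4, e3]
      exact sum_congr rfl fun x _ => sum_congr rfl fun y _ => by ring
    simp_rw [e1]
    unfold kin G dotProduct
    rw [sum_comm]
    refine sum_congr rfl fun x _ => ?_
    rw [sum_comm]
    refine sum_congr rfl fun y _ => ?_
    rw [mul_sum]
  have hBB : 0 ≤ B ^ 2 := sq_nonneg B
  have hcl1 := close hψ U B hB.le hP.nonneg hP.symm hP.row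
  have hcl2 := close hψ (fun z w => ∑ x, E x z * E x w) (B ^ 2) hBB
    (fun z w => sum_nonneg fun x _ => mul_nonneg (hP.Enonneg _ _) (hP.Enonneg _ _))
    (fun z w => sum_congr rfl fun x _ => mul_comm _ _) (fun z => by
      rw [sum_comm]
      have e1 : ∀ x, ∑ y, E x z * E x y ≤ E x z * B := by
        intro x
        rw [← mul_sum]
        exact mul_le_mul_of_nonneg_left (hP.Erow x) (hP.Enonneg _ _)
      refine (sum_le_sum fun x _ => e1 x).trans ?_
      rw [← sum_mul, sq]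
      refine mul_le_mul_of_nonneg_right ?_ hB.le
      refine le_trans (le_of_eq ?_) (hP.Erow z)
      exact sum_congr rfl fun x _ => hP.Esymm x z)
  have q1 := pair_sum (bop ψ) (fun z w => U z w)
  have q2 := pair_sum (bop ψ) (fun z w => ∑ x, E x z * E x w)
  rw [← q1] at hcl1
  rw [← q2] at hcl2
  have hmid : ∑ S : Finset V, bop ψ S ^ 2 * (c * (∑ z ∈ S, ∑ w ∈ S, if z ≠ w then U z w else 0) +
      (∑ z ∈ S, ∑ w ∈ S, if z ≠ w then (∑ x, E x z * E x w) else 0) / τ) =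
      c * (∑ S : Finset V, bop ψ S ^ 2 * (∑ z ∈ S, ∑ w ∈ S, if z ≠ w then U z w else 0)) +
      (∑ S : Finset V, bop ψ S ^ 2 *
        (∑ z ∈ S, ∑ w ∈ S, if z ≠ w then (∑ x, E x z * E x w) else 0)) / τ := by
    rw [mul_sum, sum_div, ← sum_add_distrib]
    exact sum_congr rfl fun S _ => by ring
  rw [hkin, hnp, hb2] at hsum
  exact low_arith (c := c) (b2 := bop ψ ⬝ᵥ bop ψ) (k := (N : ℝ) - 1) hτ hn hP.c0 hN1'
    (cond_eq ψ) (cond_le hψ) (dot_self_nonneg _) rfl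
    (by rw [← hmid]; exact hsum) hcl1 hcl2 rfl

end Run7.h543.DEP
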