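import Pool.Agent.Run7.h259.BEC.Final
import Pool.Agent.Run7.h259.BEC.Cplx

/-!
# Hard-core bosons on a space with a spectral gap: the first-order law of the condensate depletion

INTERFACE of the project DEP (helper543, hard page MP_4952d6_mp).

Theorem to be proved.  Let `t` be symmetric nonnegative hopping amplitudes on a finite set `V` of `n`
sites, rows `≤ D`, `L` the Laplacian, with spectral gap `≥ g`, and suppose that the diagonal of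
`L ^ k` is constant for all `k ≤ K` (vertex-transitive graphs; regular graphs of large girth).  Let
`G` be the Green function of `L` on the orthogonal complement of the constants.  Then for `N`
hard-core bosons, `N ≤ ρ₀ n`: the ground energy is `N (N - 1) / tr G + o(N ^ 2 / n)` and the
number of particles outside the condensate in every near ground state (and in the Gibbs states at
low temperature) is `κ N (N - 1) / n + o(N ^ 2 / n)`, `κ = n tr (G ^ 2) / (tr G) ^ 2`.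

Real wave functions `ψ : Finset V → ℝ`; `a x` is the annihilation operator of
`Run7.h259.BEC.Ops`, `G ψ x y = a x ψ ⬝ᵥ a y ψ`, `cond ψ = (∑ x, ∑ y, G ψ x y) / card V`.
-/

set_option autoImplicit false
set_option linter.unusedSectionVars false

noncomputable section

namespace Run7.h543.DEP

open Finset Matrix Run7.h259.BEC

section defs
variable {V : Type} [Fintype V] [DecidableEq V]

/-- the Laplacian of the hopping amplitudes `t` -/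
def lap (t : V → V → ℝ) : Matrix V V ℝ := fun x y => (if x = y then ∑ z, t x z else 0) - t x y

/-- symmetric nonnegative hopping amplitudes with row sums at most `D` -/
structure IsHopping (t : V → V → ℝ) (D : ℝ) : Prop where
  symm : ∀ x y, t x y = t y x
  nonneg : ∀ x y, 0 ≤ t x y
  row : ∀ x, ∑ y, t x y ≤ D

/-- the spectral gap of the Laplacian above the constants -/
def HasGapT (t : V → V → ℝ) (g : ℝ) : Prop :=
  ∀ f : V → ℝ, ∑ x, f x = 0 → g * ∑ x, f x ^ 2 ≤ ∑ x, ∑ y, t x y * (f y - f x) ^ 2 / 2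

/-- the powers of the Laplacian up to the exponent `K` have a constant diagonal -/
def Loc (t : V → V → ℝ) (K : ℕ) : Prop := ∀ k ≤ K, ∀ x y, (lap t ^ k) x x = (lap t ^ k) y y

/-- the projection onto the constants -/
def JJ (V : Type) [Fintype V] : Matrix V V ℝ := fun _ _ => 1 / (Fintype.card V : ℝ)

/-- the Green function of the Laplacian on the orthogonal complement of the constants -/
def green (t : V → V → ℝ) : Matrix V V ℝ := (lap t + JJ V)⁻¹ - JJ V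

/-- `tr G / n` -/
def aa (t : V → V → ℝ) : ℝ := trace (green t) / (Fintype.card V : ℝ)

/-- `tr G ^ 2 / n` -/
def bb (t : V → V → ℝ) : ℝ := trace (green t * green t) / (Fintype.card V : ℝ)

/-- the lazy random walk -/
def walk (t : V → V → ℝ) (D : ℝ) : Matrix V V ℝ := 1 - (1 / (2 * D)) • lap t

/-- the kinetic energy of a real wave function -/
def kin (t : V → V → ℝ) (ψ : Finset V → ℝ) : ℝ := ∑ x, ∑ y, lap t x y * G ψ x y

/-- the kernel of the two-particle problem: `(L + lam) U = c - E` with `U = 1` on the diagonal,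
`E` small in mean square -/
structure Profile (t : V → V → ℝ) (lam c s B : ℝ) (U E : Matrix V V ℝ) : Prop where
  one : ∀ x, U x x = 1
  nonneg : ∀ x y, 0 ≤ U x y
  le_one : ∀ x y, U x y ≤ 1
  symm : ∀ x y, U x y = U y x
  Esymm : ∀ x y, E x y = E y x
  Enonneg : ∀ x y, 0 ≤ E x y
  row : ∀ x, ∑ y, U x y ≤ B
  Erow : ∀ x, ∑ y, E x y ≤ B
  eq : ∀ x y, (lap t * U) x y + lam * U x y = (if x = y then c else 0) - E x y
  sq : ∀ x, ∑ y, E x y ^ 2 ≤ s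
  c0 : 0 ≤ c

/-- `b` is an orthonormal basis of the space of `N` particles which diagonalises the quadratic
form `en`, with the eigenvalues `e` -/
structure IsSpec (en : (Finset V → ℂ) → ℝ) (N : ℕ) {m : ℕ}
    (b : Fin m → Finset V → ℂ) (e : Fin m → ℝ) : Prop where
  state : ∀ i, IsState N (b i)
  ortho : ∀ i j, i ≠ j → ∑ S, (starRingEnd ℂ) (b i S) * b j S = 0
  complete : ∀ φ : Finset V → ℂ, (∀ S, S.card ≠ N → φ S = 0) →
    ∑ S, ‖φ S‖ ^ 2 = ∑ i, ‖∑ S, (starRingEnd ℂ) (b i S) * φ S‖ ^ 2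
  diag : ∀ φ : Finset V → ℂ, (∀ S, S.card ≠ N → φ S = 0) →
    en φ = ∑ i, e i * ‖∑ S, (starRingEnd ℂ) (b i S) * φ S‖ ^ 2

/-- the mean value in the Gibbs state at the temperature `T` -/
def gibbs {m : ℕ} (e : Fin m → ℝ) (T : ℝ) (q : Fin m → ℝ) : ℝ :=
  (∑ i, Real.exp (-e i / T) * q i) / ∑ i, Real.exp (-e i / T)

end defs

/-- **CON** (the lazy random walk; no hypotheses).  Let `P = walk t D = 1 - L / (2 D)`, `n ≥ 2`.
(1)-(4) powers of `P` are symmetric, have nonnegative entries, row sums `1`, and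
`2 (P^k) x y ≤ (P^k) x x + (P^k) y y`;  (5) `g ≤ 2 D`;  (6) contraction: for `f, h` with
`∑ f = 0`: `∑ x, ∑ y, f x * (P^k) x y * h y ≤ θ^k * √(∑ f²) * √(∑ h²)`, `θ = 1 - g/(2D)`;
(7) `(P^k) x x ≤ 1/n + θ^k`.

Proof.  Entries of `P`: off the diagonal `t x y / (2D) ≥ 0`, on the diagonal
`1 - (∑_{z ≠ x} t x z)/(2D) ≥ 1/2`; row sums `1` as `L` has row sums `0`; symmetric.  Induction for
the powers.  `⟨f, L f⟩ = (1/2) ∑ t x y (f y - f x)^2 ≤ ∑ t x y (f x^2 + f y^2) ≤ 2 D ‖f‖^2`, so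
`⟨f, P f⟩ ≥ 0` for all `f` (P is positive semidefinite; `Matrix.PosSemidef.pow` for the powers; test
with `δ_x - δ_y` for (4)).  (5): `f = δ_x - δ_y`, `x ≠ y`, in the gap inequality: `2 g ≤ 2 D * 2`.
(6): for `∑ f = 0` one has `0 ≤ ⟨f, P f⟩ ≤ θ ‖f‖²`; Cauchy-Schwarz for the form `P`:
`‖P f‖⁴ = ⟨f, P (P f)⟩² ≤ ⟨f, P f⟩ ⟨P f, P (P f)⟩ ≤ θ ‖f‖² θ ‖P f‖²`, hence `‖P f‖ ≤ θ ‖f‖`, and
`∑ P f = 0` again, so `‖P^k f‖ ≤ θ^k ‖f‖`; then Cauchy-Schwarz.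
(7): `f = h = δ_x - 1/n`: `⟨f, P^k f⟩ = (P^k) x x - 1/n` (as `P^k 1 = 1`), `‖f‖² ≤ 1`. -/
def S_CON : Prop := ∀ (V : Type) [Fintype V] [DecidableEq V] (t : V → V → ℝ) (D g : ℝ),
  0 < D → 0 < g → 2 ≤ Fintype.card V → IsHopping t D → HasGapT t g →
  (∀ (k : ℕ) (x y : V), (walk t D ^ k) x y = (walk t D ^ k) y x) ∧
  (∀ (k : ℕ) (x y : V), 0 ≤ (walk t D ^ k) x y) ∧
  (∀ (k : ℕ) (x : V), ∑ y, (walk t D ^ k) x y = 1) ∧
  (∀ (k : ℕ) (x y : V), 2 * (walk t D ^ k) x y ≤ (walk t D ^ k) x x + (walk t D ^ k) y y) ∧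
  g ≤ 2 * D ∧
  (∀ (k : ℕ) (f h : V → ℝ), ∑ x, f x = 0 → ∑ x, ∑ y, f x * (walk t D ^ k) x y * h y ≤
    (1 - g / (2 * D)) ^ k * Real.sqrt (∑ x, f x ^ 2) * Real.sqrt (∑ x, h x ^ 2)) ∧
  (∀ (k : ℕ) (x : V), (walk t D ^ k) x x ≤ 1 / Fintype.card V + (1 - g / (2 * D)) ^ k)

/-- **GRE** (the Green function; no hypotheses).  `G = (L + J)⁻¹ - J`.

Proof.  `L J = J L = 0`, `J J = J`.  `L + J` is invertible: if `(L + J) f = 0` then, summing,
`∑ f = 0`, so `J f = 0`, `L f = 0`, and the gap inequality gives `f = 0`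
(`⟨f, L f⟩ = ∑ ∑ t (f y - f x)²/2`; use `Matrix.exists_mulVec_eq_zero_iff` and
`Matrix.isUnit_iff_isUnit_det`).  `(L + J) J = J` gives `(L + J)⁻¹ J = J`, hence
`L G = (L + J) G - J G = 1 - (L + J) J - J G = 1 - J - J G` and `J G = J - J = 0`.  Symmetric because
the inverse of a symmetric matrix is.  Column `f = G δ_x`: `∑ f = 0` and
`g ‖f‖² ≤ ⟨f, L f⟩ = ⟨f, δ_x - 1/n⟩ = f x ≤ ‖f‖`, hence `‖f‖² ≤ 1/g²`, and `0 ≤ g ‖f‖² ≤ f x = G x x`
and `G x x ≤ ‖f‖ ≤ 1/g`.  `trace (G * G) = ∑_x ‖G δ_x‖²`. -/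
def S_GRE : Prop := ∀ (V : Type) [Fintype V] [DecidableEq V] (t : V → V → ℝ) (D g : ℝ),
  0 < D → 0 < g → 1 ≤ Fintype.card V → IsHopping t D → HasGapT t g →
  (∀ x y, green t x y = green t y x) ∧
  (∀ x y, (lap t * green t) x y = (if x = y then 1 else 0) - 1 / (Fintype.card V : ℝ)) ∧
  (∀ x, ∑ y, green t x y = 0) ∧
  (∀ x, ∑ y, green t x y ^ 2 ≤ 1 / g ^ 2) ∧
  (∀ x, 0 ≤ green t x x) ∧ (∀ x, green t x x ≤ 1 / g) ∧
  0 ≤ aa t ∧ aa t ≤ 1 / g ∧ 0 ≤ bb t ∧ bb t ≤ 1 / g ^ 2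

/-- **TRA** (the traces).  With `P = walk t D`, `q = 2 D / (2 D + lam)`,
`H = (1 / (2 D + lam)) ∑_{k < m} q^k P^k`, `|lam| ≤ g/2`:
`|tr H / n - (aa - lam bb)| ≤ 2 lam² / g³ + (∑_{k<m} q^k) / ((2 D + lam) n) + 2 (q θ)^m / g`.

Proof.  `(L + lam) H = 1 - q^m P^m` because `L + lam = (2 D + lam)(1 - q P)`
(telescoping; `L = 2 D (1 - P)`).  Multiply by `G` (all matrices are polynomials in `L` or commute
with it; `G L = 1 - J`): `(1 - J) H + lam G H = G - q^m G P^m`.  Multiply once more by `G`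
(`G J = 0`): `G H + lam G² H = G² - q^m G² P^m`.  Hence
`H = J H + G - lam G² + lam² G² H - q^m G P^m + lam q^m G² P^m`.  Traces divided by `n`:
`tr (J H) = (1/(2D+lam)) ∑_{k<m} q^k` (row sums `1`); `0 ≤ tr (G² H) = ∑_x ⟨G δ_x, H G δ_x⟩
≤ (1/(2D+lam)) ∑_k (q θ)^k ∑_x ‖G δ_x‖² ≤ n / (g² (g + lam)) ≤ 2 n / g³` (CON (6),
`(2 D + lam)(1 - q θ) = g + lam ≥ g/2`); `|tr (G P^m)| = |∑_x ⟨G δ_x, P^m δ_x⟩| ≤ n θ^m / g`;
`|tr (G² P^m)| = |∑_x ⟨G δ_x, P^m G δ_x⟩| ≤ n θ^m / g²`; `|lam| / g² ≤ 1/(2g)`. -/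
def S_TRA : Prop := ∀ (V : Type) [Fintype V] [DecidableEq V] (t : V → V → ℝ) (D g : ℝ),
  0 < D → 0 < g → 2 ≤ Fintype.card V → IsHopping t D → HasGapT t g →
  ∀ (lam : ℝ), |lam| ≤ g / 2 → ∀ (m : ℕ) (H : Matrix V V ℝ),
  H = (1 / (2 * D + lam)) • ∑ k ∈ range m, (2 * D / (2 * D + lam)) ^ k • walk t D ^ k →
  |trace H / Fintype.card V - (aa t - lam * bb t)| ≤ 2 * lam ^ 2 / g ^ 3 +
    (∑ k ∈ range m, (2 * D / (2 * D + lam)) ^ k) / ((2 * D + lam) * Fintype.card V) +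
    2 * (2 * D / (2 * D + lam) * (1 - g / (2 * D))) ^ m / g

/-- **PRO** (existence of the kernels; from CON and TRA).

Proof.  If `g > 2 D` there is nothing to do (CON (5), `n₀ = 2`).  Let `q = 2D/(2D+lam)`,
`θ = 1 - g/(2D) ∈ [0, 1)`, `0 ≤ q θ < 1` (`(2D+lam)(1 - qθ) = g + lam > 0`, `2 D + lam ≥ D > 0`).
`H = (1/(2D+lam)) ∑_{k<m} q^k P^k` has a constant diagonal `h` when `Loc t m` (binomial formula for
`P^k = (1 - L/(2D))^k`, `k < m`), `h ≥ 1/(2D+lam)` (term `k = 0`, `m ≥ 1`).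
`c = 1/h ≤ 2 D + lam`, `U = H/h`, `E = c q^m P^m`.  `(L + lam) H = 1 - q^m P^m` (telescoping),
`U x x = 1`, `0 ≤ U x y ≤ 1` (CON (4) and the constant diagonal), row sums of `U` are at most
`∑_{k<m} q^k`, of `E` at most `(2D+lam) q^m`; `∑_y E x y² = c² q^{2m} (P^{2m}) x x ≤
(2D+lam)² q^{2m} (1/n + θ^{2m})`.  `1/c = h = tr H / n`, use TRA.  Choose `m` with `(qθ)^m` small, then `n₀` large; `B` the maximum of
the row sums. -/
def S_PRO : Prop := ∀ (D g : ℝ), 0 < D → 0 < g → ∀ (lam : ℝ), |lam| ≤ g / 2 → ∀ s : ℝ, 0 < s →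
  ∃ (m n₀ : ℕ) (B : ℝ), 0 < B ∧
    ∀ (V : Type) [Fintype V] [DecidableEq V] (t : V → V → ℝ), n₀ ≤ Fintype.card V →
      IsHopping t D → HasGapT t g → Loc t m →
      ∃ (c : ℝ) (U E : Matrix V V ℝ), 0 < c ∧ c ≤ 2 * D + lam ∧ Profile t lam c s B U E ∧
        |1 / c - (aa t - lam * bb t)| ≤ 2 * lam ^ 2 / g ^ 3 + s

/-- **UPP** (the Jastrow function; no hypotheses).  `lam = 0`.

Proof.  `Ψ S = ∏` over the unordered pairs `{x, y} ⊂ S` of `(1 - U x y)` (for instance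
`∏ e ∈ S.sym2.filter (¬ IsDiag), ..` or `√(∏_{x∈S} ∏_{y∈S, y≠x} (1 - U x y))`; only the recursion is
needed: `0 ≤ Ψ`, `Ψ ∅ = 1`, `Ψ (insert x S) = Ψ S * F S x` for `x ∉ S`, `F S x = ∏_{z∈S} (1 - U x z)`;
note `F S x = 0` for `x ∈ S` since `U x x = 1`).  `Ψ_M` = restriction to `M` particles,
`Z_M = ∑_{|S|=M} Ψ S²`.  `(a x Ψ_M) S = Ψ S F S x` for `|S| = M - 1`, all `x`.  Hence
`kin Ψ_N = ∑_{|S|=N-1} Ψ S² ⟨F S, L F S⟩`, `⟨F, L F⟩ = (1/2) ∑ t x y (F x - F y)²` and, for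
products of numbers in `[0,1]`, `|F x - F y| ≤ ∑_{z∈S} |U x z - U y z|`, so
`⟨F, L F⟩ ≤ ∑_{z∈S} ⟨U_z, L U_z⟩ + ∑_{z≠w∈S} Q z w`,
`Q z w = (1/2) ∑ t x y |U x z - U y z| |U x w - U y w|`, and
`⟨U_z, L U_z⟩ = ∑_x U z x (c δ_{xz} - E x z) = c - ∑_x U z x E x z ≤ c`.  Row sums:
`∑_w |U x w - U y w| ≤ 2 B`, `∑_{x,y} t x y |U x z - U y z| ≤ 2 D B`, so `∑_w Q z w ≤ 2 D B²`.
Norms: `N Z_N = ∑_{|S|=N-1} Ψ S² ∑_x F S x²`, `F² ≥ 1 - ∑_z (1 - (1-U x z)²) ≥ 1 - 2 ∑_z U x z`, so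
`N Z_N ≥ (n - 2 B N) Z_{N-1}`; with `4 B N ≤ n`: `Z_{N-1} ≤ (N/n)(1 + 4 B N/n) Z_N` and
`Z_{M-1} ≤ (2 N/n) Z_M` for `M ≤ N`.  Close pairs: `Ψ S ≤ Ψ (S \ {z,w})`, so
`∑_{|S|=N-1} Ψ S² ∑_{z≠w∈S} Q z w ≤ (∑_{z,w} Q z w) Z_{N-3} ≤ n 2 D B² (2N/n)³ Z_N`.  Normalise. -/
def S_UPP : Prop := ∀ (V : Type) [Fintype V] [DecidableEq V] (t : V → V → ℝ) (D c s B : ℝ)
  (U E : Matrix V V ℝ), 0 < D → 0 < B → IsHopping t D → Profile t 0 c s B U E →
  ∀ (N : ℕ), 1 ≤ N → 4 * B * N ≤ Fintype.card V →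
  ∃ ψ : Finset V → ℝ, Part N ψ ∧ ψ ⬝ᵥ ψ = 1 ∧
    kin t ψ ≤ c * (N - 1) * (N / Fintype.card V) * (1 + 4 * B * (N / Fintype.card V)) +
      16 * D * B ^ 2 * (N / Fintype.card V) ^ 2 * N

/-- **LOW** (a lower bound for every wave function; helper543). -/
def S_LOW : Prop := ∀ (V : Type) [Fintype V] [DecidableEq V] (t : V → V → ℝ) (D g lam c s B : ℝ)
  (U E : Matrix V V ℝ), 0 < D → 0 < g → 0 < B → -g ≤ lam → IsHopping t D → HasGapT t g →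
  Profile t lam c s B U E →
  ∀ (N : ℕ), 1 ≤ N → N ≤ Fintype.card V → ∀ ψ : Finset V → ℝ, Part N ψ → ∀ τ : ℝ, 0 < τ →
  (c - s / τ) * ((N - 1) / Fintype.card V) * cond ψ -
    (2 * c * B + |lam| * B ^ 2 + 2 * B ^ 2 / τ) * (N / Fintype.card V) ^ 2 * N * (ψ ⬝ᵥ ψ) -
    (τ + (2 * c * B + 2 * B ^ 2 / τ) * (N / Fintype.card V)) * (N * (ψ ⬝ᵥ ψ) - cond ψ) ≤
    kin t ψ + lam * (N * (ψ ⬝ᵥ ψ) - cond ψ)

/-- **GIB** (the mean energy of a Gibbs state; no hypotheses).  The model is the theorem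
`gibbs_lin` in `Run7/h543/XXZ/Cplx2.lean` (copy its proof; `m = n choose N`, entropy `≤ log m ≤
N (1 + log (n/N))`, and the Gibbs state minimises the free energy, compared with the Gibbs weights
of the trial state `φ`): mean energy `≤ en φ + T log m`. -/
def S_GIB : Prop := ∀ (V : Type) [Fintype V] [DecidableEq V] (en : (Finset V → ℂ) → ℝ) (N : ℕ),
  1 ≤ N → N ≤ Fintype.card V → ∀ (φ : Finset V → ℂ), IsState N φ → ∀ (T : ℝ), 0 < T →
  ∀ (m : ℕ) (b : Fin m → Finset V → ℂ) (e : Fin m → ℝ), IsSpec en N b e →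
  0 < m ∧ (∀ i, en (b i) = e i) ∧
  gibbs e T e ≤ en φ + T * (1 + Real.log (Fintype.card V / N)) * N

end Run7.h543.DEP
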