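import Pool.Agent.Run7.h543.DEP.Fin2

/-!
# Project DEQ (helper543): lattice gases with arbitrary pair repulsion and a spectral gap

INTERFACE.  Hard-core bosons (at most one at a site) on a finite set `V` of `n` sites with the
hopping `t` (rows `≤ D`, gap `g`), the pair repulsion `w ≥ 0` of any strength and the exclusion `Hd`
(two particles never sit at different sites `x`, `y` with `Hd x y`); each site interacts with at most
`k` sites; any two sites are exchanged by a symmetry of `t`, `w`, `Hd` (tori, ...).  The theorem: the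
ground energy is `c N (N - 1) / n` and the number of particles outside of the condensate is
`κ N (N - 1) / n`, up to `ε N ^ 2 / n`, uniformly in the volume, for `N ≤ ρ₀ n`, near ground states and
Gibbs states, where `φ` is the function of mean one which minimises
`⟨φ, L φ⟩ + (1/2) ∑ w(x, z) φ(x)²` among the functions which vanish on the sites excluded by `z`,
`c` is the minimum and `κ = ∑ (φ - 1)²`.

In all proofs `L = lap t`.
-/

set_option autoImplicit false
set_option linter.unusedSectionVars false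

noncomputable section

namespace Run7.h543.DEP

open Finset Matrix Run7.h259.BEC

section defs
variable {V : Type} [Fintype V] [DecidableEq V]

/-- `w` is a pair repulsion, `Hd` an exclusion (which contains the equality), and each site
interacts with at most `k` sites -/
structure IsRep (w : V → V → ℝ) (Hd : V → V → Prop) [DecidableRel Hd] (k : ℕ) : Prop where
  wsymm : ∀ x y, w x y = w y x
  wnonneg : ∀ x y, 0 ≤ w x y
  hsymm : ∀ x y, Hd x y → Hd y x
  hrefl : ∀ x, Hd x x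
  size : ∀ x, (univ.filter fun y => Hd x y ∨ w x y ≠ 0).card ≤ k

/-- any two sites are exchanged by a permutation which leaves `t`, `w`, `Hd` invariant -/
def Swap (t w : V → V → ℝ) (Hd : V → V → Prop) : Prop :=
  ∀ x z, ∃ σ : Equiv.Perm V, σ x = z ∧ σ z = x ∧ (∀ u v, t (σ u) (σ v) = t u v) ∧
    (∀ u v, w (σ u) (σ v) = w u v) ∧ (∀ u v, Hd (σ u) (σ v) ↔ Hd u v)

/-- the pair energy of a configuration -/
def pairW (w : V → V → ℝ) (S : Finset V) : ℝ :=
  ∑ x ∈ S, ∑ y ∈ S, if x = y then 0 else w x y / 2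

/-- the potential energy of a real wave function -/
def potR (w : V → V → ℝ) (ψ : Finset V → ℝ) : ℝ := ∑ S, pairW w S * ψ S ^ 2

/-- the wave function respects the exclusion -/
def Excl (Hd : V → V → Prop) {R : Type} [Zero R] (ψ : Finset V → R) : Prop :=
  ∀ S, (∃ x ∈ S, ∃ y ∈ S, x ≠ y ∧ Hd x y) → ψ S = 0

/-- the kernel of the one-obstacle problem with the mass `ν` -/
structure KProfile (t w : V → V → ℝ) (Hd : V → V → Prop) (ν c κ B : ℝ) (U : Matrix V V ℝ) :
    Prop where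
  symm : ∀ x z, U x z = U z x
  nonneg : ∀ x z, 0 ≤ U x z
  le_one : ∀ x z, U x z ≤ 1
  row : ∀ x, ∑ z, U x z ≤ B
  hard : ∀ x z, Hd x z → U x z = 1
  soft : ∀ x z, ¬ Hd x z → (lap t * U) x z + ν * U x z = w x z / 2 * (1 - U x z)
  charge : ∀ x z, 0 ≤ (lap t * U) x z + ν * U x z
  total : ∀ z, ν * ∑ x, U x z = c
  sq : ∀ z, ∑ x, U x z ^ 2 = κ

/-- the function of the one-obstacle problem in the volume, of mean one -/
structure IsScat (t w : V → V → ℝ) (Hd : V → V → Prop) (z : V) (φ : V → ℝ) (c : ℝ) : Prop where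
  hard : ∀ x, Hd x z → φ x = 0
  mean : ∑ x, φ x = Fintype.card V
  eq : ∀ x, ¬ Hd x z → ∑ y, lap t x y * φ y + w x z / 2 * φ x = c / Fintype.card V

/-- orthonormal eigenbasis of the wave functions of `N` particles which respect the exclusion -/
structure IsSpecX (Hd : V → V → Prop) (en : (Finset V → ℂ) → ℝ) (N : ℕ) {m : ℕ}
    (b : Fin m → Finset V → ℂ) (e : Fin m → ℝ) : Prop where
  state : ∀ i, IsState N (b i)
  excl : ∀ i, Excl Hd (b i)
  ortho : ∀ i j, i ≠ j → ∑ S, (starRingEnd ℂ) (b i S) * b j S = 0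
  complete : ∀ φ : Finset V → ℂ, (∀ S, S.card ≠ N → φ S = 0) → Excl Hd φ →
    ∑ S, ‖φ S‖ ^ 2 = ∑ i, ‖∑ S, (starRingEnd ℂ) (b i S) * φ S‖ ^ 2
  diag : ∀ φ : Finset V → ℂ, (∀ S, S.card ≠ N → φ S = 0) → Excl Hd φ →
    en φ = ∑ i, e i * ‖∑ S, (starRingEnd ℂ) (b i S) * φ S‖ ^ 2

end defs

/-- **KER** (the kernel with mass; no hypotheses).

Proof.  Fix `z`.  The linear map `M` of `V → ℝ` given by `(M φ) x = φ x` if `Hd x z`, and
`(M φ) x = ∑_y L x y φ y + ν φ x + (w x z / 2) φ x` otherwise, is injective: if `M φ = 0` then `φ = 0` on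
the sites excluded by `z` and `⟨φ, (L + ν + w/2) φ⟩ = 0`, where `⟨φ, L φ⟩ ≥ 0`
(`Run7.h543.DEP.lap_form` in Low2.lean), so `ν ∑ φ² ≤ 0`.  Hence it is surjective
(`LinearMap.injective_iff_surjective`); let `M φ = ν` off the excluded sites and `0` on them,
`U x z = 1 - φ x`.
Maximum principle: `0 ≤ φ ≤ 1` (at a site where `φ` is minimal and negative,
`∑_y L x y φ y = ∑_y t x y (φ x - φ y) ≤ 0`, the left side would be negative; at a maximum larger than
`1` it would be larger than `ν`).  `(L U) x z + ν U x z = ν - (L φ) x - ν φ x` (rows of `L` have sum `0`):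
for `¬ Hd x z` this is `(w x z/2) φ x = (w x z / 2)(1 - U x z) ≥ 0`, for `Hd x z` it is
`ν + ∑_y t x y φ y ≥ 0`.
Symmetry: for a symmetry `σ` of `t, w, Hd` the function `x ↦ φ_{σ z} (σ x)` solves the equation of
`z`, so `U (σ x) (σ z) = U x z` by injectivity; take the `σ` which exchanges `x` and `z`.  It also
shows that `∑_x U x z` and `∑_x U x z²` do not depend on `z`.  `V` may be empty (then `c = κ = 0`).
`c = ν ∑_x U x z = ∑_x ((L U) x z + ν U x z)` (columns of `L` have sum `0`) and `c` is the minimum of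
`J(φ) = ⟨φ, L φ⟩ + ν ‖1 - φ‖² + (1/2) ∑ w(x, z) φ(x)²` over the `φ` which vanish on the excluded sites
(`J(φ + χ) = J(φ) + (quadratic part of χ)` as the linear part vanishes; `J(φ) = ν ∑ U`), compared with
`φ = 0` on the at most `k` sites `{x : Hd z x ∨ w z x ≠ 0}` and `1` elsewhere: `c ≤ k (D + ν)`.
`B = c / ν`. -/
def S_KER : Prop := ∀ (V : Type) [Fintype V] [DecidableEq V] (t w : V → V → ℝ)
  (Hd : V → V → Prop) [DecidableRel Hd] (D : ℝ) (k : ℕ) (ν : ℝ), 0 < D → 0 < ν →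
  IsHopping t D → IsRep w Hd k → Swap t w Hd →
  ∃ (c κ : ℝ) (U : Matrix V V ℝ), 0 ≤ c ∧ c ≤ k * (D + ν) ∧
    KProfile t w Hd ν c κ (c / ν) U

/-- **CMP** (comparison with the volume; no hypotheses).

Proof.  `Q(f, h) = ⟨f, L h⟩ + (1/2) ∑ w(x, z) f h`.  For `χ` vanishing on the excluded sites
`Q(φ, χ) = (c / n) ∑ χ`, so for `f` vanishing on the excluded sites, with mean `μ` and
`χ = f - μ φ` (mean zero): `Q(f, f) = μ² c + Q(χ, χ) ≥ μ² c + g ∑ χ²` (gap).
(a) `f = φ`: `c = Q(φ, φ) = ⟨φ - 1, L (φ - 1)⟩ + (1/2) ∑ w φ² ≥ g ∑ (φ - 1)²`.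
(b) `f = 1 - U_z`: `Q(f, f) = ⟨f, ν U_z⟩ = cν - ν κν` (by the equation of `U`, as `f = 0` on the excluded
sites), mean `1 - u`, `u = cν / (ν n)`.  So `cν - ν κν = (1 - u)² c + Q(χ, χ)`, in particular
`(1 - u)² c + g ∑ χ² ≤ cν - ν κν`.
(c) `cν ≤ c + ν ∑ (φ - 1)²`: `Q(φ, φ) + ν ‖1 - φ‖² - (Q(f,f) + ν ‖1 - f‖²)` is the (nonnegative) quadratic part
in `φ - f`, the linear part vanishes: `Q(f, h) = ν ⟨U_z, h⟩` for `h` vanishing on the excluded sites; and
`Q(f,f) + ν ‖1 - f‖² = cν`.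
(d) `U_z - (1 - φ) = φ - f = u φ - χ`, so its square norm is at most `2 u² ∑ φ² + 2 ∑ χ²`,
`∑ φ² = n + ∑ (φ - 1)²`, and `g ∑ χ² ≤ cν - (1-u)² c ≤ ν ∑ (φ-1)² + 2 u c`. -/
def S_CMP : Prop := ∀ (V : Type) [Fintype V] [DecidableEq V] (t w : V → V → ℝ)
  (Hd : V → V → Prop) [DecidableRel Hd] (D g : ℝ) (k : ℕ) (ν cν κν B : ℝ) (U : Matrix V V ℝ),
  0 < D → 0 < g → 0 < ν → 1 ≤ Fintype.card V → IsHopping t D → HasGapT t g → IsRep w Hd k →
  KProfile t w Hd ν cν κν B U →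
  ∀ (z : V) (φ : V → ℝ) (c u : ℝ), IsScat t w Hd z φ c → u = cν / (ν * Fintype.card V) →
  0 ≤ c ∧ g * ∑ x, (φ x - 1) ^ 2 ≤ c ∧ (1 - 2 * u) * c ≤ cν ∧
  cν ≤ c + ν * ∑ x, (φ x - 1) ^ 2 ∧
  ∑ x, (U x z - (1 - φ x)) ^ 2 ≤ 2 * u ^ 2 * (Fintype.card V + ∑ x, (φ x - 1) ^ 2) +
    2 * (ν * ∑ x, (φ x - 1) ^ 2 + 2 * u * c) / g

/-- **EXI** (existence of the one-obstacle function; no hypotheses).

Proof.  As in KER with `ν = 0`: `M` is injective because `⟨φ, L φ⟩ = 0` and the gap make `φ` constant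
(`g ∑ (φ - mean)² ≤ ⟨φ, L φ⟩`) and `φ z = 0`.  Let `M φ₁ = 1` off the excluded sites and `0` on them.
Minimum principle: `φ₁ ≥ 0` (at the set of the sites where `φ₁` has its minimum, if negative:
`(L φ₁) x ≤ 0` and `w/2 φ₁ ≤ 0`, but the sum is `1`).  If `∑ φ₁ = 0` then `φ₁ = 0` and all sites are excluded;
so assume `n > k` (`IsRep.size`), then `∑ φ₁ > 0`: otherwise `φ₁ = 0` at a site not excluded where the
equation reads `0 = 1`.  Put `φ = (n / ∑ φ₁) φ₁`, `c = n² / ∑ φ₁`. -/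
def S_EXI : Prop := ∀ (V : Type) [Fintype V] [DecidableEq V] (t w : V → V → ℝ)
  (Hd : V → V → Prop) [DecidableRel Hd] (D g : ℝ) (k : ℕ), 0 < D → 0 < g →
  k < Fintype.card V → IsHopping t D → HasGapT t g → IsRep w Hd k →
  ∀ z : V, ∃ (φ : V → ℝ) (c : ℝ), IsScat t w Hd z φ c

/-- **UPG** (the Jastrow function with a pair potential; no hypotheses).

Proof.  As `t_UPP` (Run7/h270/DEP/UPP.lean), with the potential energy: for
`(a x Ψ) S = Ψ S * F S x` one has `potR w Ψ = (1/2) ∑_S Ψ S² ∑_x (∑_{z∈S} w x z) F S x²` (sum over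
`|S| = N - 1`; a pair `{x, z}` of `T` is seen from `S = T \ {x}` and from `T \ {z}`) and
`F S x² ≤ (1 - U x z)²` for `z ∈ S`.  The term of one `z` is
`⟨U_z, L U_z⟩ + (1/2) ∑_x w x z (1 - U x z)² ≤ ∑_x ((L U) x z + ν U x z) = ν ∑ U = c`:
`⟨U_z, L U_z⟩ ≤ ∑_x U x z μ x` with `μ x = (L U) x z + ν U x z ≥ 0`, and
`(w/2)(1 - U)² = (1 - U) μ` off the excluded sites, `U = 1` on them (where `(1 - U)² w/2 = 0`).
`Ψ S = 0` if `S` contains two sites with `Hd x y` since `U x y = 1`. -/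
def S_UPG : Prop := ∀ (V : Type) [Fintype V] [DecidableEq V] (t w : V → V → ℝ)
  (Hd : V → V → Prop) [DecidableRel Hd] (D ν c κ B : ℝ) (k : ℕ)
  (U : Matrix V V ℝ), 0 < D → 0 < ν → 0 < B → IsHopping t D → IsRep w Hd k →
  KProfile t w Hd ν c κ B U →
  ∀ (N : ℕ), 1 ≤ N → 4 * B * N ≤ Fintype.card V →
  ∃ ψ : Finset V → ℝ, Part N ψ ∧ Excl Hd ψ ∧ ψ ⬝ᵥ ψ = 1 ∧
    kin t ψ + potR w ψ ≤
      c * (N - 1) * (N / Fintype.card V) * (1 + 4 * B * (N / Fintype.card V)) +
      16 * D * B ^ 2 * (N / Fintype.card V) ^ 2 * N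

/-- **GIX** (Gibbs states with exclusion; no hypotheses).  As `t_GIB` (Run7/h593/DEP/GIB.lean); the
dimension `m` is now at most `n choose N` (each basis vector is supported on the `N`-point sets:
`m = ∑_i ∑_S |b_i S|² ≤ ∑_{|S| = N} 1` by Bessel: for an admissible `S` the indicator of `S` in
`complete` gives `∑_i |b_i S|² = 1`, for the other `S` all `b_i S = 0`); `0 < m` as there is a state. -/
def S_GIX : Prop := ∀ (V : Type) [Fintype V] [DecidableEq V] (Hd : V → V → Prop)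
  [DecidableRel Hd] (en : (Finset V → ℂ) → ℝ) (N : ℕ),
  1 ≤ N → N ≤ Fintype.card V → ∀ (φ : Finset V → ℂ), IsState N φ → Excl Hd φ →
  ∀ (T : ℝ), 0 < T → ∀ (m : ℕ) (b : Fin m → Finset V → ℂ) (e : Fin m → ℝ),
  IsSpecX Hd en N b e →
  0 < m ∧ (∀ i, en (b i) = e i) ∧
  gibbs e T e ≤ en φ + T * (1 + Real.log (Fintype.card V / N)) * N

/-- **TOR** (translation invariant example; no hypotheses).  The symmetry which exchanges `x` and `z`
is `u ↦ x + z - u`; for `∑ f = 0` the hopping `g / n` between all the sites contributes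
`(g / n) ∑_{x,y} (f y - f x)² / 2 = g ∑ f²` to the quadratic form. -/
def S_TOR : Prop := ∀ (V : Type) [Fintype V] [DecidableEq V] [AddCommGroup V] (t₀ w₀ : V → ℝ)
  (H₀ : V → Prop) [DecidablePred H₀] (D g : ℝ) (k : ℕ), 0 < D → 0 < g →
  (∀ a, t₀ (-a) = t₀ a) → (∀ a, 0 ≤ t₀ a) → ∑ a, t₀ a ≤ D →
  (∀ a, w₀ (-a) = w₀ a) → (∀ a, 0 ≤ w₀ a) → (∀ a, H₀ a → H₀ (-a)) → H₀ 0 →
  (univ.filter fun a => H₀ a ∨ w₀ a ≠ 0).card ≤ k →
  IsHopping (fun x y : V => t₀ (x - y) + g / Fintype.card V) (D + g) ∧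
  HasGapT (fun x y : V => t₀ (x - y) + g / Fintype.card V) g ∧
  IsRep (fun x y : V => w₀ (x - y)) (fun x y : V => H₀ (x - y)) k ∧
  Swap (fun x y : V => t₀ (x - y) + g / Fintype.card V) (fun x y : V => w₀ (x - y))
    (fun x y : V => H₀ (x - y))

end Run7.h543.DEP
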